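import Pool.Agent.Lib.MP_45bb13_gt.Ori
import Pool.Agent.Shared.Sing.Circ

/-! Spaces built from copies of `ℂ²` glued along `ℂ × ℂˣ`. -/

set_option linter.unusedSectionVars false

namespace Pool.Agent.Lib.MP_d31521_gt

open Set Topology Pool.Agent.Shared.Sing Pool.Agent.Lib.MP_45bb13_gt

/-- Open sets obtained from one chart by adding charts that meet the earlier ones in the
complement of a coordinate axis. -/
inductive Built {S : Type} [TopologicalSpace S] : Set S → Prop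
  | base (ψ : (Fin 2 → ℂ) → S) (h : IsOpenEmbedding ψ) : Built (range ψ)
  | step (A : Set S) (ψ : (Fin 2 → ℂ) → S) (hA : Built A) (h : IsOpenEmbedding ψ)
      (hp : ψ ⁻¹' A = {w | w 1 ≠ 0}) : Built (A ∪ range ψ)

namespace H55

theorem axis_pc : IsPathConnected {w : Fin 2 → ℂ | w 1 ≠ 0} := by
  have h : Continuous fun p : ℂ × ℂ => (![p.1, Complex.exp p.2] : Fin 2 → ℂ) := by fun_prop
  convert isPathConnected_range h using 1
  ext w
  refine ⟨fun hw => ⟨(w 0, Complex.log (w 1)), funext fun i => ?_⟩, ?_⟩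
  · fin_cases i
    · rfl
    · exact Complex.exp_log hw
  · rintro ⟨p, rfl⟩
    exact Complex.exp_ne_zero _

theorem inter_pc {S : Type} [TopologicalSpace S] {A : Set S} {ψ : (Fin 2 → ℂ) → S}
    (h : IsOpenEmbedding ψ) (hp : ψ ⁻¹' A = {w | w 1 ≠ 0}) : IsPathConnected (A ∩ range ψ) := by
  rw [← image_preimage_eq_inter_range, hp]
  exact axis_pc.image h.continuous

variable {S : Type} [TopologicalSpace S] [Nonempty S]

theorem bd_range {ψ : (Fin 2 → ℂ) → S} (h : IsOpenEmbedding ψ) {n : ℕ} {c : C ℤ S}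
    (hc : c ∈ In ℤ (range ψ) n) (h0 : D c = 0) : c ∈ Bd ℤ (range ψ) n := by
  let φ := h.toOpenPartialHomeomorph ψ
  have ht : φ.target = range ψ := h.toOpenPartialHomeomorph_target ψ
  have hs : ContinuousOn φ.symm (range ψ) := ht ▸ φ.continuousOn_symm
  obtain ⟨k, H⟩ := contr_star (R := ℤ) (mem_univ (0 : Fin 2 → ℂ)) (starConvex_univ 0)
  obtain ⟨w, hw, e⟩ := H.bd (map_In hs (mapsTo_univ _ _) hc) (by rw [← map_D hs hc, h0, map_zero])
  refine ⟨map ψ w, map_In h.continuous.continuousOn (mapsTo_range ψ univ) hw, ?_⟩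
  rw [← map_D h.continuous.continuousOn hw, e, map_map hs hc]
  exact map_self (fun x hx => φ.right_inv (ht ▸ hx)) hc

theorem mv_one {U V : Set S} (hU : IsOpen U) (hV : IsOpen V) (hi : IsPathConnected (U ∩ V))
    (h1 : ∀ c ∈ In ℤ U 2, D c = 0 → c ∈ Bd ℤ U 2) (h2 : ∀ c ∈ In ℤ V 2, D c = 0 → c ∈ Bd ℤ V 2)
    {c : C ℤ S} (hc : c ∈ In ℤ (U ∪ V) 2) (h0 : D c = 0) : c ∈ Bd ℤ (U ∪ V) 2 := by
  obtain ⟨m, a, ha, hb⟩ := small_ex hU hV hc
  obtain ⟨w, hw, e⟩ := Shared.SingEZ.zero_Bd' hi (In_inter (D_In ha)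
    (by simpa [D_sd, h0] using D_In hb)) (D_D a)
  have b1 := h1 _ (sub_mem ha (In_mono inter_subset_left _ hw)) (by simp [e])
  have b2 := h2 _ (add_mem hb (In_mono inter_subset_right _ hw)) (by simp [e, D_sd, h0])
  convert add_mem (sub_sd_Bd hc h0 m) (add_mem
    (Submodule.map_mono (In_mono subset_union_left _) b1)
    (Submodule.map_mono (In_mono subset_union_right _) b2)) using 1
  abel

/-- A consistent choice of local generators over `O`. -/
def Sec (d : ℕ) (O : Set S) (s : S → C ℤ S) : Prop :=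
  ∀ x ∈ O, OriAux.Gen d x (s x) ∧ ∃ N ∈ 𝓝 x, s x ∈ Z ℤ univ Nᶜ d ∧
    ∀ y ∈ N, s x - s y ∈ B ℤ univ {y}ᶜ d

variable {ι : Type} [Fintype ι] [T2Space S] (hY : LocEuc ι S)
include hY

theorem sec_range {X : Type} [TopologicalSpace X] [SimplyConnectedSpace X]
    [LocallyPathConnectedSpace X] {ψ : X → S} (h : IsOpenEmbedding ψ) :
    ∃ s, Sec (Fintype.card ι) (range ψ) s := by
  choose O o1 o2 c hc hg using OriAux.exists_loc hY
  have hk : ∀ i y, ∃ u : ℤˣ, y ∈ O i → c i - (u : ℤ) • c y ∈ B ℤ univ {y}ᶜ (Fintype.card ι) := by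
    intro i y
    by_cases hy : y ∈ O i
    · exact ((hg y y (o2 y)).exists_unit (hg i y hy)).imp fun u hu _ => hu
    · exact ⟨1, fun h => absurd h hy⟩
  choose κ hκ using hk
  have key : ∀ i k, ∀ y ∈ O i, y ∈ O k →
      c k - ((κ k y * (κ i y)⁻¹ : ℤˣ) : ℤ) • c i ∈ B ℤ univ {y}ᶜ (Fintype.card ι) := by
    intro i k y hi hk
    convert sub_mem (hκ k y hk) (Submodule.smul_mem _ ((κ k y * (κ i y)⁻¹ : ℤˣ) : ℤ) (hκ i y hi))
      using 1
    rw [smul_sub, smul_smul, ← Units.val_mul, inv_mul_cancel_right]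
    abel
  obtain ⟨ε, hε⟩ := OriAux.exists_sec (fun i => ψ ⁻¹' O (ψ i))
    (fun i => (o1 _).preimage h.continuous) (fun i => o2 _) (fun i x => κ (ψ i) (ψ x))
    fun i k x hi hk => by
      refine h.continuous.continuousAt.eventually (p := fun y =>
        κ (ψ k) y * (κ (ψ i) y)⁻¹ = κ (ψ k) (ψ x) * (κ (ψ i) (ψ x))⁻¹) ?_
      filter_upwards [loc_const hY (sub_mem (hg _ _ hk).1 (Submodule.smul_mem _
        ((κ (ψ k) (ψ x) * (κ (ψ i) (ψ x))⁻¹ : ℤˣ) : ℤ) (hg _ _ hi).1)), (o1 _).mem_nhds hi,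
        (o1 _).mem_nhds hk] with y h1 h2 h3
      exact (hg _ y h2).unique (key _ _ y h2 h3) (h1.2 (key _ _ _ hi hk))
  have hl := Function.leftInverse_invFun h.injective
  refine ⟨fun y => (ε (Function.invFun ψ y) : ℤ) • c y, ?_⟩
  rintro _ ⟨x, rfl⟩
  refine ⟨(hg _ _ (o2 _)).unit (u := ε (Function.invFun ψ (ψ x)))
    (Submodule.smul_mem _ _ (hg _ _ (o2 _)).1) (by simp), _,
    Filter.inter_mem ((o1 _).mem_nhds (o2 _)) (h.isOpenMap.image_mem_nhds (hε x)),
    Submodule.smul_mem _ _ (Z_anti inter_subset_left (hc _)), ?_⟩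
  rintro _ ⟨hy1, y, hy2, rfl⟩
  have h1 := Submodule.smul_mem _ (ε x : ℤ) (key (ψ y) (ψ x) (ψ y) (o2 _) hy1)
  have h2 : ε x * (κ (ψ x) (ψ y) * (κ (ψ y) (ψ y))⁻¹) = ε y := by
    rw [← show _ = ε x from hy2, mul_right_comm _ (ε y), Int.units_mul_self, one_mul]
  rw [smul_sub, smul_smul, ← Units.val_mul, h2] at h1
  simpa only [hl x, hl y] using h1

theorem sec_union {U V : Set S} (hU : IsOpen U) (hV : IsOpen V) (hi : IsConnected (U ∩ V))
    {s s' : S → C ℤ S} (h : Sec (Fintype.card ι) U s) (h' : Sec (Fintype.card ι) V s') :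
    ∃ t, Sec (Fintype.card ι) (U ∪ V) t := by
  classical
  obtain ⟨x₀, hx₀⟩ := hi.nonempty
  obtain ⟨u, hu⟩ := (h x₀ hx₀.1).1.exists_unit (h' x₀ hx₀.2).1
  have key : ∀ y ∈ U ∩ V, s' y - (u : ℤ) • s y ∈ B ℤ univ {y}ᶜ (Fintype.card ι) := by
    intro y hy
    refine (hi.isPreconnected.induction₂ (fun x y =>
      (s' x - (u : ℤ) • s x ∈ B ℤ univ {x}ᶜ (Fintype.card ι) ↔
        s' y - (u : ℤ) • s y ∈ B ℤ univ {y}ᶜ (Fintype.card ι))) (fun x hx => ?_)
      (fun _ _ _ _ _ _ => Iff.trans) (fun _ _ _ _ => Iff.symm) hx₀ hy).1 hu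
    obtain ⟨g, N, hN, -, h1⟩ := h x hx.1
    obtain ⟨g', N', hN', -, h1'⟩ := h' x hx.2
    refine mem_nhdsWithin_of_mem_nhds ?_
    filter_upwards [loc_const hY (sub_mem g'.1 (Submodule.smul_mem _ (u : ℤ) g.1)), hN, hN']
      with z h2 h3 h4
    refine h2.symm.trans (congr_B ?_)
    convert sub_mem (h1' z h4) (Submodule.smul_mem _ (u : ℤ) (h1 z h3)) using 1
    rw [smul_sub]
    abel
  refine ⟨fun y => if y ∈ U then (u : ℤ) • s y else s' y, fun x hx => ?_⟩
  by_cases hxU : x ∈ U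
  · obtain ⟨g, N, hN, h0, h1⟩ := h x hxU
    simp only [if_pos hxU]
    refine ⟨g.unit (u := u) (Submodule.smul_mem _ _ g.1) (by simp), N ∩ U,
      Filter.inter_mem hN (hU.mem_nhds hxU), Submodule.smul_mem _ _ (Z_anti inter_subset_left h0),
      fun y hy => ?_⟩
    rw [if_pos hy.2, ← smul_sub]
    exact Submodule.smul_mem _ _ (h1 y hy.1)
  · have hxV : x ∈ V := hx.resolve_left hxU
    obtain ⟨g, N, hN, h0, h1⟩ := h' x hxV
    simp only [if_neg hxU]
    refine ⟨g, N ∩ V, Filter.inter_mem hN (hV.mem_nhds hxV), Z_anti inter_subset_left h0,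
      fun y hy => ?_⟩
    by_cases hyU : y ∈ U
    · rw [if_pos hyU]
      simpa using add_mem (h1 y hy.1) (key y ⟨hyU, hy.2⟩)
    · rw [if_neg hyU]
      exact h1 y hy.1

theorem cyc_of_sec {σ : S → C ℤ S} (hσ : Sec (Fintype.card ι) univ σ) {L : Set S}
    (hL : IsCompact L) :
    ∃ c ∈ Z ℤ univ Lᶜ (Fintype.card ι), ∀ y ∈ L, OriAux.Gen (Fintype.card ι) y c := by
  have : LocallyCompactSpace S := by
    let : ChartedSpace (ι → ℝ) S := ⟨univ, fun x => (hY x).choose, fun x => (hY x).choose_spec,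
      fun _ => trivial⟩
    exact ChartedSpace.locallyCompactSpace (ι → ℝ) S
  have := hL.induction_on (p := fun s : Set S => ∃ K, IsCompact K ∧ s ⊆ K ∧
    ∃ c ∈ Z ℤ univ Kᶜ (Fintype.card ι), ∀ y ∈ K, c - σ y ∈ B ℤ univ {y}ᶜ (Fintype.card ι))
    ⟨∅, isCompact_empty, le_rfl, 0, zero_mem _, by simp⟩
    (fun s t h ⟨K, h1, h2, h3⟩ => ⟨K, h1, h.trans h2, h3⟩) ?_ fun x _ => ?_
  · obtain ⟨K, -, h2, c, hc, h3⟩ := this
    exact ⟨c, Z_anti h2 hc, fun y hy => (hσ y trivial).1.unit (u := 1)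
      (Z_anti (singleton_subset_iff.2 (h2 hy)) hc) (by simpa using h3 y (h2 hy))⟩
  · rintro s t ⟨K, h1, h2, c, hc, h3⟩ ⟨K', h1', h2', c', hc', h3'⟩
    obtain ⟨e, he, e1, e2⟩ := mv_glue h1.isClosed h1'.isClosed hc hc'
      ((good_mfd hY (h1.inter h1')).2 _ (sub_mem (Z_anti inter_subset_left hc)
        (Z_anti inter_subset_right hc')) fun x hx => by
          simpa using sub_mem (h3 x hx.1) (h3' x hx.2))
    exact ⟨K ∪ K', h1.union h1', union_subset_union h2 h2', e, he, fun y hy => hy.elim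
      (fun hy => by simpa using sub_mem (h3 y hy) (B_anti (singleton_subset_iff.2 hy) e1))
      fun hy => by simpa using add_mem (B_anti (singleton_subset_iff.2 hy) e2) (h3' y hy)⟩
  · obtain ⟨O, h1, h2, h3⟩ := (hσ x trivial).2
    obtain ⟨K, k1, k2, k3⟩ := local_compact_nhds h1
    exact ⟨K, mem_nhdsWithin_of_mem_nhds k1, K, k3, le_rfl, σ x, Z_anti k2 h2,
      fun y hy => h3 y (k2 hy)⟩

end H55

variable {S : Type} [TopologicalSpace S] [Nonempty S] {A : Set S}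

omit [Nonempty S] in
theorem Built.h55_chart (h : Built A) :
    ∀ x ∈ A, ∃ ψ : (Fin 2 → ℂ) → S, IsOpenEmbedding ψ ∧ x ∈ range ψ := by
  induction h with
  | base ψ h => exact fun x hx => ⟨ψ, h, hx⟩
  | step A ψ _ h _ ih => exact fun x hx => hx.elim (ih x) fun hx => ⟨ψ, h, hx⟩

theorem Built.isOpen (h : Built A) : IsOpen A := by
  induction h with
  | base ψ h => exact h.isOpen_range
  | step A ψ _ h _ ih => exact ih.union h.isOpen_range

theorem Built.pathConn (h : Built A) : IsPathConnected A := by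
  induction h with
  | base ψ h => exact isPathConnected_range h.continuous
  | step A ψ _ h hp ih =>
    exact ih.union (isPathConnected_range h.continuous) (H55.inter_pc h hp).nonempty

theorem Built.locEuc (h : Built (univ : Set S)) : LocEuc (Fin 4) S := fun x => by
  obtain ⟨ψ, hψ, hx⟩ := h.h55_chart x trivial
  have e : (Fin 2 → ℂ) ≃L[ℝ] (Fin 4 → ℝ) :=
    ContinuousLinearEquiv.ofFinrankEq (by simp [Module.finrank_pi_fintype])
  exact ⟨(hψ.toOpenPartialHomeomorph ψ).symm.transHomeomorph e.toHomeomorph, by simpa using hx⟩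

/-- The first homology vanishes. -/
theorem Built.h1 (h : Built A) : Z ℤ A ∅ 1 ≤ B ℤ A ∅ 1 := by
  have key : ∀ c ∈ In ℤ A 2, D c = 0 → c ∈ Bd ℤ A 2 := by
    induction h with
    | base ψ h => exact fun c hc h0 => H55.bd_range h hc h0
    | step A ψ hA h hp ih =>
      exact fun c hc h0 => H55.mv_one hA.isOpen h.isOpen_range (H55.inter_pc h hp) ih
        (fun c hc h0 => H55.bd_range h hc h0) hc h0
  exact fun c hc => Submodule.mem_sup_left (key c hc.1 (In_empty (Z_D hc)))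

theorem Built.h55_sec [T2Space S] (hY : LocEuc (Fin 4) S) (h : Built A) :
    ∃ s, H55.Sec (Fintype.card (Fin 4)) A s := by
  induction h with
  | base ψ h => exact H55.sec_range hY h
  | step A ψ hA h hp ih =>
    obtain ⟨s, hs⟩ := ih
    obtain ⟨s', hs'⟩ := H55.sec_range hY h
    exact H55.sec_union hY hA.isOpen h.isOpen_range (H55.inter_pc h hp).isConnected hs hs'

/-- Orientability. -/
theorem Built.ori [T2Space S] (h : Built (univ : Set S)) {K : Set S} (hK : IsCompact K) :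
    ∃ c ∈ Z ℤ univ Kᶜ 4, ∀ y ∈ K, OriAux.Gen 4 y c := by
  obtain ⟨s, hs⟩ := h.h55_sec h.locEuc
  simpa only [Fintype.card_fin] using H55.cyc_of_sec h.locEuc hs hK

end Pool.Agent.Lib.MP_d31521_gt
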