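import Pool.Agent.Lib.MP_d31521_gt.Surf
import Pool.Agent.Lib.MP_bf05b2_gt.H57Loc

/-! The divisor classes generate the relative cohomology. -/

set_option linter.unusedSectionVars false

namespace Pool.Agent.Lib.MP_d31521_gt

open Set Topology Pool.Agent.Lib.MP_bf05b2_gt Pool.Agent.Shared.Sing Pool.Agent.Shared.SingEZ

lemma mem_fam {Y κ : Type} {l : List κ} {F : κ → Set Y} {U : Set Y} :
    U ∈ (⋃ k ∈ l, ({F k} : Set (Set Y))) ↔ ∃ k ∈ l, U = F k := by
  simp

namespace Data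

variable {D : Data} (R : Type) [CommRing R]

variable (D) in
/-- The class of a divisor. -/
noncomputable def τ (s : D.J) : Cc R D.S := pb Subtype.val (D.fan.tR R s)

lemma τ_cy (s : D.J) : Cy {univ} {D.N s} 2 (D.τ R s) :=
  (sm.cy R s).pull (PM.of_cont continuous_subtype_val Mp.univ (Mp.single fun _ h => h))

lemma τ_eq (s : D.J) : D.τ R s = bc (Int.castRingHom R) (D.τ ℤ s) := by
  rw [τ, τ, Fan.tR_int, Fan.tR, bc_pb]

lemma τ_lin (χ : Fin 3 → ℤ) :
    Bo {univ} ∅ 2 (∑ s, ((∑ l, χ l * D.ray s l : ℤ) : R) • D.τ R s) := by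
  have := (sm.lin R χ).pull (PM.abs (Y := D.S) (f := Subtype.val) (T := {univ})
    continuous_subtype_val)
  rw [pb_sum] at this
  exact this

lemma isTau_ψ (a : D.Ix) (k : Fin 2) : IsTau id (fun _ _ => 1) (fun w : Fin 2 → ℂ => w k)
    (pb (D.ψ a) (D.τ ℤ (D.e a.1 a.2 k.castSucc))) := by
  have hc := isChart (ix_le a)
  rw [τ, Fan.tR_int, pb_pb (continuous_ψ a)]
  exact sm.isTau_aff (s := fun w => Fan.sec (D.e a.1 a.2) (D.ext a.1 a.2 w))
    ((Fan.continuous_sec _).comp (continuous_ext _ _)) (fun w => hc.sec_mem _)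
    fun w => (hc.sec_e _ _).trans (ext_castSucc w k)

lemma ψ_mem_Nk (a : D.Ix) (w : Fin 2 → ℂ) (k : Fin 2) :
    D.ψ a w ∈ D.N (D.e a.1 a.2 k.castSucc) ↔ w k ≠ 0 :=
  ((isChart (ix_le a)).ψ_mem_nz (D.ext a.1 a.2 w) k.castSucc).trans (by rw [ext_castSucc])

/-- Cohomology relative to the complement of a closed coordinate subspace of a chart. -/
theorem gb_chart (a : D.Ix) {l : List (Fin 2)} (hl : l.Nodup) {O : Set D.S} (hO : IsOpen O)
    (h1 : ∀ w, (∀ k ∈ l, w k = 0) → D.ψ a w ∈ O)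
    (h2 : ∀ x ∈ O, (∀ k ∈ l, x ∉ D.N (D.e a.1 a.2 k.castSucc)) → x ∈ range (D.ψ a)) :
    GB {O} (⋃ k ∈ l, {O ∩ D.N (D.e a.1 a.2 k.castSucc)})
      (fun _ : Unit => pr (l.map fun k => D.τ R (D.e a.1 a.2 k.castSucc)))
      fun _ => 2 * l.length := by
  set n : Fin 2 → Set D.S := fun k => D.N (D.e a.1 a.2 k.castSucc) with hn
  set β := pr (l.map fun k => D.τ R (D.e a.1 a.2 k.castSucc)) with hβ
  have hV := isOpen_range a
  have hno : ∀ k, IsOpen (n k) := fun k => isOpen_N _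
  have cy : ∀ {T S : Set (Set D.S)}, (∀ U ∈ S, ∃ k ∈ l, U ⊆ n k) → Cy T S (2 * l.length) β :=
    fun hS => (cy_pr (T := {univ}) (W := fun k => {n k}) fun k _ => τ_cy R _).mono Ref.univ
      fun U hU _ => let ⟨k, hk, h⟩ := hS U hU; ⟨_, mem_fam.2 ⟨k, hk, rfl⟩, h⟩
  have g1 := gb_loc R (isTau_ψ a) hl
  have e1 : pr (l.map fun k => bc (Int.castRingHom R)
      (pb (D.ψ a) (D.τ ℤ (D.e a.1 a.2 k.castSucc)))) = pb (D.ψ a) β := by
    rw [hβ, pb_pr (continuous_ψ a), List.map_map]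
    congr 2
    funext k
    rw [Function.comp_apply, τ_eq R, bc_pb]
  rw [e1] at g1
  have g2 : GB {range (D.ψ a)} (⋃ k ∈ l, {range (D.ψ a) ∩ n k}) (fun _ : Unit => β)
      fun _ => 2 * l.length := by
    refine GB.of_pull (g := D.φ a) g1 (PM.of_cont (continuous_ψ a)
      (Mp.single fun w _ => ⟨w, rfl⟩) fun U hU _ => ?_)
      ⟨?_, fun U hU => ?_, Mp.univ, fun U hU _ => ?_⟩ (fun U hU _ => ?_) ?_
    · obtain ⟨k, hk, rfl⟩ := mem_fam.1 hU
      exact ⟨_, mem_fam.2 ⟨k, hk, rfl⟩, fun w hw => ⟨⟨w, rfl⟩, (ψ_mem_Nk a w k).2 hw⟩⟩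
    · rintro U rfl
      exact continuousOn_φ a
    · obtain ⟨k, -, rfl⟩ := mem_fam.1 hU
      exact (continuousOn_φ a).mono inter_subset_left
    · obtain ⟨k, hk, rfl⟩ := mem_fam.1 hU
      refine ⟨_, mem_fam.2 ⟨k, hk, rfl⟩, ?_⟩
      rintro _ ⟨⟨w, rfl⟩, hw⟩
      rw [mem_ofPred_eq, φ_ψ]
      exact (ψ_mem_Nk a w k).1 hw
    · obtain ⟨k, -, rfl⟩ := mem_fam.1 hU
      exact ⟨_, rfl, inter_subset_left⟩
    · rintro U rfl _ ⟨w, rfl⟩
      rw [φ_ψ]
  have key : ∀ W : Set D.S, IsOpen W → O ∩ range (D.ψ a) ⊆ W →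
      (∀ x ∈ W, (∀ k ∈ l, x ∉ n k) → x ∈ O ∩ range (D.ψ a)) →
      (GB {W} (⋃ k ∈ l, {W ∩ n k}) (fun _ : Unit => β) (fun _ => 2 * l.length) ↔
        GB {O ∩ range (D.ψ a)} (⋃ k ∈ l, {O ∩ range (D.ψ a) ∩ n k}) (fun _ : Unit => β)
          fun _ => 2 * l.length) := by
    intro W hW a1 a2
    have c1 : ∀ U ∈ (⋃ k ∈ l, ({W ∩ n k} : Set (Set D.S))), ∃ k ∈ l, U ⊆ n k := fun U hU => by
      obtain ⟨k, hk, rfl⟩ := mem_fam.1 hU
      exact ⟨k, hk, inter_subset_right⟩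
    have r1 : Ref ({O ∩ range (D.ψ a)} ∪ ⋃ k ∈ l, {W ∩ n k}) {W} :=
      (Ref.single a1).union fun U hU _ => by
        obtain ⟨k, -, rfl⟩ := mem_fam.1 hU
        exact ⟨_, rfl, inter_subset_left⟩
    have e2 : Mt {O ∩ range (D.ψ a)} (⋃ k ∈ l, {W ∩ n k}) =
        ⋃ k ∈ l, {O ∩ range (D.ψ a) ∩ n k} := by
      ext U
      rw [mem_fam]
      constructor
      · rintro ⟨_, rfl, _, hU, rfl⟩
        obtain ⟨k, hk, rfl⟩ := mem_fam.1 hU
        exact ⟨k, hk, by beta_reduce; rw [← inter_assoc, inter_eq_left.2 a1]⟩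
      · rintro ⟨k, hk, rfl⟩
        exact ⟨_, rfl, _, mem_fam.2 ⟨k, hk, rfl⟩,
          by beta_reduce; rw [← inter_assoc, inter_eq_left.2 a1]⟩
    rw [gb_T (triv_small ?_ ?_ r1 ?_) (Ref.of_subset subset_union_right) r1 fun _ => cy c1,
      gb_exc fun _ => cy c1, e2]
    · rintro U rfl
      exact hW
    · rintro U (rfl | hU)
      · exact hO.inter hV
      · obtain ⟨k, -, rfl⟩ := mem_fam.1 hU
        exact hW.inter (hno k)
    · rw [sUnion_singleton]
      intro x hx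
      by_cases h : ∀ k ∈ l, x ∉ n k
      · exact ⟨_, Or.inl rfl, a2 x hx h⟩
      · push Not at h
        obtain ⟨k, hk, h⟩ := h
        exact ⟨_, Or.inr (mem_fam.2 ⟨k, hk, rfl⟩), hx, h⟩
  refine (key O hO inter_subset_left fun x hx h => ⟨hx, h2 x hx h⟩).2
    ((key _ hV inter_subset_right ?_).1 g2)
  rintro _ ⟨w, rfl⟩ h
  exact ⟨h1 w fun k hk => not_not.1 fun h' => h k hk ((ψ_mem_Nk a w k).2 h'), w, rfl⟩

variable (D) in
/-- The classes of the compact curves generate the cohomology relative to `O`. -/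
def Sp (O : Set D.S) : Prop := ∀ φ : Cc R D.S, Cy {univ} {O} 2 φ →
  ∃ r : D.Cv → R, Bo {univ} {O} 2 (φ - ∑ s, r s • D.τ R (D.cv s))

lemma sp_step (a : D.Ix) {O : Set D.S} (hO : IsOpen O) (h : D.Sp R O)
    (h1 : ∀ w, w 0 = 0 → D.ψ a w ∈ O)
    (h2 : ∀ x ∈ O, x ∉ D.N (D.vtx a.1 a.2) → x ∈ range (D.ψ a)) :
    D.Sp R (O ∩ D.N (D.vtx a.1 a.2)) := by
  classical
  intro φ hφ
  have g := gb_chart R a (l := [0]) (by simp) hO (fun w hw => h1 w (hw 0 (by simp)))
    fun x hx hw => h2 x hx (hw 0 (by simp))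
  have e : (⋃ k ∈ [(0 : Fin 2)], ({O ∩ D.N (D.e a.1 a.2 k.castSucc)} : Set (Set D.S))) =
      {O ∩ D.N (D.vtx a.1 a.2)} := by
    simp [e_zero]
  rw [e] at g
  obtain ⟨s, hs⟩ := exists_cv (ix_le a)
  obtain ⟨c, hc⟩ := g.span_one () (fun _ _ => rfl) (hφ.mono Ref.univ Ref.refl)
  have hc' : Bo {O} {O ∩ D.N (D.vtx a.1 a.2)} 2 (φ - c • D.τ R (D.cv s)) :=
    hc.congr (Eqv.refl.sub (Eqv.smul c (hs ▸ cup_e1 _)))
  obtain ⟨φ', p1, p2⟩ := ex_lift (T := {univ}) (hφ.sub (((τ_cy R (D.cv s)).mono Ref.refl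
    (Ref.single (hs ▸ inter_subset_right))).smul c)) hc'
  obtain ⟨r, hr⟩ := h φ' p1
  refine ⟨r + Pi.single s c, ?_⟩
  have := p2.add (hr.mono Ref.refl (Ref.single inter_subset_left))
  convert this using 1
  simp only [Pi.add_apply, add_smul, Finset.sum_add_distrib, Pi.single_apply, ite_smul, zero_smul,
    Finset.sum_ite_eq', Finset.mem_univ, if_true]
  abel

/-- Two adjacent divisors meet in one point. -/
lemma mem_range_of (a : D.Ix) {x : D.S} (h0 : x ∉ D.N (D.vtx a.1 a.2))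
    (h1 : x ∉ D.N (D.vtx a.1 (a.2 + 1))) : x ∈ range (D.ψ a) := by
  have := ix_le a
  obtain ⟨i, j, hj, he⟩ := exists_edge x
  refine (mem_range_iff a x).2 fun s a0 a1 _ => ?_
  have hne : D.vtx a.1 a.2 ≠ D.vtx a.1 (a.2 + 1) :=
    vtx_ne (by omega) (by omega) (.inl (by omega))
  have c0 : D.vtx a.1 a.2 = D.vtx i j ∨ D.vtx a.1 a.2 = D.vtx i (j + 1) := by
    by_contra h
    push Not at h
    exact h0 (he _ h.1 h.2)
  have c1 : D.vtx a.1 (a.2 + 1) = D.vtx i j ∨ D.vtx a.1 (a.2 + 1) = D.vtx i (j + 1) := by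
    by_contra h
    push Not at h
    exact h1 (he _ h.1 h.2)
  rcases c0 with c0 | c0 <;> rcases c1 with c1 | c1
  · exact absurd (c0.trans c1.symm) hne
  · exact he s (c0 ▸ a0) (c1 ▸ a1)
  · exact he s (c1 ▸ a1) (c0 ▸ a0)
  · exact absurd (c0.trans c1.symm) hne

theorem gb_pt (a : D.Ix) : GB {univ} {D.N (D.vtx a.1 a.2), D.N (D.vtx a.1 (a.2 + 1))}
    (fun _ : Unit => pr [D.τ R (D.vtx a.1 a.2), D.τ R (D.vtx a.1 (a.2 + 1))]) fun _ => 4 := by
  have g := gb_chart R a (l := [0, 1]) (by simp) isOpen_univ (fun _ _ => trivial)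
    fun x _ hw => mem_range_of a (hw 0 (by simp)) (hw 1 (by simp))
  have e : (⋃ k ∈ [(0 : Fin 2), 1], ({univ ∩ D.N (D.e a.1 a.2 k.castSucc)} : Set (Set D.S))) =
      {D.N (D.vtx a.1 a.2), D.N (D.vtx a.1 (a.2 + 1))} := by
    ext U
    simp [e_zero, e_one, or_comm]
  rwa [e] at g

lemma sp_base : D.Sp R (D.N none ∪ D.N (D.vtx 2 1)) := by
  intro φ hφ
  have r : Ref {D.N none, D.N (D.vtx 2 1)} {D.N none ∪ D.N (D.vtx 2 1)} :=
    Ref.sUnion (by simp)
  refine ⟨0, ?_⟩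
  simp only [Pi.zero_apply, zero_smul, Finset.sum_const_zero, sub_zero]
  refine ss_bo (triv_small ?_ ?_ r (by simp)) r Ref.univ hφ
    ((gb_pt R ⟨2, 0⟩).triv (by simp) φ (hφ.mono Ref.refl r))
  · rintro U rfl
    exact (isOpen_N _).union (isOpen_N _)
  · rintro U (rfl | rfl) <;> exact isOpen_N _

variable (D) in
/-- The complement of the divisors `vtx i j` with `j ≤ n i`. -/
def Dn (n : Fin 3 → ℕ) : Set D.S := {x | ∀ i j, j ≤ n i → x ∈ D.N (D.vtx i j)}

lemma isOpen_Dn (n : Fin 3 → ℕ) : IsOpen (D.Dn n) := by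
  have : D.Dn n = ⋂ i, ⋂ j ∈ Iic (n i), D.N (D.vtx i j) := by
    ext x
    simp [Dn]
  rw [this]
  exact isOpen_iInter_of_finite fun i => (finite_Iic _).isOpen_biInter fun j _ => isOpen_N _

lemma sp_zero : D.Sp R (D.Dn 0) := by
  have h := sp_step R ⟨0, 0⟩ ((isOpen_N _).union (isOpen_N _)) (sp_base R (D := D))
    (fun w _ => Or.inr (ψ_mem_N _ w (vtx_ne (by simp) (by simp) (by simp))
      (vtx_ne (by simp) (by simp) (by simp)) (vtx_ne (by simp) (by simp) (by simp))))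
    fun x hx h0 => ?_
  · convert h using 1
    ext x
    exact ⟨fun hx => ⟨Or.inl (hx 0 0 le_rfl), hx 0 0 le_rfl⟩, fun hx i j hj => by
      obtain rfl : j = 0 := by simpa using hj
      exact hx.2⟩
  · obtain ⟨i, j, hj, he⟩ := exists_edge x
    have h3 : x ∈ D.N (D.vtx 2 1) := hx.resolve_left h0
    have hj0 : j = 0 := by
      by_contra h
      exact h0 (he _ (vtx_ne (by simp) (by omega) (.inl (by simpa using Ne.symm h)))
        (vtx_ne (by simp) (by omega) (.inl (by simp))))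
    subst hj0
    refine (mem_range_iff _ x).2 fun s a0 a1 a2 => ?_
    by_cases c : s = D.vtx i 1
    · subst c
      fin_cases i
      · exact absurd rfl a1
      · exact absurd rfl a2
      · exact h3
    · exact he s a0 c

lemma sp_succ {n : Fin 3 → ℕ} (hn : ∀ l, n l ≤ D.k l) {i : Fin 3} (hi : n i < D.k i)
    (h : D.Sp R (D.Dn n)) : D.Sp R (D.Dn (Function.update n i (n i + 1))) := by
  have h := sp_step R ⟨i, ⟨n i + 1, by omega⟩⟩ (isOpen_Dn n) h (fun w hw i' j hj => ?_)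
    fun x hx h0 => ?_
  · convert h using 1
    ext x
    constructor
    · intro hx
      refine ⟨fun i' j hj => hx i' j (hj.trans ?_), hx i _ (by simp)⟩
      by_cases e : i' = i
      · subst e; simp
      · rw [Function.update_of_ne e]
    · intro hx i' j hj
      by_cases e : i' = i
      · subst e
        rw [Function.update_self] at hj
        rcases hj.lt_or_eq with e | rfl
        · exact hx.1 i' j (by omega)
        · exact hx.2
      · rw [Function.update_of_ne e] at hj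
        exact hx.1 i' j hj
  · have := hn i'
    by_cases c : D.vtx i' j = D.vtx (i + 1) 1
    · rw [c]
      refine ((isChart (D := D) (i := i) (j := n i + 1) hi).ψ_mem_nz (D.ext i _ w) 2).2 ?_
      simp [ext, hw, (m_pos hi.le).ne']
    · refine ψ_mem_N _ w (vtx_ne (by omega) (by simp; omega) ?_)
        (vtx_ne (by omega) (by simp; omega) ?_) c
      all_goals
        by_cases e : i' = i
        · subst e; exact .inl (by simp; omega)
        · rcases Nat.eq_zero_or_pos j with rfl | e'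
          · exact .inl (by simp)
          · exact .inr ⟨by omega, e⟩
  · obtain ⟨i', j', hj', he⟩ := exists_edge x
    refine (mem_range_iff _ x).2 fun s a0 a1 _ => ?_
    by_cases e1 : D.vtx i (n i + 1) = D.vtx i' j'
    · obtain ⟨rfl, e2⟩ := (vtx_eq_iff (by omega) (by omega)).1 e1
      obtain rfl : i = i' := e2.resolve_left (by omega)
      exact he s a0 a1
    · by_cases e2 : D.vtx i (n i + 1) = D.vtx i' (j' + 1)
      · obtain ⟨e3, e4⟩ := (vtx_eq_iff (by omega) (by omega)).1 e2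
        obtain rfl : i = i' := e4.resolve_left (by omega)
        obtain rfl : n i = j' := by omega
        by_cases c : s = D.vtx i (n i)
        · exact c ▸ hx i _ le_rfl
        · exact he s c a0
      · exact absurd (he _ e1 e2) h0

lemma sp_arm {n : Fin 3 → ℕ} (hn : ∀ l, n l ≤ D.k l) (h : D.Sp R (D.Dn n)) (i : Fin 3) (t : ℕ)
    (ht : n i + t ≤ D.k i) : D.Sp R (D.Dn (Function.update n i (n i + t))) := by
  induction t with
  | zero => simpa using h
  | succ t ih =>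
    have := sp_succ R (i := i) (fun l => ?_) (by simp; omega) (ih (by omega))
    · simpa [add_assoc] using this
    · by_cases e : l = i
      · subst e; simp; omega
      · rw [Function.update_of_ne e]; exact hn l

theorem sp_all : D.Sp R {x | 0 < D.ρ x} := by
  have h2 := sp_arm R (fun l => Nat.zero_le _) (sp_zero R (D := D)) 0 (D.k 0) (by simp)
  have h3 := sp_arm R (fun l => by fin_cases l <;> simp) h2 1 (D.k 1) (by simp)
  have h4 := sp_arm R (fun l => by fin_cases l <;> simp) h3 2 (D.k 2) (by simp)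
  convert h4 using 1
  ext x
  rw [mem_ofPred_eq, ρ_pos_iff]
  constructor
  · intro h i j hj
    obtain ⟨s, hs⟩ := exists_cv (D := D) (i := i) (j := j) (by fin_cases i <;> simpa using hj)
    exact hs ▸ h s
  · intro h s
    obtain ⟨i, j, hj, e⟩ := cv_eq s
    exact e ▸ h i j (by fin_cases i <;> simpa using hj)

end Data

end Pool.Agent.Lib.MP_d31521_gt
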