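import Pool.Agent.Lib.MP_d31521_gt.Defs

/-! Numerical data of the resolution of a Brieskorn singularity. -/

namespace Pool.Agent.Lib.MP_d31521_gt

/-- Arm `i` has `k i` compact curves with self-intersections `-a i j`; the central curve has
self-intersection `-b`; `V i j` is the weight vector of the `j`-th divisor of arm `i`
(`j = 0`: the central curve, `j = k i + 1`: the coordinate curve). -/
structure Data where
  k : Fin 3 → ℕ
  al : Fin 3 → ℕ
  b : ℤ
  a : Fin 3 → ℕ → ℤ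
  V : Fin 3 → ℕ → Fin 3 → ℤ
  m : Fin 3 → ℕ → ℕ
  A : Fin 3 → ℕ → ℕ
  k_pos : ∀ i, 1 ≤ k i
  al_pos : ∀ i, 0 < al i
  V0 : ∀ i, V i 0 = V 0 0
  Vend : ∀ i, V i (k i + 1) = Pi.single i 1
  Vrec : ∀ i j, j < k i → V i (j + 2) + V i j = a i j • V i (j + 1)
  Vsum : V 0 1 + V 1 1 + V 2 1 = b • V 0 0
  wt : ∀ i j l, j ≤ k i + 1 → (al l : ℤ) * V i j l = A i j + if l = i then (m i j : ℤ) else 0
  m0 : ∀ i, m i 0 = 0
  m1 : ∀ i, m i 1 = 1
  m_lt : ∀ i j, j ≤ k i → m i j < m i (j + 1)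
  A_lt : ∀ i j, j ≤ k i → A i (j + 1) < A i j
  dual : ∀ i j, j ≤ k i → ∃ M : Fin 3 → Fin 3 → ℤ, ∀ s t : Fin 3,
    ∑ l, M s l * (![V i j, V i (j + 1), V (i + 1) 1] t) l = if s = t then 1 else 0

namespace Data

variable (D : Data)

/-- The compact curves. -/
abbrev Cv : Type := Option (Σ i : Fin 3, Fin (D.k i))

/-- The intersection matrix of the compact curves. -/
def star : Matrix D.Cv D.Cv ℤ
  | none, none => -D.b
  | none, some ⟨_, j⟩ => if (j : ℕ) = 0 then 1 else 0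
  | some ⟨_, j⟩, none => if (j : ℕ) = 0 then 1 else 0
  | some ⟨i, j⟩, some ⟨i', j'⟩ =>
      if i = i' then
        (if (j : ℕ) = j' then -D.a i j
          else if (j : ℕ) + 1 = j' ∨ (j' : ℕ) + 1 = j then 1 else 0)
      else 0

end Data

end Pool.Agent.Lib.MP_d31521_gt
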