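import Pool.Agent.Shared.Sing.Defs

/-! Brieskorn spheres and their `E₈`-boundings. -/

namespace Pool.Agent.Lib.MP_d31521_gt

open Pool.Agent.Sing
open scoped Manifold ContDiff

/-- The Brieskorn sphere `Σ(p,q,r)`: the link of `x^p + y^q + z^r = 0` in `ℂ³`. -/
def link (p q r : ℕ) : Set (Fin 3 → ℂ) :=
  {x | x 0 ^ p + x 1 ^ q + x 2 ^ r = 0 ∧ ‖x 0‖ ^ 2 + ‖x 1‖ ^ 2 + ‖x 2‖ ^ 2 = 1}

section chains

variable {R : Type} [CommRing R] {X : Type} [TopologicalSpace X]

/-- `a` is a two-cocycle of `X` relative to `A`. -/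
def RelCoc (A : Set X) (a : Co R X 2) : Prop :=
  (∀ c, a (bd R X 2 c) = 0) ∧ ∀ c ∈ chIn R X A 2, a c = 0

/-- `a` is a two-coboundary of `X` relative to `A`. -/
def RelCob (A : Set X) (a : Co R X 2) : Prop :=
  ∃ θ : Co R X 1, (∀ c ∈ chIn R X A 1, θ c = 0) ∧ ∀ c, a c = θ (bd R X 1 c)

/-- The value of the cup product of `a` and `b` on the four-chain `μ`. -/
noncomputable def pairing (μ : Ch R X 4) (a b : Co R X 2) : R :=
  cup (show 2 + 2 = 4 from rfl) a b μ

/-- `c` is a four-cycle relative to `A`. -/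
def RelCyc (A : Set X) (c : Ch R X 4) : Prop := bd R X 3 c ∈ chIn R X A 3

/-- `c` and `c'` are homologous relative to `A`. -/
def RelHom (A : Set X) (c c' : Ch R X 4) : Prop := c - c' ∈ bdry R X 4 ⊔ chIn R X A 4

/-- `μ` is a fundamental cycle of `X` relative to `A`: a cycle relative to `A` whose class
generates `H₄(X, X ∖ x)` for every point `x` outside `A`. -/
def RelFund (A : Set X) (μ : Ch ℤ X 4) : Prop :=
  RelCyc A μ ∧ ∀ x ∉ A, ∀ c : Ch ℤ X 4, RelCyc {x}ᶜ c → ∃ r : ℤ, RelHom {x}ᶜ c (r • μ)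

/-- The classes of the `a i` form a basis of `H²(X, A; ℤ)` in which the intersection form given
by `μ` has the matrix `Q`. -/
def HasForm (A : Set X) (μ : Ch ℤ X 4) {ι : Type} [Fintype ι] (Q : Matrix ι ι ℤ) : Prop :=
  ∃ a : ι → Co ℤ X 2, (∀ i, RelCoc A (a i)) ∧
    (∀ φ, RelCoc A φ → ∃ r : ι → ℤ, RelCob A (φ - ∑ i, r i • a i)) ∧
    (∀ r : ι → ℤ, RelCob A (∑ i, r i • a i) → r = 0) ∧ ∀ i j, pairing μ (a i) (a j) = Q i j

/-- The second Wu class vanishes: cup squares in `H²(X, A; ℤ/2)` vanish on `μ`. -/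
def WuZero (A : Set X) (μ : Ch ℤ X 4) : Prop :=
  ∀ a : Co (ZMod 2) X 2, RelCoc A a → pairing (μ.mapRange Int.cast Int.cast_zero) a a = 0

end chains

/-- The Gram matrix of the orthogonal sum of `m` copies of `E₈`. -/
def sumE8 (m : ℕ) : Matrix (Fin 8 × Fin m) (Fin 8 × Fin m) ℤ :=
  Matrix.blockDiagonal fun _ : Fin m => CartanMatrix.E₈

/-- The differential of `f` at `x` is injective. -/
def IsImmAt {E H F X : Type} [NormedAddCommGroup E] [NormedSpace ℝ E] [TopologicalSpace H]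
    (I : ModelWithCorners ℝ E H) [NormedAddCommGroup F] [NormedSpace ℝ F] [TopologicalSpace X]
    [ChartedSpace H X] (f : X → F) (x : X) : Prop :=
  Function.Injective (mfderiv I 𝓘(ℝ, F) f x)

section mfd

variable (X : Type) [TopologicalSpace X] [ChartedSpace (EuclideanHalfSpace 4) X]

/-- The charts make `X` a smooth four-manifold with boundary. -/
def IsSmooth4 : Prop := IsManifold (𝓡∂ 4) ∞ X

/-- The boundary of `X`. -/
def bdy : Set X := (𝓡∂ 4).boundary X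

variable {X}

/-- The map `f` is smooth. -/
def IsSmoothMap (f : X → Fin 3 → ℂ) : Prop := ContMDiff (𝓡∂ 4) 𝓘(ℝ, Fin 3 → ℂ) ∞ f

end mfd

/-- `Σ(p,q,r)` has an `E₈`-bounding with `m` copies: a compact connected smooth four-manifold
with boundary `X`, a smooth map `f` that embeds the boundary onto the link, `H₁(X; ℤ) = 0`, and
an orientation for which the Wu class vanishes and the form is `m E₈` or `m (-E₈)`. -/
def HasE8Bounding (p q r m : ℕ) : Prop :=
  ∃ (X : Type) (_ : TopologicalSpace X) (_ : ChartedSpace (EuclideanHalfSpace 4) X)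
    (f : X → Fin 3 → ℂ) (μ : Ch ℤ X 4),
    T2Space X ∧ CompactSpace X ∧ ConnectedSpace X ∧ IsSmooth4 X ∧ IsSmoothMap f ∧
    Set.BijOn f (bdy X) (link p q r) ∧ (∀ x ∈ bdy X, IsImmAt (𝓡∂ 4) f x) ∧
    cyc ℤ X 1 ≤ bdry ℤ X 1 ∧ RelFund (bdy X) μ ∧ WuZero (bdy X) μ ∧
    (HasForm (bdy X) μ (-sumE8 m) ∨ HasForm (bdy X) μ (sumE8 m))

end Pool.Agent.Lib.MP_d31521_gt
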