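import Pool.Agent.Lib.MP_d31521_gt.Surf

/-! The action of the positive reals, the retraction, and the boundary. -/

namespace Pool.Agent.Lib.MP_d31521_gt

open Set Topology Pool.Agent.Lib.MP_bf05b2_gt

/-- The hitting time of the level one depends continuously on the starting point. -/
lemma exists_time {X : Type*} [TopologicalSpace X] (g : X → ℝ → ℝ)
    (hc : ∀ a, Continuous fun x => g x a) (hc' : ∀ x, Continuous (g x))
    (hm : ∀ x, Monotone (g x)) (hs : ∀ x a b, a < b → 0 < g x b → g x a < g x b)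
    (hl : ∀ x, ∃ u ≤ 0, g x u ≤ 1) :
    ∃ τ : X → ℝ, Continuous τ ∧ (∀ x, g x 0 ≤ 1 → τ x = 0) ∧ ∀ x, 1 ≤ g x 0 → g x (τ x) = 1 := by
  have h1 : ∀ x, ∃ t ≤ 0, g x t ≤ 1 ∧ (t = 0 ∨ g x t = 1) ∧ (g x 0 ≤ 1 → t = 0) := fun x => by
    rcases le_or_gt (g x 0) 1 with h | h
    · exact ⟨0, le_rfl, h, Or.inl rfl, fun _ => rfl⟩
    · obtain ⟨u, hu, hu'⟩ := hl x
      obtain ⟨t, ht, ht'⟩ := intermediate_value_Icc hu (hc' x).continuousOn ⟨hu', h.le⟩
      exact ⟨t, ht.2, ht'.le, Or.inr ht', fun h' => absurd h' h.not_ge⟩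
  choose τ t0 t1 t2 t3 using h1
  refine ⟨τ, ?_, t3, fun x hx => ?_⟩
  · rw [continuous_iff_lower_upperSemicontinuous, lowerSemicontinuous_iff_isOpen_preimage,
      upperSemicontinuous_iff_isOpen_preimage]
    constructor
    · intro a
      have : τ ⁻¹' Ioi a = {x | a < 0} ∩ {x | g x a < 1} := by
        ext x
        simp only [mem_preimage, mem_Ioi, mem_inter_iff, mem_ofPred_eq]
        constructor
        · intro h
          refine ⟨h.trans_le (t0 x), ?_⟩
          rcases le_or_gt (g x (τ x)) 0 with h' | h'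
          · exact ((hm x h.le).trans h').trans_lt one_pos
          · exact (hs x _ _ h h').trans_le (t1 x)
        · rintro ⟨h, h'⟩
          by_contra hn
          have hn' : τ x ≤ a := not_lt.1 hn
          rcases t2 x with h2 | h2
          · linarith
          · linarith [hm x hn']
      rw [this]
      exact isOpen_const.inter (isOpen_lt (hc a) continuous_const)
    · intro a
      have : τ ⁻¹' Iio a = {x | 0 < a} ∪ {x | 1 < g x a} := by
        ext x
        simp only [mem_preimage, mem_Iio, mem_union, mem_ofPred_eq]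
        constructor
        · intro h
          rcases t2 x with h2 | h2
          · exact Or.inl (h2 ▸ h)
          · have h3 := hm x h.le
            exact Or.inr (h2 ▸ hs x _ _ h (by linarith))
        · rintro (h | h)
          · exact (t0 x).trans_lt h
          · by_contra hn
            linarith [hm x (not_lt.1 hn), t1 x]
      rw [this]
      exact isOpen_const.union (isOpen_lt continuous_const (hc a))
  · rcases t2 x with h | h
    · have := t1 x
      rw [h] at this ⊢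
      exact le_antisymm this hx
    · exact h

namespace Data

variable (D : Data)

/-- Scaling of the central coordinate. -/
noncomputable def sc (u : ℝ) : D.J → ℂ
  | none => Complex.exp u
  | some _ => 1

/-- The flow on the toric variety. -/
noncomputable def actX (u : ℝ) : D.fan.X → D.fan.X := D.fan.lf fun z => D.fan.cl (D.sc u * z)

/-- The coordinate curves. -/
def En (l : Fin 3) : D.J := some ⟨l, Fin.last _⟩

/-- The rays with all sets of rays declared cones. -/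
def big : Fan D.J (Fin 3) := ⟨D.ray, univ, mem_univ _⟩

variable {D} {z : D.J → ℂ}

lemma sc_ne (u : ℝ) : ∀ s, D.sc u s ≠ 0
  | none => Complex.exp_ne_zero _
  | some _ => one_ne_zero

lemma sc_zero : D.sc 0 = 1 := by
  funext s
  cases s <;> simp [sc]

lemma continuous_sc : Continuous D.sc := by
  refine continuous_pi fun s => ?_
  cases s with
  | none => exact Complex.continuous_exp.comp Complex.continuous_ofReal
  | some s => exact continuous_const

lemma actX_cl (u : ℝ) (hz : z ∈ D.fan.U) : D.actX u (D.fan.cl z) = D.fan.cl (D.sc u * z) :=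
  Fan.lf_cl hz fun g hg => by
    rw [mul_left_comm, Fan.cl_mul hg (Fan.mul_mem_U (sc_ne u) hz)]

lemma rel_sc (u : ℝ) (h : D.Rel z) : D.Rel (D.sc u * z) := by
  have : ∀ l, D.Mo l (D.sc u * z) = D.Mo l z := fun l => by simp [Mo, sc]
  simpa only [Rel, this] using h

variable (D) in
/-- The flow on the surface. -/
noncomputable def act (u : ℝ) (x : D.S) : D.S :=
  ⟨D.actX u x.1, by
    obtain ⟨z, hz, h, rfl⟩ := pt_surj x
    rw [show (pt hz h).1 = D.fan.cl z from rfl, actX_cl u hz]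
    exact mem_S (Fan.mul_mem_U (sc_ne u) hz) (rel_sc u h)⟩

lemma act_pt (u : ℝ) (hz : z ∈ D.fan.U) (h : D.Rel z) :
    D.act u (pt hz h) = pt (Fan.mul_mem_U (sc_ne u) hz) (rel_sc u h) :=
  Subtype.ext (actX_cl u hz)

lemma act_zero (x : D.S) : D.act 0 x = x := by
  obtain ⟨z, hz, h, rfl⟩ := pt_surj x
  refine Subtype.ext ((actX_cl 0 hz).trans ?_)
  rw [sc_zero, one_mul]
  rfl

lemma continuous_act : Continuous fun p : D.S × ℝ => D.act p.2 p.1 := by
  have h1 : ContinuousOn (fun p : D.fan.X × ℝ => D.actX p.2 p.1) (univ ×ˢ univ) :=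
    Fan.continuousOn_lf₂ (h := fun p => D.fan.cl (D.sc p.2 * p.1)) isOpen_univ
      (Fan.continuousOn_cl.comp
        ((continuous_sc.comp continuous_snd).mul continuous_fst).continuousOn
        fun p hp => Fan.mul_mem_U (sc_ne _) hp.1.1)
      fun z hz _ g hg a _ => by
        dsimp only
        rw [mul_left_comm, Fan.cl_mul hg (Fan.mul_mem_U (sc_ne a) hz)]
  rw [univ_prod_univ, continuousOn_univ] at h1
  exact (h1.comp ((continuous_subtype_val.comp continuous_fst).prodMk continuous_snd)).subtype_mk _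

lemma contOn_act {X : Type*} [TopologicalSpace X] {A : Set X} {u : X → ℝ} {x : X → D.S}
    (hu : ContinuousOn u A) (hx : ContinuousOn x A) :
    ContinuousOn (fun p => D.act (u p) (x p)) A := by
  simpa only [Function.comp_def] using continuous_act.comp_continuousOn (hx.prodMk hu)

lemma cont_act {X : Type*} [TopologicalSpace X] {u : X → ℝ} {x : X → D.S}
    (hu : Continuous u) (hx : Continuous x) : Continuous fun p => D.act (u p) (x p) :=
  continuousOn_univ.1 (contOn_act hu.continuousOn hx.continuousOn)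

lemma act_mem_N (u : ℝ) (x : D.S) (s : D.J) : D.act u x ∈ D.N s ↔ x ∈ D.N s := by
  obtain ⟨z, hz, h, rfl⟩ := pt_surj x
  rw [act_pt, pt_mem_N, pt_mem_N, Pi.mul_apply, mul_ne_zero_iff_left (sc_ne u s)]

lemma mon_sc (u : ℝ) (n : Fin 3 → ℤ) (z : D.J → ℂ) : D.fan.mon n (D.sc u * z) =
    Complex.exp (((∑ k, n k * D.V 0 0 k : ℤ) : ℝ) * u : ℝ) * D.fan.mon n z := by
  have h1 : ∏ s, D.sc u s ^ ∑ k, n k * D.fan.v s k =
      Complex.exp (((∑ k, n k * D.V 0 0 k : ℤ) : ℝ) * u : ℝ) := by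
    rw [Fintype.prod_option, Finset.prod_eq_one fun s _ => one_zpow _, mul_one,
      Complex.ofReal_mul, Complex.ofReal_intCast, Complex.exp_int_mul]
    rfl
  simp only [Fan.mon, Pi.mul_apply, mul_zpow, Finset.prod_mul_distrib, h1]

lemma φ_act (u : ℝ) (M : Fin 3 → Fin 3 → ℤ) (x : D.S) (l : Fin 3) :
    D.fan.φ M (D.act u x).1 l =
      Complex.exp (((∑ k, M l k * D.V 0 0 k : ℤ) : ℝ) * u : ℝ) * D.fan.φ M x.1 l := by
  obtain ⟨z, hz, h, rfl⟩ := pt_surj x
  rw [act_pt]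
  exact (Fan.φ_cl M (Fan.mul_mem_U (sc_ne u) hz) l).trans
    ((mon_sc u _ z).trans (congrArg _ (Fan.φ_cl M hz l).symm))

lemma norm_f_act (u : ℝ) (x : D.S) (l : Fin 3) :
    ‖D.f (D.act u x) l‖ ^ 2 = Real.exp (2 * (D.V 0 0 l : ℝ) * u) * ‖D.f x l‖ ^ 2 := by
  have h1 : ∑ k, (Pi.single l 1 : Fin 3 → ℤ) k * D.V 0 0 k = D.V 0 0 l := by
    simp [Pi.single_apply]
  have h2 := φ_act u (fun l => Pi.single l 1) x l
  rw [h1] at h2
  rw [f, h2, norm_mul, Complex.norm_exp_ofReal, mul_pow, ← Real.exp_nat_mul, mul_assoc]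
  rfl

lemma ρ_act (u : ℝ) (x : D.S) :
    D.ρ (D.act u x) = ∑ l, Real.exp (2 * (D.V 0 0 l : ℝ) * u) * ‖D.f x l‖ ^ 2 := by
  rw [ρ, Fin.sum_univ_three, norm_f_act, norm_f_act, norm_f_act]

lemma ρ_eq (x : D.S) : D.ρ x = ∑ l, ‖D.f x l‖ ^ 2 := by
  rw [ρ, Fin.sum_univ_three]

lemma one_le_V (l : Fin 3) : (1 : ℝ) ≤ D.V 0 0 l := by
  exact_mod_cast V_pos (D := D) (i := 0) (Nat.zero_le _) l

lemma ρ_nonneg0 (x : D.S) : 0 ≤ D.ρ x := by
  rw [ρ]
  positivity

lemma ρ_mono (x : D.S) : Monotone fun u => D.ρ (D.act u x) := fun a b hab => by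
  simp only [ρ_act]
  refine Finset.sum_le_sum fun l _ => mul_le_mul_of_nonneg_right (Real.exp_le_exp.2 ?_) (by positivity)
  exact mul_le_mul_of_nonneg_left hab (by linarith [one_le_V (D := D) l])

lemma ρ_strict (x : D.S) (a b : ℝ) (hab : a < b) (h : 0 < D.ρ (D.act b x)) :
    D.ρ (D.act a x) < D.ρ (D.act b x) := by
  simp only [ρ_act] at h ⊢
  obtain ⟨l, -, hl⟩ := Finset.exists_lt_of_sum_lt (f := fun _ => (0 : ℝ)) (by simpa using h)
  refine Finset.sum_lt_sum (fun l _ => mul_le_mul_of_nonneg_right (Real.exp_le_exp.2 ?_)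
    (by positivity)) ⟨l, Finset.mem_univ _, mul_lt_mul_of_pos_right (Real.exp_lt_exp.2 ?_)
      ((mul_pos_iff_of_pos_left (Real.exp_pos _)).1 hl)⟩
  · exact mul_le_mul_of_nonneg_left hab.le (by linarith [one_le_V (D := D) l])
  · exact mul_lt_mul_of_pos_left hab (by linarith [one_le_V (D := D) l])

lemma ρ_act_le {u : ℝ} (hu : u ≤ 0) (x : D.S) : D.ρ (D.act u x) ≤ Real.exp u * D.ρ x := by
  rw [ρ_act, ρ_eq, Finset.mul_sum]
  refine Finset.sum_le_sum fun l _ => mul_le_mul_of_nonneg_right (Real.exp_le_exp.2 ?_) (by positivity)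
  nlinarith [one_le_V (D := D) l]

lemma le_ρ_act {u : ℝ} (hu : 0 ≤ u) (x : D.S) : Real.exp u * D.ρ x ≤ D.ρ (D.act u x) := by
  rw [ρ_act, ρ_eq, Finset.mul_sum]
  refine Finset.sum_le_sum fun l _ => mul_le_mul_of_nonneg_right (Real.exp_le_exp.2 ?_) (by positivity)
  nlinarith [one_le_V (D := D) l]

variable (D)

/-- A retraction onto the sublevel set. -/
theorem exists_retr : ∃ r : D.S → D.S, Continuous r ∧ (∀ x, D.ρ x ≤ 1 → r x = x) ∧
    ∀ x, 1 ≤ D.ρ x → D.ρ (r x) = 1 := by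
  obtain ⟨τ, h1, h2, h3⟩ := exists_time (fun x u => D.ρ (D.act u x))
    (fun a => continuous_ρ.comp' (cont_act continuous_const continuous_id'))
    (fun x => continuous_ρ.comp' (cont_act continuous_id' continuous_const)) ρ_mono ρ_strict fun x =>
      ⟨-D.ρ x, neg_nonpos.2 (ρ_nonneg0 x), (ρ_act_le (neg_nonpos.2 (ρ_nonneg0 x)) x).trans (by
        rw [Real.exp_neg, inv_mul_le_iff₀ (Real.exp_pos _)]
        linarith [Real.add_one_le_exp (D.ρ x)])⟩
  simp only [act_zero] at h2 h3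
  exact ⟨fun x => D.act (τ x) x, cont_act h1 continuous_id',
    fun x hx => by simp only [h2 x hx, act_zero], h3⟩

/-- A deformation of the complement of the exceptional set into the superlevel set. -/
theorem exists_def : ∃ H : D.S × ℝ → D.S, ContinuousOn H ({x | 0 < D.ρ x} ×ˢ Icc 0 1) ∧
    (∀ x, 0 < D.ρ x → H (x, 0) = x) ∧ (∀ x, 0 < D.ρ x → 1 ≤ D.ρ (H (x, 1))) ∧
    ∀ x, 0 < D.ρ x → ∀ t ∈ Icc (0 : ℝ) 1, D.ρ x ≤ D.ρ (H (x, t)) := by
  refine ⟨fun p => D.act (p.2 * (D.ρ p.1)⁻¹) p.1, ?_, fun x _ => ?_, fun x hx => ?_,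
    fun x hx t ht => ?_⟩
  · exact contOn_act (continuousOn_snd.mul
      ((continuous_ρ.comp' continuous_fst).continuousOn.inv₀ fun p hp => ne_of_gt hp.1))
      continuousOn_fst
  · simp only [zero_mul, act_zero]
  · refine le_trans ?_ (le_ρ_act (by positivity) x)
    have h1 := Real.add_one_le_exp (1 * (D.ρ x)⁻¹)
    have h2 := mul_le_mul_of_nonneg_right h1 hx.le
    rw [add_mul, one_mul, inv_mul_cancel₀ hx.ne'] at h2
    dsimp only
    rw [one_mul]
    linarith
  · have h0 : 0 ≤ t * (D.ρ x)⁻¹ := mul_nonneg ht.1 (inv_pos.2 hx).le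
    exact le_trans (le_mul_of_one_le_left hx.le (Real.one_le_exp h0)) (le_ρ_act h0 x)

variable {D}

lemma ray_En (l : Fin 3) : D.ray (D.En l) = Pi.single l 1 := D.Vend l

lemma sum_En (n : Fin 3 → ℤ) (l : Fin 3) : ∑ k, n k * D.ray (D.En l) k = n l := by
  simp [ray_En, Pi.single_apply]

lemma big_chart : D.big.IsChart D.En fun l => Pi.single l 1 :=
  ⟨fun k l => (sum_En _ l).trans (by simp [Pi.single_apply, eq_comm]), mem_univ _⟩

lemma exists_cv0 {s : D.J} (hs : s ∉ Finset.univ.image D.En) : ∃ c, D.cv c = s := by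
  rcases s with _ | ⟨i, j⟩
  · exact ⟨none, rfl⟩
  · rcases j.eq_castSucc_or_eq_last with ⟨j', rfl⟩ | rfl
    · exact ⟨some ⟨i, j'⟩, rfl⟩
    · exact absurd (Finset.mem_image.2 ⟨i, Finset.mem_univ _, rfl⟩) hs

/-- Normal form of a point outside the exceptional set. -/
lemma normal {x : D.S} (hx : 0 < D.ρ x) :
    Fan.sec D.En (D.f x) ∈ D.fan.U ∧ D.fan.cl (Fan.sec D.En (D.f x)) = x.1 := by
  obtain ⟨z, hz, h, rfl⟩ := pt_surj x
  have h1 : ∀ s ∉ Finset.univ.image D.En, z s ≠ 0 := fun s hs => by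
    obtain ⟨c, rfl⟩ := exists_cv0 hs
    exact (pt_mem_N hz h _).1 ((ρ_pos_iff _).1 hx c)
  have h2 : D.big.nrm D.En (fun l => Pi.single l 1) z ∈ D.fan.G := big_chart.nrm_mem h1
  have h4 : D.f (pt hz h) = fun l => D.big.mon (Pi.single l 1) z :=
    funext fun l => Fan.φ_cl (F := D.fan) (fun l => Pi.single l 1) hz l
  rw [h4, ← big_chart.nrm_mul h1]
  exact ⟨Fan.mul_mem_U h2.1 hz, Fan.cl_mul h2 hz⟩

lemma mon_En (n : Fin 3 → ℤ) (y : Fin 3 → ℂ) :
    D.fan.mon n (Fan.sec D.En y) = ∏ l, y l ^ n l := by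
  rw [Fan.mon, big_chart.prod_split, Finset.prod_eq_one (s := (Finset.univ.image D.En)ᶜ), mul_one]
  · exact Finset.prod_congr rfl fun l _ => by
      rw [big_chart.sec_e]
      exact congrArg _ (sum_En n l)
  · intro s hs
    rw [Fan.sec_not _ (Finset.mem_compl.1 hs), one_zpow]

lemma Mo_En (l : Fin 3) (y : Fin 3 → ℂ) : D.Mo l (Fan.sec D.En y) = y l ^ D.al l := by
  rw [Mo, Fin.prod_univ_castSucc, Finset.prod_eq_one, one_mul]
  · exact (congrArg (· ^ _) (big_chart.sec_e y l)).trans (congrArg _ (m_end l))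
  · intro j _
    rw [Fan.sec_not, one_pow]
    intro hj
    obtain ⟨l', -, hl'⟩ := Finset.mem_image.1 hj
    obtain ⟨rfl, h2⟩ := Sigma.mk.inj_iff.1 (Option.some.inj hl')
    exact (Fin.castSucc_lt_last j).ne' (eq_of_heq h2)

lemma sec_En_mem {y : Fin 3 → ℂ} {l : Fin 3} (h : ∀ l', l' ≠ l → y l' ≠ 0) :
    Fan.sec D.En y ∈ D.fan.U := by
  refine ⟨{D.En l}, ⟨l, D.k l, le_rfl, Finset.singleton_subset_iff.2
    (Finset.mem_image.2 ⟨1, Finset.mem_univ _, ?_⟩)⟩, fun s hs => ?_⟩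
  · exact dif_pos (Nat.lt_succ_self _)
  · rcases Fan.mem_or_not D.En s with ⟨l', rfl⟩ | hs'
    · rw [big_chart.sec_e]
      exact h l' fun hl => hs (by rw [hl]; exact Finset.mem_singleton_self _)
    · rw [Fan.sec_not _ hs']
      exact one_ne_zero

variable (D)

theorem bijOn_link : BijOn D.f {x | D.ρ x = 1} (link (D.al 0) (D.al 1) (D.al 2)) := by
  refine ⟨fun x hx => ⟨?_, hx⟩, fun x hx y hy hxy => ?_, fun y hy => ?_⟩
  · obtain ⟨h1, h2⟩ := normal (x := x) (hx.symm ▸ one_pos)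
    have h3 := x.2 _ h1 h2
    rwa [Rel, Mo_En, Mo_En, Mo_En] at h3
  · refine Subtype.ext ?_
    rw [← (normal (x := x) (hx.symm ▸ one_pos)).2, ← (normal (x := y) (hy.symm ▸ one_pos)).2, hxy]
  · obtain ⟨h1, h2⟩ := hy
    have p0 := (D.al_pos 0).ne'
    have p1 := (D.al_pos 1).ne'
    have p2 := (D.al_pos 2).ne'
    have h3 : ∃ l, ∀ l', l' ≠ l → y l' ≠ 0 := by
      by_cases a0 : y 0 = 0
      · refine ⟨0, fun l' hl' hy => ?_⟩
        fin_cases l'
        · exact hl' rfl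
        · have hy' : y 1 = 0 := hy
          have : y 2 = 0 := by simpa [a0, hy', p0, p1, p2] using h1
          simp [a0, hy', this] at h2
        · have hy' : y 2 = 0 := hy
          have : y 1 = 0 := by simpa [a0, hy', p0, p1, p2] using h1
          simp [a0, hy', this] at h2
      · by_cases a1 : y 1 = 0
        · refine ⟨1, fun l' hl' hy => ?_⟩
          fin_cases l'
          · exact a0 hy
          · exact hl' rfl
          · have hy' : y 2 = 0 := hy
            exact a0 (by simpa [a1, hy', p0, p1, p2] using h1)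
        · refine ⟨2, fun l' hl' hy => ?_⟩
          fin_cases l'
          · exact a0 hy
          · exact a1 hy
          · exact hl' rfl
    obtain ⟨l, hl⟩ := h3
    have hz : Fan.sec D.En y ∈ D.fan.U := sec_En_mem hl
    have hr : D.Rel (Fan.sec D.En y) := by rwa [Rel, Mo_En, Mo_En, Mo_En]
    have hf : D.f (pt hz hr) = y := funext fun k =>
      (Fan.φ_cl _ hz k).trans (big_chart.mon_sec y k)
    exact ⟨pt hz hr, by rw [mem_ofPred_eq, ρ, hf, h2], hf⟩

theorem reg (a : D.Ix) (w : Fin 2 → ℂ) (h : D.ρ (D.ψ a w) = 1) :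
    fderiv ℝ (D.ρ ∘ D.ψ a) w ≠ 0 := by
  intro h0
  set γ : ℝ → Fin 2 → ℂ := fun u => D.φ a (D.act u (D.ψ a w)) with hγ
  have h1 : ∀ u, D.ψ a (γ u) = D.act u (D.ψ a w) := fun u => by
    obtain ⟨w', hw'⟩ := (mem_range_ψ a (D.act u (D.ψ a w))).2 fun s hs =>
      (act_mem_N u _ s).2 ((mem_range_ψ a _).1 ⟨w, rfl⟩ s hs)
    simp only [hγ, ← hw', φ_ψ]
  have h2 : γ 0 = w := by simp only [hγ, act_zero, φ_ψ]
  have h3 : DifferentiableAt ℝ γ 0 := by
    refine differentiableAt_pi.2 fun s => ?_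
    simp only [hγ, φ, φ_act]
    fun_prop
  have h4 : HasDerivAt ((D.ρ ∘ D.ψ a) ∘ γ) 0 0 := by
    have h5 : HasFDerivAt (D.ρ ∘ D.ψ a) (0 : (Fin 2 → ℂ) →L[ℝ] ℝ) (γ 0) := by
      rw [h2, ← h0]
      exact ((contDiff_ρ a).differentiable (by simp) w).hasFDerivAt
    exact h5.comp_hasDerivAt 0 h3.hasDerivAt
  have h6 : HasDerivAt ((D.ρ ∘ D.ψ a) ∘ γ)
      (∑ l, 2 * (D.V 0 0 l : ℝ) * ‖D.f (D.ψ a w) l‖ ^ 2) 0 := by
    have : (D.ρ ∘ D.ψ a) ∘ γ = fun u =>
        ∑ l, Real.exp (2 * (D.V 0 0 l : ℝ) * u) * ‖D.f (D.ψ a w) l‖ ^ 2 := by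
      funext u
      simp only [Function.comp_apply, h1, ρ_act]
    rw [this]
    refine HasDerivAt.fun_sum fun l _ => ?_
    simpa using (((hasDerivAt_id (0 : ℝ)).const_mul (2 * (D.V 0 0 l : ℝ))).exp).mul_const
      (‖D.f (D.ψ a w) l‖ ^ 2)
  have h7 : D.ρ (D.ψ a w) ≤ ∑ l, 2 * (D.V 0 0 l : ℝ) * ‖D.f (D.ψ a w) l‖ ^ 2 := by
    rw [ρ_eq]
    exact Finset.sum_le_sum fun l _ => le_mul_of_one_le_left (by positivity)
      (by linarith [one_le_V (D := D) l])
  linarith [h4.unique h6]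

theorem imm (a : D.Ix) (w : Fin 2 → ℂ) (h : D.ρ (D.ψ a w) = 1) :
    Function.Injective (fderiv ℝ (D.f ∘ D.ψ a) w) := by
  set L : (Fin 3 → ℂ) → Fin 2 → ℂ := fun y s => ∏ l, y l ^ D.M a.1 a.2 s.castSucc l with hL
  have h1 : ∀ w', 0 < D.ρ (D.ψ a w') → L (D.f (D.ψ a w')) = w' := fun w' hw' => by
    obtain ⟨n1, n2⟩ := normal hw'
    funext s
    conv_rhs => rw [← φ_ψ a w', φ, ← n2, Fan.φ_cl _ n1, mon_En]
  have hp : 0 < D.ρ (D.ψ a w) := h.symm ▸ one_pos
  have h2 : L ∘ (D.f ∘ D.ψ a) =ᶠ[𝓝 w] id := by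
    filter_upwards [(isOpen_lt continuous_const (contDiff_ρ a).continuous).mem_nhds hp] with w' hw'
    exact h1 w' hw'
  have h3 : DifferentiableAt ℝ L (D.f (D.ψ a w)) := by
    suffices hC : DifferentiableAt ℂ L (D.f (D.ψ a w)) from hC.restrictScalars ℝ
    refine differentiableAt_pi.2 fun s => ?_
    refine (HasFDerivAt.finsetProd (g := fun l (y : Fin 3 → ℂ) => y l ^ D.M a.1 a.2 s.castSucc l)
      fun l _ => DifferentiableAt.hasFDerivAt ?_).differentiableAt
    refine DifferentiableAt.zpow (differentiableAt_apply l _) ?_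
    rcases Fan.mem_or_not (D.e a.1 a.2) (D.En l) with ⟨t, ht⟩ | hl
    · right
      have h4 := (isChart (D := D) (Nat.lt_succ_iff.1 a.2.2)).dual s.castSucc t
      rw [ht] at h4
      refine le_of_le_of_eq ?_ (h4.symm.trans (sum_En _ l))
      split_ifs <;> simp
    · left
      obtain ⟨n1, n2⟩ := normal hp
      have h4 : (D.ψ a w).1 ∈ D.fan.nz (D.En l) := (mem_range_ψ a _).1 ⟨w, rfl⟩ _ hl
      rw [← n2, Fan.cl_mem_nz n1, big_chart.sec_e] at h4
      exact h4
  have h4 := ((contDiff_f a).differentiable (by simp) w).hasFDerivAt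
  have h5 := (h3.hasFDerivAt.comp w h4).congr_of_eventuallyEq h2.symm
  have h6 := h5.unique (hasFDerivAt_id w)
  exact Function.LeftInverse.injective (g := fderiv ℝ L (D.f (D.ψ a w))) fun v =>
    DFunLike.congr_fun h6 v

end Data

end Pool.Agent.Lib.MP_d31521_gt
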