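import Pool.Agent.Lib.MP_d31521_gt.Coh

/-! The intersection numbers of the compact curves. -/

set_option linter.unusedSectionVars false

namespace Pool.Agent.Lib.MP_d31521_gt

open Set Topology Pool.Agent.Lib.MP_bf05b2_gt Pool.Agent.Shared.Sing Pool.Agent.Shared.SingEZ
  Pool.Agent.Lib.MP_45bb13_gt

lemma ev_bo {Y : Type} [TopologicalSpace Y] [Nonempty Y] {R : Type} [CommRing R] {O : Set Y}
    {S : Set (Set Y)} {n : ℕ} {μ : C R Y} (hμ : μ ∈ Z R univ O n) {φ : Cc R Y}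
    (h : Bo {univ} S n φ) (hS : Ref {O} S) : φ μ = 0 := by
  obtain ⟨θ, h1, h2⟩ := h.mono Ref.refl hS
  rw [h2 μ (Ch'_single.ge hμ.1)]
  exact h1 _ (Ch'_single.ge hμ.2)

namespace Data

variable {D : Data} {μ : C ℤ D.S} {i : Fin 3} {j : ℕ}

variable (D) in
/-- The intersection number of two divisors. -/
noncomputable def P (μ : C ℤ D.S) (s t : D.J) : ℤ := cup 2 (D.τ ℤ s) (D.τ ℤ t) μ

lemma sub_N (hj : j ≤ D.k i) : {x | 0 < D.ρ x} ⊆ D.N (D.vtx i j) := fun x hx => by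
  obtain ⟨s, hs⟩ := exists_cv hj
  exact hs ▸ (ρ_pos_iff x).1 hx s

lemma τ_cy' (R : Type) [CommRing R] (s : D.J) : Cy {univ} ∅ 2 (D.τ R s) :=
  (τ_cy R s).mono Ref.refl Ref.empty

variable (hμ : μ ∈ Z ℤ univ {x | 0 < D.ρ x} 4)
include hμ

lemma P_symm (hj : j ≤ D.k i) (t : D.J) : D.P μ (D.vtx i j) t = D.P μ t (D.vtx i j) := by
  have := ev_bo hμ (cup_comm (τ_cy ℤ (D.vtx i j)) (τ_cy' ℤ t))
    ((Ref.single (sub_N hj)).trans (Ref.of_subset subset_union_left))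
  simpa [sub_eq_zero, P] using this

lemma P_lin (hj : j ≤ D.k i) (χ : Fin 3 → ℤ) :
    ∑ t, (∑ l, χ l * D.ray t l) * D.P μ (D.vtx i j) t = 0 := by
  have := ev_bo hμ (Bo.mul_right (τ_cy ℤ (D.vtx i j)) (τ_lin ℤ χ))
    ((Ref.single (sub_N hj)).trans (Ref.of_subset subset_union_left))
  simpa only [cup_sum_right, cup_smul_right, LinearMap.sum_apply, LinearMap.smul_apply,
    smul_eq_mul, Int.cast_id, P] using this

lemma P_zero (hj : j ≤ D.k i) {t : D.J} (h : ∀ x, x ∈ D.N (D.vtx i j) ∨ x ∈ D.N t) :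
    D.P μ (D.vtx i j) t = 0 := by
  refine ev_bo hμ (triv_small ?_ ?_ Ref.univ (fun x _ => ?_) _ _
    ((τ_cy ℤ (D.vtx i j)).mul (τ_cy ℤ t)))
    ((Ref.single (sub_N hj)).trans (Ref.of_subset subset_union_left))
  · rintro U rfl
    exact isOpen_univ
  · rintro U (rfl | rfl) <;> exact isOpen_N _
  · exact (h x).elim (fun h => ⟨_, Or.inl rfl, h⟩) fun h => ⟨_, Or.inr rfl, h⟩

lemma P_far (hj : j + 1 ≤ D.k i) {t : D.J} (h0 : t ≠ D.vtx i j) (h1 : t ≠ D.vtx i (j + 1))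
    (h2 : t ≠ D.vtx i (j + 2)) : D.P μ (D.vtx i (j + 1)) t = 0 := by
  refine P_zero hμ hj fun x => ?_
  obtain ⟨i', j', hj', he⟩ := exists_edge x
  by_cases e1 : D.vtx i (j + 1) = D.vtx i' j'
  · obtain ⟨rfl, e2⟩ := (vtx_eq_iff (by omega) (by omega)).1 e1
    obtain rfl : i = i' := e2.resolve_left (by omega)
    exact Or.inr (he t h1 h2)
  · by_cases e2 : D.vtx i (j + 1) = D.vtx i' (j' + 1)
    · obtain ⟨e3, e4⟩ := (vtx_eq_iff (by omega) (by omega)).1 e2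
      obtain rfl : i = i' := e4.resolve_left (by omega)
      obtain rfl : j = j' := by omega
      exact Or.inr (he t h0 h1)
    · exact Or.inl (he _ e1 e2)

lemma P_far0 {t : D.J} (h0 : t ≠ none) (h1 : ∀ i, t ≠ D.vtx i 1) : D.P μ none t = 0 := by
  refine P_zero hμ (i := 0) (j := 0) (Nat.zero_le _) fun x => ?_
  obtain ⟨i', j', hj', he⟩ := exists_edge x
  rcases Nat.eq_zero_or_pos j' with rfl | h
  · exact Or.inr (he t h0 (h1 _))
  · exact Or.inl (he _ (vtx_ne (by omega) (by omega) (.inl (by omega)))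
      (vtx_ne (by omega) (by omega) (.inl (by omega))))

lemma P_arm_lin (hj : j + 1 ≤ D.k i) (χ : Fin 3 → ℤ) :
    (∑ l, χ l * D.V i j l) * D.P μ (D.vtx i (j + 1)) (D.vtx i j) +
      (∑ l, χ l * D.V i (j + 1) l) * D.P μ (D.vtx i (j + 1)) (D.vtx i (j + 1)) +
      (∑ l, χ l * D.V i (j + 2) l) * D.P μ (D.vtx i (j + 1)) (D.vtx i (j + 2)) = 0 := by
  classical
  have h := P_lin hμ hj χ
  have n1 : D.vtx i j ≠ D.vtx i (j + 1) := vtx_ne (by omega) (by omega) (.inl (by omega))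
  have n2 : D.vtx i j ≠ D.vtx i (j + 2) := vtx_ne (by omega) (by omega) (.inl (by omega))
  have n3 : D.vtx i (j + 1) ≠ D.vtx i (j + 2) := vtx_ne (by omega) (by omega) (.inl (by omega))
  rw [← Finset.sum_subset (Finset.subset_univ {D.vtx i j, D.vtx i (j + 1), D.vtx i (j + 2)})
    fun t _ ht => ?_, Finset.sum_insert (by simp [n1, n2]), Finset.sum_insert (by simp [n3]),
    Finset.sum_singleton, ray_vtx (by omega), ray_vtx (by omega), ray_vtx (by omega)] at h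
  · rw [add_assoc]
    exact h
  · simp only [Finset.mem_insert, Finset.mem_singleton, not_or] at ht
    rw [P_far hμ hj ht.1 ht.2.1 ht.2.2, mul_zero]

lemma P_cen_lin (χ : Fin 3 → ℤ) :
    (∑ l, χ l * D.V 0 0 l) * D.P μ none none + (∑ l, χ l * D.V 0 1 l) * D.P μ none (D.vtx 0 1) +
      (∑ l, χ l * D.V 1 1 l) * D.P μ none (D.vtx 1 1) +
      (∑ l, χ l * D.V 2 1 l) * D.P μ none (D.vtx 2 1) = 0 := by
  classical
  have h := P_lin hμ (i := 0) (j := 0) (Nat.zero_le _) χ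
  have n0 : ∀ i, D.vtx 0 0 ≠ D.vtx i 1 := fun i => vtx_ne (by omega) (by omega) (.inl (by omega))
  have n1 : ∀ i i', i ≠ i' → D.vtx i 1 ≠ D.vtx i' 1 := fun i i' e =>
    vtx_ne (by omega) (by omega) (.inr ⟨by omega, e⟩)
  rw [← Finset.sum_subset (Finset.subset_univ {D.vtx 0 0, D.vtx 0 1, D.vtx 1 1, D.vtx 2 1})
    fun t _ ht => ?_, Finset.sum_insert (by simp [n0]), Finset.sum_insert (by simp [n1]),
    Finset.sum_insert (by simp [n1]), Finset.sum_singleton, ray_vtx (by omega), ray_vtx (by omega),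
    ray_vtx (by omega), ray_vtx (by omega)] at h
  · rw [add_assoc, add_assoc]
    exact h
  · simp only [Finset.mem_insert, Finset.mem_singleton, not_or] at ht
    rw [show D.P μ (D.vtx 0 0) t = 0 from P_far0 hμ ht.1 fun i => ?_, mul_zero]
    fin_cases i
    exacts [ht.2.1, ht.2.2.1, ht.2.2.2]

omit hμ in
lemma M_dual (hj : j ≤ D.k i) (s : Fin 3) :
    ∑ l, D.M i j s l * D.V i j l = (if s = 0 then 1 else 0) ∧
      ∑ l, D.M i j s l * D.V i (j + 1) l = (if s = 1 then 1 else 0) ∧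
      ∑ l, D.M i j s l * D.V (i + 1) 1 l = if s = 2 then 1 else 0 := by
  have h := (isChart hj).dual s
  rw [← ray_vtx (D := D) (i := i) (j := j) (by omega),
    ← ray_vtx (D := D) (i := i) (j := j + 1) (by omega),
    ← ray_vtx (D := D) (i := i + 1) (j := 1) (by omega)]
  exact ⟨h 0, h 1, h 2⟩

lemma P_cen : (∀ i, D.P μ none (D.vtx i 1) = D.P μ none (D.vtx 0 1)) ∧
    D.P μ none none = -D.b * D.P μ none (D.vtx 0 1) := by
  have key : ∀ χ : Fin 3 → ℤ, ∑ l, χ l * D.V 2 1 l = D.b * ∑ l, χ l * D.V 0 0 l -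
      ∑ l, χ l * D.V 0 1 l - ∑ l, χ l * D.V 1 1 l := fun χ => by
    have h := D.Vsum
    have h0 := congrFun h 0
    have h1 := congrFun h 1
    have h2 := congrFun h 2
    simp only [Pi.add_apply, Pi.smul_apply, smul_eq_mul] at h0 h1 h2
    simp only [Fin.sum_univ_three]
    linear_combination χ 0 * h0 + χ 1 * h1 + χ 2 * h2
  have h := fun s => P_cen_lin hμ (D.M 0 0 s)
  have d := M_dual (D := D) (i := 0) (j := 0) (Nat.zero_le _)
  simp only [key, fun s => (d s).1, fun s => show ∑ l, D.M 0 0 s l * D.V 0 1 l = _ from (d s).2.1,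
    fun s => show ∑ l, D.M 0 0 s l * D.V 1 1 l = _ from (d s).2.2] at h
  have h0 := h 0
  have h1 := h 1
  have h2 := h 2
  simp at h0 h1 h2
  refine ⟨fun i => ?_, by linear_combination h0 + D.b * h1⟩
  fin_cases i
  · rfl
  · change D.P μ none (D.vtx 1 1) = _
    linear_combination h2 - h1
  · change D.P μ none (D.vtx 2 1) = _
    linear_combination -h1

lemma P_arm (hj : j + 1 ≤ D.k i) :
    D.P μ (D.vtx i (j + 1)) (D.vtx i (j + 2)) = D.P μ (D.vtx i (j + 1)) (D.vtx i j) ∧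
      D.P μ (D.vtx i (j + 1)) (D.vtx i (j + 1)) =
        -D.a i j * D.P μ (D.vtx i (j + 1)) (D.vtx i j) := by
  have key : ∀ χ : Fin 3 → ℤ, ∑ l, χ l * D.V i j l = D.a i j * ∑ l, χ l * D.V i (j + 1) l -
      ∑ l, χ l * D.V i (j + 2) l := fun χ => by
    have h := D.Vrec i j hj
    have h0 := congrFun h 0
    have h1 := congrFun h 1
    have h2 := congrFun h 2
    simp only [Pi.add_apply, Pi.smul_apply, smul_eq_mul] at h0 h1 h2
    simp only [Fin.sum_univ_three]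
    linear_combination χ 0 * h0 + χ 1 * h1 + χ 2 * h2
  have h := fun s => P_arm_lin hμ hj (D.M i (j + 1) s)
  have d := M_dual hj
  simp only [key, fun s => (d s).1,
    fun s => show ∑ l, D.M i (j + 1) s l * D.V i (j + 2) l = _ from (d s).2.1] at h
  have h0 := h 0
  have h1 := h 1
  simp at h0 h1
  exact ⟨by linear_combination h1, by linear_combination h0⟩

lemma P_edge (hj : j ≤ D.k i) :
    D.P μ (D.vtx i j) (D.vtx i (j + 1)) = D.P μ none (D.vtx 0 1) := by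
  induction j with
  | zero => exact (P_cen hμ).1 i
  | succ j ih => rw [(P_arm hμ hj).1, P_symm hμ hj, ih (by omega)]

theorem P_star (s t : D.Cv) :
    D.P μ (D.cv s) (D.cv t) = D.P μ none (D.vtx 0 1) * D.star s t := by
  have c : ∀ (i : Fin 3) (j : Fin (D.k i)), D.cv (some ⟨i, j⟩) = D.vtx i (j + 1) :=
    fun i j => (vtx_fin j.castSucc).symm
  have h0 : ∀ (i : Fin 3) (j : Fin (D.k i)), D.P μ none (D.vtx i (j + 1)) =
      D.P μ none (D.vtx 0 1) * if (j : ℕ) = 0 then 1 else 0 := fun i j => by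
    have := j.2
    split_ifs with h
    · rw [h, mul_one]
      exact (P_cen hμ).1 i
    · rw [mul_zero]
      exact P_far0 hμ (vtx_ne (i' := 0) (j' := 0) (by omega) (by omega) (.inl (by omega)))
        fun i' => vtx_ne (by omega) (by omega) (.inl (by omega))
  rcases s with _ | ⟨i, j⟩ <;> rcases t with _ | ⟨i', j'⟩
  · exact (P_cen hμ).2.trans (mul_comm _ _)
  · rw [c]
    exact h0 i' j'
  · rw [c, P_symm hμ j.2]
    exact h0 i j
  · have := j.2
    have := j'.2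
    rw [c, c, star]
    split_ifs with e1 e2 e3
    · subst e1
      rw [← e2, (P_arm hμ j.2).2, P_symm hμ j.2, P_edge hμ (by omega), mul_comm]
    · subst e1
      rw [mul_one]
      rcases e3 with e3 | e3
      · rw [← e3, P_edge hμ j.2]
      · rw [P_symm hμ j.2, ← e3, P_edge hμ j'.2]
    · subst e1
      rw [mul_zero]
      exact P_far hμ j.2 (vtx_ne (by omega) (by omega) (.inl (by omega)))
        (vtx_ne (by omega) (by omega) (.inl (by omega)))
        (vtx_ne (by omega) (by omega) (.inl (by omega)))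
    · rw [mul_zero]
      exact P_far hμ j.2 (vtx_ne (by omega) (by omega) (.inr ⟨by omega, Ne.symm e1⟩))
        (vtx_ne (by omega) (by omega) (.inr ⟨by omega, Ne.symm e1⟩))
        (vtx_ne (by omega) (by omega) (.inr ⟨by omega, Ne.symm e1⟩))

theorem P_unit (hg : OriAux.Gen 4 (D.ψ ⟨0, 0⟩ 0) μ) :
    D.P μ none (D.vtx 0 1) = 1 ∨ D.P μ none (D.vtx 0 1) = -1 := by
  refine Int.isUnit_iff.1 (Int.isUnit_iff_natAbs_eq.2 ?_)
  by_contra hne
  obtain ⟨p, hp, hd⟩ := Nat.exists_prime_and_dvd hne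
  have := Fact.mk hp
  obtain ⟨φ, h1, h2⟩ := Submodule.exists_dual_map_eq_bot_of_notMem (hg.zmod hp.ne_one)
    inferInstance
  have h3 : ∀ c ∈ B (ZMod p) univ {D.ψ ⟨0, 0⟩ 0}ᶜ 4, φ c = 0 := fun c hc =>
    (Submodule.mem_bot _).1 (h2 ▸ Submodule.mem_map_of_mem hc)
  have h4 : Cy {univ} {D.N (D.vtx 0 0), D.N (D.vtx 0 1)} 4 φ := by
    refine ⟨fun c hc => h3 _ (D_mem_B (Ch'_single.le hc)), eqv_of_In ?_⟩
    rintro U (rfl | rfl) - c hc <;> refine h3 _ (In_mem_B (In_mono ?_ _ hc)) <;> rintro _ hx rfl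
    · exact (ψ_mem_N0 ⟨0, 0⟩ 0).1 hx rfl
    · exact (ψ_mem_N1 ⟨0, 0⟩ 0).1 hx rfl
  obtain ⟨r, hr⟩ : ∃ r : ZMod p, Bo {univ} {D.N (D.vtx 0 0), D.N (D.vtx 0 1)} 4
      (φ - r • pr [D.τ (ZMod p) (D.vtx 0 0), D.τ (ZMod p) (D.vtx 0 1)]) :=
    (gb_pt (ZMod p) ⟨0, 0⟩).span_one () (fun _ _ => rfl) h4
  have h5 := ev_bo (cf_Z (Int.castRingHom (ZMod p)) hμ) hr
    ((Ref.single (sub_N (i := 0) (Nat.zero_le _))).trans (Ref.of_subset (by simp)))
  have h6 : Eqv {univ} 4 (pr [D.τ (ZMod p) (D.vtx 0 0), D.τ (ZMod p) (D.vtx 0 1)])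
      (cup 2 (D.τ (ZMod p) (D.vtx 0 0)) (D.τ (ZMod p) (D.vtx 0 1))) :=
    Eqv.mul (p := 2) (q := 2) Eqv.refl (cup_e1 _)
  have h7 := h6 _ (Ch'_single.ge (cf_Z (Int.castRingHom (ZMod p)) hμ).1)
  rw [τ_eq, τ_eq (ZMod p) (D.vtx 0 1), ← bc_cup, bc_cf, ← τ_eq, ← τ_eq] at h7
  have h8 : (Int.castRingHom (ZMod p)) (D.P μ none (D.vtx 0 1)) = 0 :=
    (ZMod.intCast_zmod_eq_zero_iff_dvd _ p).2 (Int.natCast_dvd.2 hd)
  rw [LinearMap.sub_apply, LinearMap.smul_apply, h7.trans h8, smul_zero, sub_zero] at h5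
  exact h1 h5

end Data

end Pool.Agent.Lib.MP_d31521_gt
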