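import Pool.Agent.Lib.MP_d31521_gt.Surf

/-! The resolution is Hausdorff and proper over the singularity. -/

namespace Pool.Agent.Lib.MP_d31521_gt

open Set Topology Pool.Agent.Lib.MP_bf05b2_gt

namespace Data

variable (D : Data)

/-- The value of a character on the ray of a divisor. -/
def hsPr (χ : Fin 3 → ℤ) (s : D.J) : ℤ := ∑ l, χ l * D.ray s l

/-- The character that vanishes on the `j`-th ray of arm `i` and on the last coordinate axis. -/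
def hsChi (i : Fin 3) (j : ℕ) : Fin 3 → ℤ :=
  Pi.single i (D.V i j (i + 1)) - Pi.single (i + 1) (D.V i j i)

variable {D} {i i' : Fin 3} {j j' : ℕ} {z w : D.J → ℂ} {χ : Fin 3 → ℤ}

lemma hs_ne1 : ∀ i : Fin 3, i + 1 ≠ i := by decide

lemma hs_three : ∀ i l : Fin 3, l ≠ i → l = i + 1 ∨ l = i + 2 := by decide

lemma hs_mon (χ : Fin 3 → ℤ) (z : D.J → ℂ) : D.fan.mon χ z = ∏ s, z s ^ D.hsPr χ s := rfl

lemma hsPr_neg (χ : Fin 3 → ℤ) (s : D.J) : D.hsPr (-χ) s = -D.hsPr χ s := by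
  simp [hsPr]

lemma hs_mon_neg (χ : Fin 3 → ℤ) (z : D.J → ℂ) : D.fan.mon (-χ) z = (D.fan.mon χ z)⁻¹ := by
  simp only [hs_mon, hsPr_neg, zpow_neg, Finset.prod_inv_distrib]

lemma hsPr_chi (i : Fin 3) (j : ℕ) (s : D.J) : D.hsPr (D.hsChi i j) s =
    D.V i j (i + 1) * D.ray s i - D.V i j i * D.ray s (i + 1) := by
  simp [hsPr, hsChi, sub_mul, Finset.sum_sub_distrib, Pi.single_apply]

lemma hs_vtx_succ (hj : j ≤ D.k i) :
    D.vtx i (j + 1) = some ⟨i, ⟨j, Nat.lt_succ_of_le hj⟩⟩ := dif_pos (Nat.lt_succ_of_le hj)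

lemma hs_vtx_inj (hj : j ≤ D.k i + 1) (hj' : j' ≤ D.k i' + 1) (h : D.vtx i j = D.vtx i' j') :
    j = j' ∧ (j = 0 ∨ i = i') := by
  rcases j with _ | j <;> rcases j' with _ | j'
  · exact ⟨rfl, Or.inl rfl⟩
  · rw [hs_vtx_succ (by omega)] at h
    cases h
  · rw [hs_vtx_succ (by omega)] at h
    cases h
  · rw [hs_vtx_succ (by omega), hs_vtx_succ (by omega)] at h
    have h1 := Option.some.inj h
    have h2 : i = i' := congrArg Sigma.fst h1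
    have h3 : j = j' := congrArg (fun q : Σ i : Fin 3, Fin (D.k i + 1) => (q.2 : ℕ)) h1
    exact ⟨by omega, Or.inr h2⟩

lemma hs_cases (i : Fin 3) (s : D.J) : (∃ j, j ≤ D.k i + 1 ∧ s = D.vtx i j) ∨
    ∃ l, l ≠ i ∧ ∃ j : Fin (D.k l + 1), s = some ⟨l, j⟩ := by
  rcases s with _ | ⟨l, j⟩
  · exact Or.inl ⟨0, Nat.zero_le _, rfl⟩
  · rcases eq_or_ne l i with rfl | h
    · exact Or.inl ⟨j + 1, j.2, (hs_vtx_succ (Nat.lt_succ_iff.1 j.2)).symm⟩
    · exact Or.inr ⟨l, h, j, rfl⟩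

lemma hs_lt (h : j < j') (hj' : j' ≤ D.k i + 1) : D.m i j < D.m i j' ∧ D.A i j' < D.A i j := by
  induction h with
  | refl => exact ⟨D.m_lt i j (by omega), D.A_lt i j (by omega)⟩
  | step h ih =>
    exact ⟨(ih (by omega)).1.trans (D.m_lt i _ (by omega)),
      (D.A_lt i _ (by omega)).trans (ih (by omega)).2⟩

lemma hs_same (hj : j ≤ D.k i + 1) (hj' : j' ≤ D.k i + 1) :
    (D.al i : ℤ) * D.al (i + 1) * D.hsPr (D.hsChi i j) (D.vtx i j') =
      D.A i j * D.m i j' - D.m i j * D.A i j' := by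
  have a1 := D.wt i j i hj
  have a2 := D.wt i j (i + 1) hj
  have a3 := D.wt i j' i hj'
  have a4 := D.wt i j' (i + 1) hj'
  rw [if_pos rfl] at a1 a3
  rw [if_neg (hs_ne1 i), add_zero] at a2 a4
  rw [hsPr_chi, ray_vtx hj', ← a2, ← a4, eq_sub_of_add_eq' a1.symm, eq_sub_of_add_eq' a3.symm,
    ← a2, ← a4]
  ring

lemma hs_al (i : Fin 3) : 0 < (D.al i : ℤ) * D.al (i + 1) :=
  mul_pos (Int.natCast_pos.2 (D.al_pos _)) (Int.natCast_pos.2 (D.al_pos _))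

lemma hs_pos (h : j < j') (hj' : j' ≤ D.k i + 1) : 0 < D.hsPr (D.hsChi i j) (D.vtx i j') := by
  refine (mul_pos_iff_of_pos_left (hs_al (D := D) i)).1 ?_
  obtain ⟨h1, h2⟩ := hs_lt h hj'
  rw [hs_same (by omega) hj']
  zify at h1 h2
  nlinarith [Int.natCast_nonneg (D.m i j), Int.natCast_nonneg (D.A i j')]

lemma hs_neg (h : j' < j) (hj : j ≤ D.k i + 1) : D.hsPr (D.hsChi i j) (D.vtx i j') < 0 := by
  refine lt_of_mul_lt_mul_left ?_ (hs_al (D := D) i).le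
  obtain ⟨h1, h2⟩ := hs_lt h hj
  rw [hs_same hj (by omega)]
  zify at h1 h2
  nlinarith [Int.natCast_nonneg (D.m i j'), Int.natCast_nonneg (D.A i j)]

lemma hs_self (hj : j ≤ D.k i + 1) : D.hsPr (D.hsChi i j) (D.vtx i j) = 0 := by
  rw [hsPr_chi, ray_vtx hj]
  ring

lemma hs_nonpos (h : j' ≤ j) (hj : j ≤ D.k i + 1) : D.hsPr (D.hsChi i j) (D.vtx i j') ≤ 0 := by
  rcases h.lt_or_eq with h | rfl
  exacts [(hs_neg h hj).le, (hs_self hj).le]

lemma hs_other (hj : j ≤ D.k i + 1) (hj' : j' ≤ D.k i' + 1) (h : i ≠ i') :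
    D.hsPr (D.hsChi i j) (D.vtx i' j') ≤ 0 := by
  refine le_of_mul_le_mul_left ?_ (hs_al (D := D) i)
  have a1 := D.wt i j i hj
  have a2 := D.wt i j (i + 1) hj
  have a3 := D.wt i' j' i hj'
  have a4 : (D.A i' j' : ℤ) ≤ D.al (i + 1) * D.V i' j' (i + 1) := by
    rw [D.wt i' j' (i + 1) hj']
    split_ifs <;> simp
  rw [if_pos rfl] at a1
  rw [if_neg (hs_ne1 i), add_zero] at a2
  rw [if_neg h, add_zero] at a3
  have e : (D.al i : ℤ) * D.al (i + 1) * D.hsPr (D.hsChi i j) (D.vtx i' j') =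
      D.A i j * D.A i' j' - (D.A i j + D.m i j) * (D.al (i + 1) * D.V i' j' (i + 1)) := by
    rw [hsPr_chi, ray_vtx hj', ← a1, ← a2, ← a3]
    ring
  rw [e]
  nlinarith [Int.natCast_nonneg (D.m i j), Int.natCast_nonneg (D.A i j),
    Int.natCast_nonneg (D.A i' j')]

lemma hs_mon_zero {s : D.J} (h : z s = 0) (hs : D.hsPr χ s ≠ 0) : D.fan.mon χ z = 0 :=
  Finset.prod_eq_zero (Finset.mem_univ s) (by
    change z s ^ D.hsPr χ s = 0
    rw [h, zero_zpow _ hs])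

lemma hs_open (χ : Fin 3 → ℤ) (r : ℝ) : ∃ O : Set D.fan.X, IsOpen O ∧ ∀ z ∈ D.fan.U,
    D.fan.cl z ∈ O ↔ (∀ s, D.hsPr χ s < 0 → z s ≠ 0) ∧ ‖D.fan.mon χ z‖ < r := by
  classical
  have hW : ∀ z ∈ D.fan.U, D.fan.cl z ∈ D.fan.W (Finset.univ.filter fun s => 0 ≤ D.hsPr χ s) ↔
      ∀ s, D.hsPr χ s < 0 → z s ≠ 0 := fun z hz => by
    simp [Fan.cl_mem_W hz]
  have hc : ContinuousOn (D.fan.lf (D.fan.mon χ))
      (D.fan.W (Finset.univ.filter fun s => 0 ≤ D.hsPr χ s)) :=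
    Fan.continuousOn_lf (Fan.isOpen_W _) ((Fan.continuousOn_mon χ).mono fun z hz =>
      (hW z hz.1).1 hz.2) fun z _ _ g hg => Fan.mon_mul χ hg z
  refine ⟨_, hc.norm.isOpen_inter_preimage (Fan.isOpen_W _) (isOpen_Iio (a := r)),
    fun z hz => ?_⟩
  rw [mem_inter_iff, hW z hz, mem_preimage, mem_Iio,
    Fan.lf_cl hz fun g hg => Fan.mon_mul χ hg z]

lemma hs_sep (hz : z ∈ D.fan.U) (h : D.Rel z) (hw : w ∈ D.fan.U) (h' : D.Rel w)
    (h1 : ∀ s, z s = 0 → 0 ≤ D.hsPr χ s) (h2 : D.fan.mon χ z = 0)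
    (h3 : ∀ s, w s = 0 → D.hsPr χ s ≤ 0) : ∃ u v : Set D.S, IsOpen u ∧ IsOpen v ∧
      pt hz h ∈ u ∧ pt hw h' ∈ v ∧ Disjoint u v := by
  set r := ‖D.fan.mon (-χ) w‖ + 1 with hr
  have hr0 : 0 < r := by positivity
  obtain ⟨O, o1, o2⟩ := hs_open (D := D) χ r⁻¹
  obtain ⟨O', p1, p2⟩ := hs_open (D := D) (-χ) r
  refine ⟨Subtype.val ⁻¹' O, Subtype.val ⁻¹' O', o1.preimage continuous_subtype_val,
    p1.preimage continuous_subtype_val, (o2 z hz).2 ⟨fun s hs e => absurd (h1 s e) (not_le.2 hs),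
      by rw [h2, norm_zero]; positivity⟩, (p2 w hw).2 ⟨fun s hs e => ?_, by linarith⟩,
    disjoint_left.2 fun x x1 x2 => ?_⟩
  · have := h3 s e
    rw [hsPr_neg] at hs
    omega
  · obtain ⟨y, hy, hy', rfl⟩ := pt_surj x
    obtain ⟨a1, a2⟩ := (o2 y hy).1 x1
    obtain ⟨b1, b2⟩ := (p2 y hy).1 x2
    have c : D.fan.mon χ y ≠ 0 := by
      refine Finset.prod_ne_zero_iff.2 fun s _ => ?_
      change y s ^ D.hsPr χ s ≠ 0
      rcases lt_trichotomy (D.hsPr χ s) 0 with e | e | e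
      · exact zpow_ne_zero _ (a1 s e)
      · rw [e, zpow_zero]
        exact one_ne_zero
      · exact zpow_ne_zero _ (b1 s (by rw [hsPr_neg]; omega))
    rw [hs_mon_neg, norm_inv] at b2
    exact absurd (inv_lt_of_inv_lt₀ (norm_pos_iff.2 c) b2) (not_lt.2 a2.le)

lemma hs_edge (hz : z ∈ D.fan.U) (h : D.Rel z) : ∃ i j, j ≤ D.k i ∧
    ∀ s, z s = 0 → s = D.vtx i j ∨ s = D.vtx i (j + 1) := by
  obtain ⟨i, j, hj, he⟩ := exists_edge (pt hz h)
  refine ⟨i, j, hj, fun s hs => ?_⟩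
  by_contra k
  exact (pt_mem_N hz h s).1 (he s (not_or.1 k).1 (not_or.1 k).2) hs

lemma hs_type (hz : z ∈ D.fan.U) (h : D.Rel z) : (∀ s, z s = 0 → s = none) ∨
    ∃ i j, j ≤ D.k i ∧ z (D.vtx i (j + 1)) = 0 ∧
      ∀ s, z s = 0 → s = D.vtx i j ∨ s = D.vtx i (j + 1) := by
  obtain ⟨i, j, hj, he⟩ := hs_edge hz h
  by_cases h1 : z (D.vtx i (j + 1)) = 0
  · exact Or.inr ⟨i, j, hj, h1, he⟩
  have h2 : ∀ s, z s = 0 → s = D.vtx i j := fun s hs =>
    (he s hs).resolve_right fun e => h1 (e ▸ hs)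
  rcases j with _ | j
  · exact Or.inl h2
  by_cases h3 : z (D.vtx i (j + 1)) = 0
  · exact Or.inr ⟨i, j, by omega, h3, fun s hs => Or.inr (h2 s hs)⟩
  · exact Or.inl fun s hs => absurd (h2 s hs ▸ hs) h3

lemma hs_range (hz : z ∈ D.fan.U) (h : D.Rel z) (hj : j ≤ D.k i)
    (he : ∀ s, z s = 0 → s = D.vtx i j ∨ s = D.vtx i (j + 1)) :
    pt hz h ∈ range (D.ψ ⟨i, ⟨j, Nat.lt_succ_of_le hj⟩⟩) := by
  refine (mem_range_ψ _ _).2 fun s hs => (pt_mem_N hz h s).2 fun e => hs ?_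
  rcases he s e with rfl | rfl
  · exact Finset.mem_image.2 ⟨0, Finset.mem_univ _, rfl⟩
  · exact Finset.mem_image.2 ⟨1, Finset.mem_univ _, rfl⟩

lemma hs_chart {a : D.Ix} {x y : D.S} (hx : x ∈ range (D.ψ a)) (hy : y ∈ range (D.ψ a))
    (hne : x ≠ y) : ∃ u v : Set D.S, IsOpen u ∧ IsOpen v ∧ x ∈ u ∧ y ∈ v ∧ Disjoint u v := by
  obtain ⟨p, rfl⟩ := hx
  obtain ⟨q, rfl⟩ := hy
  exact separated_by_isOpenEmbedding (ψ_emb a) fun e => hne (congrArg _ e)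

lemma hs_sepB (hz : z ∈ D.fan.U) (h : D.Rel z) (hw : w ∈ D.fan.U) (h' : D.Rel w)
    (hj : j ≤ D.k i) (h1 : z (D.vtx i (j + 1)) = 0)
    (h2 : ∀ s, z s = 0 → s = D.vtx i j ∨ s = D.vtx i (j + 1))
    (h3 : ∀ s, w s = 0 → D.hsPr (D.hsChi i j) s ≤ 0) : ∃ u v : Set D.S, IsOpen u ∧ IsOpen v ∧
      pt hz h ∈ u ∧ pt hw h' ∈ v ∧ Disjoint u v := by
  have k := hs_pos (D := D) (i := i) (Nat.lt_succ_self j) (by omega)
  refine hs_sep hz h hw h' (fun s hs => ?_) (hs_mon_zero h1 k.ne') h3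
  rcases h2 s hs with rfl | rfl
  exacts [(hs_self (by omega)).ge, k.le]

lemma hs_swap {x y : D.S}
    (h : ∃ u v : Set D.S, IsOpen u ∧ IsOpen v ∧ x ∈ u ∧ y ∈ v ∧ Disjoint u v) :
    ∃ u v : Set D.S, IsOpen u ∧ IsOpen v ∧ y ∈ u ∧ x ∈ v ∧ Disjoint u v :=
  let ⟨u, v, a, b, c, d, e⟩ := h
  ⟨v, u, b, a, d, c, e.symm⟩

lemma hs_bound {x y : ℂ} {p q : ℤ} (hp : 0 < p) (h1 : 1 / 2 ≤ ‖y‖) (h2 : ‖y‖ ≤ 2)
    (h : ‖x ^ p * y ^ q‖ ≤ 1) : ‖x‖ ≤ 2 ^ q.natAbs := by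
  have k1 : 1 ≤ ‖y‖ ^ q * 2 ^ q.natAbs := by
    obtain ⟨n, rfl | rfl⟩ := q.eq_nat_or_neg
    · rw [zpow_natCast, Int.natAbs_natCast, ← mul_pow]
      exact one_le_pow₀ (by linarith)
    · rw [zpow_neg, zpow_natCast, Int.natAbs_neg, Int.natAbs_natCast,
        le_inv_mul_iff₀ (pow_pos (by linarith) n), mul_one]
      exact pow_le_pow_left₀ (norm_nonneg _) h2 n
  rcases le_total ‖x‖ 1 with k | k
  · exact k.trans (one_le_pow₀ one_le_two)
  · rw [norm_mul, norm_zpow, norm_zpow] at h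
    have k2 : ‖x‖ ≤ ‖x‖ ^ p := by simpa using zpow_le_zpow_right₀ k (show 1 ≤ p by omega)
    have k3 := mul_le_mul_of_nonneg_left k1 ((norm_nonneg x).trans k2)
    have k4 := mul_le_mul_of_nonneg_right h (by positivity : (0 : ℝ) ≤ 2 ^ q.natAbs)
    linarith [mul_assoc (‖x‖ ^ p) (‖y‖ ^ q) (2 ^ q.natAbs)]

lemma hs_mon_sec (hj : j ≤ D.k i) (χ : Fin 3 → ℤ) (u : Fin 3 → ℂ) :
    D.fan.mon χ (Fan.sec (D.e i j) u) = u 0 ^ D.hsPr χ (D.vtx i j) *
      u 1 ^ D.hsPr χ (D.vtx i (j + 1)) * u 2 ^ D.hsPr χ (D.vtx (i + 1) 1) := by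
  rw [hs_mon, (isChart hj).prod_split, Finset.prod_eq_one (s := _ᶜ) fun s hs => by
    rw [Fan.sec_not u (Finset.mem_compl.1 hs), one_zpow]]
  simp only [(isChart hj).sec_e, Fin.prod_univ_three, mul_one]
  rfl

lemma hs_Mo_zero {l : Fin 3} : D.Mo l z = 0 ↔ ∃ j : Fin (D.k l + 1), z (some ⟨l, j⟩) = 0 := by
  rw [Mo, Finset.prod_eq_zero_iff]
  refine exists_congr fun j => ?_
  have : D.m l (j + 1) ≠ 0 := (Nat.zero_lt_of_lt (D.m_lt l j (Nat.lt_succ_iff.1 j.2))).ne'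
  simp [this]

lemma hs_arm (hz : z ∈ D.fan.U) (h : D.Rel z) {l l' : Fin 3} (h1 : D.Mo l z = 0)
    (h2 : D.Mo l' z = 0) : l = l' := by
  obtain ⟨i, j, hj, he⟩ := hs_edge hz h
  have key : ∀ l, D.Mo l z = 0 → l = i := fun l hl => by
    obtain ⟨t, ht⟩ := hs_Mo_zero.1 hl
    have e : D.vtx l (t + 1) = some ⟨l, t⟩ := hs_vtx_succ (Nat.lt_succ_iff.1 t.2)
    rcases he _ ht with k | k <;> rw [← e] at k
    · exact (hs_vtx_inj t.2 (by omega) k).2.resolve_left (by omega)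
    · exact (hs_vtx_inj t.2 (by omega) k).2.resolve_left (by omega)
  rw [key l h1, key l' h2]

lemma hs_index (hz : z ∈ D.fan.U) (h : D.Rel z) (h1 : D.Mo (i + 1) z ≠ 0)
    (h2 : D.Mo (i + 2) z ≠ 0) (hf : ‖D.f (pt hz h) (i + 1)‖ ≤ 1) : ∃ j, j ≤ D.k i ∧
      (∀ s, z s = 0 → s = D.vtx i j ∨ s = D.vtx i (j + 1)) ∧
      (j = 0 ∨ ‖D.fan.mon (D.hsChi i j) z‖ ≤ 1) ∧ ‖D.fan.mon (-D.hsChi i (j + 1)) z‖ ≤ 1 := by
  classical
  set P : ℕ → Prop := fun j => (∀ t < j, z (D.vtx i t) ≠ 0) ∧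
    (j = 0 ∨ ‖D.fan.mon (D.hsChi i j) z‖ ≤ 1) with hP
  have hj := Nat.findGreatest_le (P := P) (D.k i)
  have p1 : P (Nat.findGreatest P (D.k i)) :=
    Nat.findGreatest_spec (Nat.zero_le _) ⟨fun t ht => absurd ht (Nat.not_lt_zero t), Or.inl rfl⟩
  have p2 : Nat.findGreatest P (D.k i) + 1 ≤ D.k i → ¬P (Nat.findGreatest P (D.k i) + 1) :=
    Nat.findGreatest_is_greatest (Nat.lt_succ_self _)
  generalize Nat.findGreatest P (D.k i) = j at hj p1 p2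
  refine ⟨j, hj, fun s hs => ?_, p1.2, ?_⟩
  · rcases hs_cases i s with ⟨t, ht, rfl⟩ | ⟨l, hl, t, rfl⟩
    · have a1 : j ≤ t := not_lt.1 fun e => p1.1 t e hs
      by_contra a2
      have a3 : j + 1 < t := by
        rcases a1.lt_or_eq with e | rfl
        · exact lt_of_le_of_ne e fun e' => a2 (Or.inr (by rw [e']))
        · exact absurd (Or.inl rfl) a2
      refine p2 (by omega) ⟨fun t' ht' e => ?_, Or.inr ?_⟩
      · obtain ⟨i₀, j₀, hj₀, he⟩ := hs_edge hz h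
        rcases he _ hs with b | b <;> rcases he _ e with c | c <;>
          have b' := (hs_vtx_inj ht (by omega) b).1 <;>
          have c' := (hs_vtx_inj (by omega) (by omega) c).1 <;> omega
      · rw [hs_mon_zero hs (hs_pos a3 ht).ne', norm_zero]
        exact zero_le_one
    · rcases hs_three i l hl with rfl | rfl
      exacts [absurd (hs_Mo_zero.2 ⟨t, hs⟩) h1, absurd (hs_Mo_zero.2 ⟨t, hs⟩) h2]
  · rcases hj.lt_or_eq with e | rfl
    · by_cases a : z (D.vtx i j) = 0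
      · rw [hs_mon_zero a (by
          rw [hsPr_neg]
          exact neg_ne_zero.2 (hs_neg (Nat.lt_succ_self j) (by omega)).ne), norm_zero]
        exact zero_le_one
      · rw [hs_mon_neg, norm_inv]
        refine inv_le_one_of_one_le₀ (not_lt.1 fun b => p2 e ⟨fun t ht => ?_, Or.inr b.le⟩)
        rcases (Nat.lt_succ_iff.1 ht).lt_or_eq with c | rfl
        exacts [p1.1 t c, a]
    · rw [f_pt] at hf
      rw [hs_mon]
      simpa [hsPr_neg, hsPr_chi, D.Vend, hs_ne1 i] using hf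

lemma hs_ball (hz : z ∈ D.fan.U) (h : D.Rel z) (hρ : D.ρ (pt hz h) ≤ 1) :
    ∃ a : D.Ix, pt hz h ∈ D.ψ a '' Metric.closedBall 0
      (2 ^ (D.hsPr (D.hsChi a.1 a.2) (D.vtx (a.1 + 1) 1)).natAbs +
        2 ^ (D.hsPr (-D.hsChi a.1 (a.2 + 1)) (D.vtx (a.1 + 1) 1)).natAbs) := by
  obtain ⟨i, -, hi⟩ := Finset.exists_min_image Finset.univ (fun l => ‖D.Mo l z‖)
    Finset.univ_nonempty
  have n1 : ∀ l, l ≠ i → D.Mo l z ≠ 0 := fun l hl e => hl (hs_arm hz h e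
    (norm_le_zero_iff.1 (by simpa [e] using hi l (Finset.mem_univ _))))
  have hf : ‖D.f (pt hz h) (i + 1)‖ ≤ 1 := by
    rw [ρ] at hρ
    refine (pow_le_one_iff_of_nonneg (norm_nonneg _) two_ne_zero).1 (le_trans ?_ hρ)
    have a0 := sq_nonneg ‖D.f (pt hz h) 0‖
    have a1 := sq_nonneg ‖D.f (pt hz h) 1‖
    have a2 := sq_nonneg ‖D.f (pt hz h) 2‖
    generalize i + 1 = l
    fin_cases l <;> simp only [Fin.zero_eta, Fin.mk_one, Fin.reduceFinMk] <;> linarith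
  obtain ⟨j, hj, he, b1, b2⟩ := hs_index hz h (n1 _ (hs_ne1 i))
    (n1 _ ((by decide : ∀ i : Fin 3, i + 2 ≠ i) i)) hf
  obtain ⟨u, hu⟩ := hs_range hz h hj he
  refine ⟨⟨i, ⟨j, Nat.lt_succ_of_le hj⟩⟩, u, ?_, hu⟩
  obtain ⟨g, hg, rfl⟩ := (Fan.cl_eq_iff hz ((isChart hj).sec_mem (D.ext i j u))).1
    (congrArg Subtype.val hu).symm
  obtain ⟨c, hc, hM⟩ := Mo_mul hg
  obtain ⟨m0, m1, m2⟩ := Mo_sec hj (D.ext i j u)
  have c1 := hi (i + 1) (Finset.mem_univ _)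
  have c2 := hi (i + 2) (Finset.mem_univ _)
  simp only [hM, norm_mul, mul_le_mul_iff_right₀ (norm_pos_iff.2 hc)] at c1 c2
  have hr := (rel_iff i).1 (rel_sec hj u)
  rw [m1] at c1 hr
  rw [m2] at c2 hr
  rw [norm_one] at c2
  have d1 : 1 / 2 ≤ ‖D.ext i j u 2‖ := by
    have := norm_add_le (D.Mo i (Fan.sec (D.e i j) (D.ext i j u))) (D.ext i j u 2)
    rw [eq_neg_of_add_eq_zero_left hr, norm_neg, norm_one] at this
    linarith
  have d2 : ‖D.ext i j u 2‖ ≤ 2 := by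
    have := norm_add_le (D.Mo i (Fan.sec (D.e i j) (D.ext i j u))) 1
    rw [show D.Mo i (Fan.sec (D.e i j) (D.ext i j u)) + 1 = -D.ext i j u 2 by
      linear_combination hr, norm_neg, norm_one] at this
    linarith
  rw [Fan.mon_mul _ hg, hs_mon_sec hj] at b1 b2
  rw [hsPr_neg _ (D.vtx i (j + 1)), hs_self (by omega), neg_zero, zpow_zero, mul_one] at b2
  have e0 : ‖u 0‖ ≤ _ := hs_bound (by
    rw [hsPr_neg]
    exact neg_pos.2 (hs_neg (Nat.lt_succ_self j) (by omega))) d1 d2 b2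
  have e1 : ‖u 1‖ ≤ 2 ^ (D.hsPr (D.hsChi i j) (D.vtx (i + 1) 1)).natAbs := by
    rcases b1 with rfl | b1
    · rw [m0, D.m0, D.m1, pow_zero, pow_one, one_mul] at c2
      exact c2.trans (one_le_pow₀ one_le_two)
    · rw [hs_self (by omega), zpow_zero, one_mul] at b1
      exact hs_bound (hs_pos (Nat.lt_succ_self j) (by omega)) d1 d2 b1
  refine mem_closedBall_zero_iff.2 ((pi_norm_le_iff_of_nonneg (by positivity)).2 fun t => ?_)
  fin_cases t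
  · exact e0.trans (le_add_of_nonneg_left (by positivity))
  · exact e1.trans (le_add_of_nonneg_right (by positivity))

variable (D)

theorem t2 : T2Space D.S := by
  refine ⟨fun x y hne => ?_⟩
  obtain ⟨z, hz, h, rfl⟩ := pt_surj x
  obtain ⟨w, hw, h', rfl⟩ := pt_surj y
  rcases hs_type hz h with a | ⟨i, j, hj, a1, a2⟩ <;>
    rcases hs_type hw h' with b | ⟨i', j', hj', b1, b2⟩
  · exact hs_chart (hs_range (i := 0) hz h (Nat.zero_le _) fun s hs => Or.inl (a s hs))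
      (hs_range hw h' (Nat.zero_le _) fun s hs => Or.inl (b s hs)) hne
  · refine hs_swap (hs_sepB hw h' hz h hj' b1 b2 fun s hs => ?_)
    rw [a s hs]
    exact hs_nonpos (Nat.zero_le _) (by omega)
  · refine hs_sepB hz h hw h' hj a1 a2 fun s hs => ?_
    rw [b s hs]
    exact hs_nonpos (Nat.zero_le _) (by omega)
  · rcases eq_or_ne i i' with rfl | hi
    · rcases lt_trichotomy j j' with e | rfl | e
      · refine hs_swap (hs_sepB hw h' hz h hj' b1 b2 fun s hs => ?_)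
        rcases a2 s hs with rfl | rfl <;> exact hs_nonpos (by omega) (by omega)
      · exact hs_chart (hs_range hz h hj a2) (hs_range hw h' hj b2) hne
      · refine hs_sepB hz h hw h' hj a1 a2 fun s hs => ?_
        rcases b2 s hs with rfl | rfl <;> exact hs_nonpos (by omega) (by omega)
    · refine hs_sepB hz h hw h' hj a1 a2 fun s hs => ?_
      rcases b2 s hs with rfl | rfl <;> exact hs_other (by omega) (by omega) hi

theorem isCompact_sub : IsCompact {x : D.S | D.ρ x ≤ 1} := by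
  refine (isCompact_iUnion fun a : D.Ix => (isCompact_closedBall (0 : Fin 2 → ℂ)
    (2 ^ (D.hsPr (D.hsChi a.1 a.2) (D.vtx (a.1 + 1) 1)).natAbs +
      2 ^ (D.hsPr (-D.hsChi a.1 (a.2 + 1)) (D.vtx (a.1 + 1) 1)).natAbs)).image
    (ψ_emb a).continuous).of_isClosed_subset (isClosed_le continuous_ρ continuous_const)
    fun x hx => ?_
  obtain ⟨z, hz, h, rfl⟩ := pt_surj x
  exact mem_iUnion.2 (hs_ball hz h hx)

end Data

end Pool.Agent.Lib.MP_d31521_gt
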