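import Pool.Agent.Lib.MP_d31521_gt.Data

/-! The family of Brieskorn spheres whose resolution has the form `m (-E₈)`. -/

namespace Pool.Agent.Lib.MP_d31521_gt

/-- The solution of the recurrence with given initial values. -/
def sq (a : ℕ → ℤ) (x y : ℤ) : ℕ → ℤ
  | 0 => x
  | 1 => y
  | j + 2 => a j * sq a x y (j + 1) - sq a x y j

theorem sq_succ (a : ℕ → ℤ) (x y : ℤ) (j : ℕ) :
    sq a x y (j + 2) = a j * sq a x y (j + 1) - sq a x y j := rfl

theorem sq_lin (a : ℕ → ℤ) (c d e x y x' y' x'' y'' : ℤ) (h0 : c * x = d * x' + e * x'')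
    (h1 : c * y = d * y' + e * y'') (j : ℕ) :
    c * sq a x y j = d * sq a x' y' j + e * sq a x'' y'' j := by
  induction j using Nat.twoStepInduction with
  | zero => exact h0
  | one => exact h1
  | more j h2 h3 => simp only [sq_succ]; linear_combination a j * h3 - h2

theorem sq_wr (a : ℕ → ℤ) (x y x' y' : ℤ) (j : ℕ) :
    sq a x y j * sq a x' y' (j + 1) - sq a x y (j + 1) * sq a x' y' j = x * y' - y * x' := by
  induction j with
  | zero => rfl
  | succ j ih => simp only [sq_succ]; linear_combination ih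

theorem sq_inc {a : ℕ → ℤ} (ha : ∀ j, 2 ≤ a j) (j : ℕ) :
    0 ≤ sq a 0 1 j ∧ sq a 0 1 j < sq a 0 1 (j + 1) := by
  induction j with
  | zero => exact ⟨le_rfl, zero_lt_one⟩
  | succ j ih =>
    refine ⟨by omega, ?_⟩
    rw [sq_succ]
    nlinarith [ha j, ih.1, ih.2]

theorem sq_dec {a : ℕ → ℤ} (ha : ∀ j, 2 ≤ a j) {x y : ℤ} {k : ℕ} (h0 : sq a x y (k + 1) = 0)
    (h1 : sq a x y k = 1) {j : ℕ} (hj : j ≤ k) :
    0 ≤ sq a x y (j + 1) ∧ sq a x y (j + 1) < sq a x y j := by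
  induction hj using Nat.decreasingInduction with
  | self => omega
  | of_succ j _ ih =>
    refine ⟨by omega, ?_⟩
    have := sq_succ a x y j
    nlinarith [ha j, ih.1, ih.2]

theorem det_one {al x y z : Fin 3 → ℤ} (hal : ∀ l, al l ≠ 0) (i : Fin 3) {A B C m n : ℤ}
    (hx : ∀ l, al l * x l = A + if l = i then m else 0)
    (hy : ∀ l, al l * y l = B + if l = i then n else 0)
    (hz : ∀ l, al l * z l = C + if l = i + 1 then 1 else 0)
    (h : A * n - B * m = al 0 * al 1 * al 2) :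
    ∃ M : Fin 3 → Fin 3 → ℤ, ∀ s t : Fin 3,
      ∑ l, M s l * (![x, y, z] t) l = if s = t then 1 else 0 := by
  let N : Matrix (Fin 3) (Fin 3) ℤ := Matrix.of fun l t => (![x, y, z] t) l
  have hN : N.det = 1 := by
    refine mul_left_cancel₀ (mul_ne_zero (mul_ne_zero (hal 0) (hal 1)) (hal 2)) ?_
    have e : al 0 * al 1 * al 2 * N.det =
        (al 0 * x 0) * (al 1 * y 1) * (al 2 * z 2) - (al 0 * x 0) * (al 1 * z 1) * (al 2 * y 2)
        - (al 0 * y 0) * (al 1 * x 1) * (al 2 * z 2) + (al 0 * y 0) * (al 1 * z 1) * (al 2 * x 2)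
        + (al 0 * z 0) * (al 1 * x 1) * (al 2 * y 2)
        - (al 0 * z 0) * (al 1 * y 1) * (al 2 * x 2) := by
      rw [Matrix.det_fin_three]
      simp [N]
      ring
    rw [e, mul_one, ← h]
    simp only [hx, hy, hz]
    fin_cases i <;> simp <;> ring
  refine ⟨N.adjugate, fun s t => ?_⟩
  have := congrFun (congrFun (Matrix.adjugate_mul N) s) t
  rw [hN, one_smul, Matrix.one_apply, Matrix.mul_apply] at this
  exact this

theorem mk_data (k : Fin 3 → ℕ) (a : Fin 3 → ℕ → ℤ) (b : ℤ) (al om : Fin 3 → ℤ)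
    (hk : ∀ i, 1 ≤ k i) (ha : ∀ i j, 2 ≤ a i j) (hal : ∀ i, sq (a i) 0 1 (k i + 1) = al i)
    (hom : ∀ i, sq (a i) 1 0 (k i + 1) = -om i)
    (hs : b * al 0 * al 1 * al 2 - om 0 * al 1 * al 2 - om 1 * al 2 * al 0 -
      om 2 * al 0 * al 1 = 1) :
    ∃ D : Data, D.k = k ∧ D.a = a ∧ D.b = b ∧ ∀ i, (D.al i : ℤ) = al i := by
  have hpos : ∀ i, 0 < al i := fun i => by
    have := sq_inc (ha i) (k i)
    rw [hal] at this
    omega
  let n : Fin 3 → ℕ → ℤ := fun i => sq (a i) (al i) (om i)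
  let c : Fin 3 → ℤ := fun i => al (i + 1) * al (i + 2)
  let W : Fin 3 → Fin 3 → ℤ :=
    ![![b * c 0 - om 1 * al 2 - om 2 * al 1, om 0 * al 2, om 0 * al 1],
      ![om 1 * al 2, b * c 1 - om 2 * al 0 - om 0 * al 2, om 1 * al 0],
      ![om 2 * al 1, om 2 * al 0, b * c 2 - om 0 * al 1 - om 1 * al 0]]
  let V : Fin 3 → ℕ → Fin 3 → ℤ := fun i j l => sq (a i) (c l) (W i l) j
  have hc : ∀ i, 0 < c i := fun i => mul_pos (hpos _) (hpos _)
  have hcal : ∀ i, c i * al i = al 0 * al 1 * al 2 := fun i => by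
    fin_cases i <;> simp [c] <;> ring
  have hn : ∀ i j, n i j = al i * sq (a i) 1 0 j + om i * sq (a i) 0 1 j := fun i j => by
    have := sq_lin (a i) 1 (al i) (om i) (al i) (om i) 1 0 0 1 (by ring) (by ring) j
    rwa [one_mul] at this
  have hn0 : ∀ i, n i (k i + 1) = 0 := fun i => by rw [hn, hal, hom]; ring
  have hn1 : ∀ i, n i (k i) = 1 := fun i => by
    have := sq_wr (a i) 1 0 0 1 (k i)
    rw [hal, hom] at this
    rw [hn]
    linear_combination this
  have hdec := fun i j (hj : j ≤ k i) => sq_dec (ha i) (hn0 i) (hn1 i) hj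
  have hnn : ∀ i j, j ≤ k i + 1 → 0 ≤ n i j * c i := fun i j hj => by
    refine mul_nonneg ?_ (hc i).le
    rcases j with _ | j
    · exact (hpos i).le
    · exact (hdec i j (by omega)).1
  have hwt : ∀ i j l, al l * V i j l = n i j * c i + if l = i then sq (a i) 0 1 j else 0 := by
    intro i j l
    have := sq_lin (a i) (al l) (c i) (if l = i then 1 else 0) (c l) (W i l) (al i) (om i) 0 1
      (by rw [mul_zero, add_zero, hcal, mul_comm, hcal]) (by
        fin_cases i <;> fin_cases l <;> simp [W, c] <;> first | ring1 | linear_combination hs) j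
    rw [ite_mul, one_mul, zero_mul, mul_comm (c i)] at this
    exact this
  refine ⟨{ k := k
            al := fun i => (al i).toNat
            b := b
            a := a
            V := V
            m := fun i j => (sq (a i) 0 1 j).toNat
            A := fun i j => (n i j * c i).toNat
            k_pos := hk
            al_pos := fun i => by have := hpos i; omega
            V0 := fun i => rfl
            Vend := fun i => funext fun l => mul_left_cancel₀ (hpos l).ne' ?_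
            Vrec := fun i j _ => funext fun l => by simp [V, sq_succ]
            Vsum := funext fun l => by fin_cases l <;> simp [V, sq, W] <;> ring
            wt := fun i j l hj => ?_
            m0 := fun i => rfl
            m1 := fun i => rfl
            m_lt := fun i j _ => by have := sq_inc (ha i) j; omega
            A_lt := fun i j hj => ?_
            dual := fun i j hj => ?_ }, rfl, rfl, rfl,
    fun i => Int.toNat_of_nonneg (hpos i).le⟩
  · rw [hwt, hn0, hal, Pi.single_apply]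
    split_ifs with h <;> simp [h]
  · rw [Int.toNat_of_nonneg (hpos l).le, Int.toNat_of_nonneg (hnn i j hj),
      Int.toNat_of_nonneg (sq_inc (ha i) j).1, hwt]
  · have h1 := hnn i (j + 1) (by omega)
    have h2 : n i (j + 1) * c i < n i j * c i :=
      mul_lt_mul_of_pos_right (hdec i j hj).2 (hc i)
    omega
  · refine det_one (fun l => (hpos l).ne') i (hwt i j) (hwt i (j + 1)) (hwt (i + 1) 1) ?_
    have := sq_wr (a i) (al i) (om i) 0 1 j
    rw [← hcal i]
    simp only [n]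
    linear_combination c i * this

/-- The weights of the family. -/
def fa (i : Fin 3) (j : ℕ) : ℤ :=
  if i = 0 then 2 else if i = 1 then (if j = 0 then 2 else 16)
    else (if (j + 3) % 7 = 0 then 4 else 2)

/-- The auxiliary sequence. -/
def fU : ℕ → ℤ := sq (fun _ => 16) 0 1

theorem fU_succ (n : ℕ) : fU (n + 2) = 16 * fU (n + 1) - fU n := rfl

theorem fU_norm (n : ℕ) : fU (n + 1) ^ 2 - 16 * fU (n + 1) * fU n + fU n ^ 2 = 1 := by
  induction n with
  | zero => rfl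
  | succ n ih => rw [fU_succ]; linear_combination ih

theorem arm1 (x y : ℤ) (n : ℕ) :
    sq (fa 1) x y (n + 2) = (2 * y - x) * fU (n + 1) - y * fU n ∧
      sq (fa 1) x y (n + 1) = y * fU (n + 1) - (14 * y + x) * fU n := by
  induction n with
  | zero => simp [sq, fa, fU]
  | succ n ih =>
    have h : fa 1 (n + 1) = 16 := by simp [fa]
    rw [sq_succ, h, ih.1, ih.2, fU_succ]
    constructor <;> ring

theorem arm2 (x y : ℤ) (n : ℕ) :
    sq (fa 2) x y (7 * n + 5) = (5 * y - 4 * x) * fU (n + 1) + (2 * y - 3 * x) * fU n ∧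
      sq (fa 2) x y (7 * n + 4) = (4 * y - 3 * x) * fU (n + 1) + (7 * y - 10 * x) * fU n := by
  induction n with
  | zero => simp [sq, fa, fU]; constructor <;> ring
  | succ n ih =>
    have h : ∀ j, fa 2 j = if (j + 3) % 7 = 0 then 4 else 2 := fun j => by simp [fa]
    have h0 := sq_succ (fa 2) x y (7 * n + 4)
    have h1 := sq_succ (fa 2) x y (7 * n + 5)
    have h2 := sq_succ (fa 2) x y (7 * n + 6)
    have h3 := sq_succ (fa 2) x y (7 * n + 7)
    have h4 := sq_succ (fa 2) x y (7 * n + 8)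
    have h5 := sq_succ (fa 2) x y (7 * n + 9)
    have h6 := sq_succ (fa 2) x y (7 * n + 10)
    rw [h, if_pos (by omega)] at h0
    rw [h, if_neg (by omega)] at h1 h2 h3 h4 h5 h6
    rw [show 7 * (n + 1) + 5 = 7 * n + 10 + 2 by ring, show 7 * (n + 1) + 4 = 7 * n + 9 + 2 by ring,
      fU_succ]
    simp only [add_assoc, Nat.reduceAdd] at *
    constructor
    · linear_combination h6 + 2 * h5 + 3 * h4 + 4 * h3 + 5 * h2 + 6 * h1 + 7 * h0 +
        22 * ih.1 - 7 * ih.2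
    · linear_combination h5 + 2 * h4 + 3 * h3 + 4 * h2 + 5 * h1 + 6 * h0 + 19 * ih.1 - 6 * ih.2

/-- Components of the rows in the own block. -/
def xv (τ : ℕ) : Fin 8 → ℤ :=
  if τ = 8 then ![1, 0, 0, 0, 0, 0, 0, 0] else if τ = 9 then ![-2, 1, -1, 0, 0, 0, 0, 0]
    else fun s => if (s : ℕ) = τ then 1 else 0

/-- Components of the rows in the previous block. -/
def yv (τ : ℕ) : Fin 8 → ℤ :=
  if τ = 8 then ![2, 3, 4, 6, 5, 4, 3, 2] else if τ = 9 then ![5, 8, 10, 15, 12, 9, 6, 3] else 0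

/-- The form. -/
def dt (x y : Fin 8 → ℤ) : ℤ := ∑ r, (∑ s, x s * CartanMatrix.E₈ s r) * y r

/-- A vector in one block. -/
def blk (m t d : ℕ) (x : Fin 8 → ℤ) : Fin 8 × Fin m → ℤ :=
  fun p => if (p.2 : ℕ) + d = t then x p.1 else 0

/-- The rows. -/
def row (m t τ : ℕ) : Fin 8 × Fin m → ℤ := blk m t 0 (xv τ) - blk m t 1 (yv τ)

theorem blk_form {m t d t' d' : ℕ} (x y : Fin 8 → ℤ) (ht : t < m + d) :
    Matrix.vecMul (blk m t d x) (sumE8 m) ⬝ᵥ blk m t' d' y =
      if d ≤ t ∧ t + d' = t' + d then dt x y else 0 := by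
  have h1 : ∀ p : Fin 8 × Fin m, Matrix.vecMul (blk m t d x) (sumE8 m) p =
      if (p.2 : ℕ) + d = t then ∑ s, x s * CartanMatrix.E₈ s p.1 else 0 := by
    intro p
    simp only [Matrix.vecMul, dotProduct, sumE8, Fintype.sum_prod_type,
      Matrix.blockDiagonal_apply, blk, mul_ite, mul_zero, Finset.sum_ite_eq', Finset.mem_univ,
      if_true]
    split_ifs <;> simp
  simp only [dotProduct, h1, blk, Fintype.sum_prod_type_right]
  split_ifs with h
  · rw [Finset.sum_eq_single (⟨t - d, by omega⟩ : Fin m)]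
    · simp only [if_pos (show t - d + d = t by omega), if_pos (show t - d + d' = t' by omega), dt]
    · intro u _ hu
      have : (u : ℕ) + d ≠ t := fun e => hu (Fin.ext (by simp only; omega))
      simp [this]
    · simp
  · refine Finset.sum_eq_zero fun u _ => Finset.sum_eq_zero fun r _ => ?_
    split_ifs <;> omega

/-- The table of products inside a block. -/
def tS (τ τ' : ℕ) : ℤ :=
  if τ = τ' then (if τ = 8 then 4 else if τ = 9 then 16 else 2)
  else if τ + τ' = 10 ∧ (τ = 1 ∨ τ = 9) ∨ τ + τ' = 8 ∧ (τ = 0 ∨ τ = 8) then 2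
  else if τ + τ' = 9 ∧ (τ = 0 ∨ τ = 9) then -3
  else if τ + τ' = 2 ∨ τ + τ' = 4 ∧ (τ = 1 ∨ τ = 3) ∨ τ + τ' = 10 ∧ (τ = 2 ∨ τ = 8) ∨
    (τ + 1 = τ' ∨ τ' + 1 = τ) ∧ 2 ≤ τ ∧ 2 ≤ τ' ∧ τ ≤ 7 ∧ τ' ≤ 7 then -1 else 0

/-- The table of products of neighbouring blocks. -/
def tX (τ τ' : ℕ) : ℤ := if τ' = 8 ∧ τ = 7 ∨ τ' = 9 ∧ (τ = 1 ∨ τ = 9) then 1 else 0

theorem tab : ∀ τ < 10, ∀ τ' < 10, dt (xv τ) (xv τ') + dt (yv τ) (yv τ') = tS τ τ' ∧
    dt (xv τ) (yv τ') = tX τ τ' ∧ dt (yv τ) (xv τ') = tX τ' τ ∧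
    (τ < 8 → dt (yv τ) (yv τ') = 0) := by
  decide +kernel

theorem row_form {m t τ t' τ' : ℕ} (ht : t < m) (hτ : τ < 10) (hτ' : τ' < 10)
    (h0 : t = 0 → τ < 8) :
    Matrix.vecMul (row m t τ) (sumE8 m) ⬝ᵥ row m t' τ' =
      if t = t' then tS τ τ' else if t + 1 = t' then -tX τ τ'
        else if t' + 1 = t then -tX τ' τ else 0 := by
  obtain ⟨h1, h2, h3, h4⟩ := tab τ hτ τ' hτ'
  simp only [row, Matrix.sub_vecMul, sub_dotProduct, dotProduct_sub]
  rw [blk_form _ _ (by omega), blk_form _ _ (by omega), blk_form _ _ (by omega),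
    blk_form _ _ (by omega), h2, h3, ← h1]
  split_ifs <;> omega

/-- The block of a vertex. -/
def ft (i : Fin 3) (j : ℕ) : ℕ := if i = 0 then 0 else if i = 1 then j else (j + 3) / 7

/-- The type of a vertex. -/
def fτ (i : Fin 3) (j : ℕ) : ℕ :=
  if i = 0 then (if j = 0 then 2 else 0) else if i = 1 then (if j = 0 then 1 else 9)
    else (if (j + 3) % 7 = 0 then 8 else (j + 3) % 7 + 1)

/-- The description of the vertices. -/
def Sp (n i j t τ : ℕ) (a : ℤ) : Prop :=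
  i = 0 ∧ t = 0 ∧ a = 2 ∧ (j = 0 ∧ τ = 2 ∨ j = 1 ∧ τ = 0) ∨
  i = 1 ∧ t = j ∧ j ≤ n ∧ (j = 0 ∧ τ = 1 ∧ a = 2 ∨ j ≠ 0 ∧ τ = 9 ∧ a = 16) ∨
  i = 2 ∧ j < 7 * n + 4 ∧
    (j + 3 = 7 * t ∧ τ = 8 ∧ a = 4 ∨ j + 4 = 7 * t + τ ∧ a = 2 ∧
      (τ = 2 ∨ τ = 3 ∨ τ = 4 ∨ τ = 5 ∨ τ = 6 ∨ τ = 7))

theorem sp_vtx (n : ℕ) (i : Fin 3) (j : ℕ) (h : j < ![2, n + 1, 7 * n + 4] i) :
    Sp n i j (ft i j) (fτ i j) (fa i j) := by
  fin_cases i <;> simp [Sp, ft, fτ, fa] at h ⊢
  · omega
  · omega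
  · split_ifs <;> omega

theorem sp_gram {n i j t τ i' j' t' τ' : ℕ} {a a' : ℤ} (h : Sp n i j t τ a)
    (h' : Sp n i' j' t' τ' a') :
    (if t = t' then tS τ τ' else if t + 1 = t' then -tX τ τ'
      else if t' + 1 = t then -tX τ' τ else 0) =
    -(if i = i' then (if j = j' then -a else if j + 1 = j' ∨ j' + 1 = j then 1 else 0) else 0) := by
  rcases h with ⟨rfl, rfl, rfl, ⟨rfl, rfl⟩ | ⟨rfl, rfl⟩⟩ | ⟨rfl, rfl, _, ⟨rfl, rfl, rfl⟩ |
    ⟨_, rfl, rfl⟩⟩ | ⟨rfl, _, ⟨_, rfl, rfl⟩ | ⟨_, rfl, rfl | rfl | rfl | rfl | rfl | rfl⟩⟩ <;>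
  rcases h' with ⟨rfl, rfl, rfl, ⟨rfl, rfl⟩ | ⟨rfl, rfl⟩⟩ | ⟨rfl, rfl, _, ⟨rfl, rfl, rfl⟩ |
    ⟨_, rfl, rfl⟩⟩ | ⟨rfl, _, ⟨_, rfl, rfl⟩ | ⟨_, rfl, rfl | rfl | rfl | rfl | rfl | rfl⟩⟩ <;>
  simp [tS, tX] <;> (try split_ifs) <;> omega

theorem sp_centre {n i j t τ : ℕ} {a : ℤ} (h : Sp n i j t τ a) :
    (t < n + 1 ∧ τ < 10 ∧ (t = 0 → τ < 8)) ∧
    (if 0 = t then tS 3 τ else if 0 + 1 = t then -tX 3 τ
      else if t + 1 = 0 then -tX τ 3 else 0) = -(if j = 0 then 1 else 0) ∧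
    (if t = 0 then tS τ 3 else if t + 1 = 0 then -tX τ 3
      else if 0 + 1 = t then -tX 3 τ else 0) = -(if j = 0 then 1 else 0) := by
  rcases h with ⟨rfl, rfl, rfl, ⟨rfl, rfl⟩ | ⟨rfl, rfl⟩⟩ | ⟨rfl, rfl, _, ⟨rfl, rfl, rfl⟩ |
    ⟨_, rfl, rfl⟩⟩ | ⟨rfl, _, ⟨_, rfl, rfl⟩ | ⟨_, rfl, rfl | rfl | rfl | rfl | rfl | rfl⟩⟩ <;>
  simp [tS, tX] <;> (try split_ifs) <;> omega

theorem row_span {m : ℕ} (S : Submodule ℤ (Fin 8 × Fin m → ℤ))
    (h0 : ∀ τ < 8, row m 0 τ ∈ S)
    (h1 : ∀ t, t + 1 < m → ∀ τ, 2 ≤ τ → τ < 10 → row m (t + 1) τ ∈ S) (t : ℕ) (ht : t < m)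
    (x : Fin 8 → ℤ) : blk m t 0 x ∈ S := by
  have key : ∀ t, (∀ τ < 8, blk m t 0 (xv τ) ∈ S) → ∀ x, blk m t 0 x ∈ S := by
    intro t h x
    have e : blk m t 0 x = ∑ s : Fin 8, x s • blk m t 0 (xv s) := by
      funext p
      have : ∀ s : Fin 8, xv s p.1 = if p.1 = s then 1 else 0 := fun s => by
        have := s.2
        rw [xv, if_neg (by omega), if_neg (by omega)]
        simp [Fin.ext_iff]
      simp only [blk, Finset.sum_apply, Pi.smul_apply, this]
      split_ifs <;> simp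
    rw [e]
    exact S.sum_mem fun s _ => S.smul_mem _ (h s s.2)
  induction t generalizing x with
  | zero =>
    refine key 0 (fun τ hτ => ?_) x
    have := h0 τ hτ
    rwa [row, show blk m 0 1 (yv τ) = 0 from funext fun p => by simp [blk], sub_zero] at this
  | succ t ih =>
    have h2 : ∀ τ, 2 ≤ τ → τ < 10 → blk m (t + 1) 0 (xv τ) ∈ S := fun τ a b => by
      have := S.add_mem (h1 t ht τ a b) (ih (by omega) (yv τ))
      rwa [row, show blk m (t + 1) 1 (yv τ) = blk m t 0 (yv τ) from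
        funext fun p => by simp [blk], sub_add_cancel] at this
    refine key _ (fun τ hτ => ?_) x
    rcases τ with _ | _ | τ
    · have e : xv 0 = xv 8 := by decide
      exact e ▸ h2 8 (by omega) (by omega)
    · have e : blk m (t + 1) 0 (xv (0 + 1)) = blk m (t + 1) 0 (xv 9) +
          (2 : ℤ) • blk m (t + 1) 0 (xv 8) + blk m (t + 1) 0 (xv 2) := by
        funext p
        have : ∀ s, xv (0 + 1) s = xv 9 s + 2 * xv 8 s + xv 2 s := by decide
        simp only [blk, Pi.add_apply, Pi.smul_apply, smul_eq_mul, this]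
        split_ifs <;> simp
      rw [e]
      exact S.add_mem (S.add_mem (h2 9 (by omega) (by omega))
        (S.smul_mem _ (h2 8 (by omega) (by omega)))) (h2 2 (by omega) (by omega))
    · exact h2 _ (by omega) (by omega)

/-- The data of the family, and the change of basis. -/
theorem exists_data {m : ℕ} (hm : 1 ≤ m) :
    ∃ D : Data, D.al 0 = 3 ∧ 2 ≤ D.al 1 ∧ 2 ≤ D.al 2 ∧ Nat.Coprime 3 (D.al 1) ∧
      Nat.Coprime 3 (D.al 2) ∧ Nat.Coprime (D.al 1) (D.al 2) ∧
      ∃ (P : Matrix D.Cv (Fin 8 × Fin m) ℤ) (Q : Matrix (Fin 8 × Fin m) D.Cv ℤ),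
        P * Q = 1 ∧ Q * D.star * Q.transpose = -sumE8 m ∧ ∀ s, Even (D.star s s) := by
  obtain ⟨n, rfl⟩ := Nat.exists_eq_add_of_le' hm
  have hU := fU_norm n
  have ha : ∀ i j, 2 ≤ fa i j := fun i j => by unfold fa; split_ifs <;> omega
  have hal : ∀ i, sq (fa i) 0 1 (![2, n + 1, 7 * n + 4] i + 1) =
      ![3, 2 * fU (n + 1) - fU n, 5 * fU (n + 1) + 2 * fU n] i := fun i => by
    fin_cases i
    · rfl
    · simpa using (arm1 0 1 n).1
    · simpa using (arm2 0 1 n).1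
  obtain ⟨D, hk, hDa, hb, hD⟩ := mk_data ![2, n + 1, 7 * n + 4] fa 2 _
    ![2, fU (n + 1), 4 * fU (n + 1) + 3 * fU n] (fun i => by fin_cases i <;> simp) ha hal
    (fun i => by
      fin_cases i
      · rfl
      · simpa using (arm1 1 0 n).1
      · have := (arm2 1 0 n).1
        simp at this ⊢
        linear_combination this)
    (by simp; linear_combination hU)
  have k0 : D.k 0 = 2 := by rw [hk]; rfl
  have k1 : D.k 1 = n + 1 := by rw [hk]; rfl
  have k2 : D.k 2 = 7 * n + 4 := by rw [hk]; rfl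
  have a0 : (D.al 0 : ℤ) = 3 := hD 0
  have a1 : (D.al 1 : ℤ) = 2 * fU (n + 1) - fU n := hD 1
  have a2 : (D.al 2 : ℤ) = 5 * fU (n + 1) + 2 * fU n := hD 2
  have htwo : ∀ i, 2 ≤ D.al i := fun i => by
    have h1 : ∀ j : ℕ, (j : ℤ) ≤ sq (fa i) 0 1 j := fun j => by
      induction j with
      | zero => exact le_rfl
      | succ j ih => have := sq_inc (ha i) j; omega
    have h2 := h1 (D.k i + 1)
    have h3 := D.k_pos i
    rw [hk, hal, ← hD, ← hk] at h2
    omega
  refine ⟨D, by omega, htwo 1, htwo 2, ?_, ?_, ?_, ?_⟩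
  · exact Nat.isCoprime_iff_coprime.1 ⟨-fU (n + 1) * D.al 2 - (4 * fU (n + 1) + 3 * fU n) * D.al 1,
      4 * D.al 2, by rw [a1, a2]; push_cast; linear_combination hU⟩
  · exact Nat.isCoprime_iff_coprime.1 ⟨-fU (n + 1) * D.al 2 - (4 * fU (n + 1) + 3 * fU n) * D.al 1,
      4 * D.al 1, by rw [a1, a2]; push_cast; linear_combination hU⟩
  · exact Nat.isCoprime_iff_coprime.1 ⟨4 * D.al 2 - 3 * (4 * fU (n + 1) + 3 * fU n),
      -3 * fU (n + 1), by rw [a1, a2]; linear_combination hU⟩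
  let P : Matrix D.Cv (Fin 8 × Fin (n + 1)) ℤ := fun c =>
    c.elim (row (n + 1) 0 3) fun x => row (n + 1) (ft x.1 x.2) (fτ x.1 x.2)
  have hsp : ∀ i (j : Fin (D.k i)), Sp n i j (ft i j) (fτ i j) (fa i j) := fun i j =>
    sp_vtx n i j (hk ▸ j.2)
  have hft := fun i j => (sp_centre (hsp i j)).1
  have hG : P * sumE8 (n + 1) * P.transpose = -D.star := by
    ext c c'
    show Matrix.vecMul (P c) (sumE8 (n + 1)) ⬝ᵥ P c' = -D.star c c'
    rcases c with _ | ⟨i, j⟩ <;> rcases c' with _ | ⟨i', j'⟩ <;>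
      simp only [P, Option.elim, Data.star, hb, hDa]
    · rw [row_form (by omega) (by omega) (by omega) (by omega)]
      rfl
    · rw [row_form (by omega) (by omega) (hft i' j').2.1 (by omega)]
      exact (sp_centre (hsp i' j')).2.1
    · rw [row_form (hft i j).1 (hft i j).2.1 (by omega) (hft i j).2.2]
      exact (sp_centre (hsp i j)).2.2
    · rw [row_form (hft i j).1 (hft i j).2.1 (hft i' j').2.1 (hft i j).2.2,
        sp_gram (hsp i j) (hsp i' j')]
      simp only [Fin.val_inj]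
  have hmem : ∀ p, (Pi.single p 1 : Fin 8 × Fin (n + 1) → ℤ) ∈ Submodule.span ℤ (Set.range P) := by
    intro p
    have hr : ∀ i j, j < D.k i → ∀ t τ, ft i j = t → fτ i j = τ →
        row (n + 1) t τ ∈ Submodule.span ℤ (Set.range P) := fun i j hj t τ e1 e2 =>
      Submodule.subset_span ⟨some ⟨i, j, hj⟩, by rw [← e1, ← e2]; rfl⟩
    have e : (Pi.single p 1 : Fin 8 × Fin (n + 1) → ℤ) = blk (n + 1) p.2 0 (Pi.single p.1 1) := by
      funext q
      simp only [blk, Pi.single_apply, Prod.ext_iff, add_zero, Fin.val_inj]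
      split_ifs <;> tauto
    rw [e]
    refine row_span _ (fun τ hτ => ?_) (fun t ht τ h1 h2 => ?_) _ p.2.2 _
    · interval_cases τ
      · exact hr 0 1 (by omega) _ _ rfl rfl
      · exact hr 1 0 (by omega) _ _ rfl rfl
      · exact hr 0 0 (by omega) _ _ rfl rfl
      · exact Submodule.subset_span ⟨none, rfl⟩
      · exact hr 2 0 (by omega) _ _ rfl rfl
      · exact hr 2 1 (by omega) _ _ rfl rfl
      · exact hr 2 2 (by omega) _ _ rfl rfl
      · exact hr 2 3 (by omega) _ _ rfl rfl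
    · rcases eq_or_ne τ 9 with rfl | h9
      · exact hr 1 (t + 1) (by omega) _ _ rfl rfl
      · refine hr 2 (7 * t + 4 + (τ - 1) % 7) (by omega) _ _ ?_ ?_ <;> simp [ft, fτ]
        · omega
        · split_ifs <;> omega
  choose Q hQ using fun p => (Submodule.mem_span_range_iff_exists_fun ℤ).1 (hmem p)
  have hQP : Matrix.of Q * P = 1 := by
    ext p q
    have := congrFun (hQ p) q
    simpa [Matrix.mul_apply, Matrix.one_apply, Pi.single_apply, eq_comm] using this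
  refine ⟨P, Matrix.of Q, (Matrix.mul_eq_one_comm_of_card_eq _ _ _ ?_).1 hQP, ?_, ?_⟩
  · simp [Fin.sum_univ_three, k0, k1, k2]
    omega
  · rw [← neg_neg D.star, ← hG, Matrix.mul_neg, Matrix.neg_mul, ← Matrix.mul_assoc,
      ← Matrix.mul_assoc, hQP, Matrix.one_mul, Matrix.mul_assoc, ← Matrix.transpose_mul, hQP,
      Matrix.transpose_one, Matrix.mul_one]
  · rintro (_ | ⟨i, j⟩)
    · simp [Data.star, hb]
    · simp only [Data.star, if_true, hDa, fa, even_neg]
      split_ifs <;> decide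

theorem sumE8_inj (m : ℕ) {r : Fin 8 × Fin m → ℤ} (h : Matrix.vecMul r (sumE8 m) = 0) : r = 0 :=
  Matrix.eq_zero_of_vecMul_eq_zero (by simp [sumE8, CartanMatrix.E₈_det]) h

end Pool.Agent.Lib.MP_d31521_gt
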