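import Pool.Agent.Lib.MP_d31521_gt.Gram
import Pool.Agent.Lib.MP_d31521_gt.Haus
import Pool.Agent.Lib.MP_d31521_gt.Flow
import Pool.Agent.Lib.MP_d31521_gt.Num

/-! The resolution is a bounding of the link with the form of the resolution graph. -/

set_option linter.unusedSectionVars false

namespace Pool.Agent.Lib.MP_d31521_gt

open Set Topology Pool.Agent.Lib.MP_bf05b2_gt Pool.Agent.Shared.Sing Pool.Agent.Shared.SingEZ
  Pool.Agent.Lib.MP_45bb13_gt
open scoped Manifold ContDiff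

section bridge

variable {R : Type} [CommRing R] {X : Type} [TopologicalSpace X] [Nonempty X] {A : Set X}

lemma relCoc_of_cy {φ : Cc R X} (h : Cy {univ} {A} 2 φ) : RelCoc A (φ ∘ₗ br R 2) :=
  ⟨fun c => by
    rw [LinearMap.comp_apply, br_bd]
    exact h.1 _ (Ch'_single.ge (br_In c)), fun c hc => h.2 _ (Ch'_single.ge (br_mem_In.2 hc))⟩

lemma cy_of_relCoc {a : Sing.Co R X 2} (h : RelCoc A a) : Cy {univ} {A} 2 (a ∘ₗ rb R 2) :=
  ⟨fun c hc => by
    rw [LinearMap.comp_apply, LinearMap.comp_apply, rb_D (Ch'_single.le hc)]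
    exact h.1 _, fun c hc => h.2 _ (rb_mem_chIn (Ch'_single.le hc))⟩

lemma relCob_of_bo {φ : Cc R X} (h : Bo {univ} {A} 2 φ) : RelCob A (φ ∘ₗ br R 2) := by
  obtain ⟨θ, h1, h2⟩ := h
  refine ⟨θ ∘ₗ br R 1, fun c hc => h1 _ (Ch'_single.ge (br_mem_In.2 hc)), fun c => ?_⟩
  rw [LinearMap.comp_apply, LinearMap.comp_apply, br_bd]
  exact h2 _ (Ch'_single.ge (br_In c))

lemma bo_of_relCob {a : Sing.Co R X 2} (h : RelCob A a) : Bo {univ} {A} 2 (a ∘ₗ rb R 2) := by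
  obtain ⟨θ, h1, h2⟩ := h
  refine ⟨θ ∘ₗ rb R 1, fun c hc => h1 _ (rb_mem_chIn (Ch'_single.le hc)), fun c hc => ?_⟩
  rw [LinearMap.comp_apply, LinearMap.comp_apply, LinearMap.comp_apply, rb_D (Ch'_single.le hc)]
  exact h2 _

lemma br_cast (S : Type) [CommRing S] {n : ℕ} (μ : Sing.Ch ℤ X n) :
    br S n (μ.mapRange Int.cast Int.cast_zero) = cf (Int.castRingHom S) (br ℤ n μ) := by
  induction μ using Finsupp.induction_linear with
  | zero => simp
  | add a b ha hb => rw [Finsupp.mapRange_add Int.cast_add, map_add, map_add, map_add, ha, hb]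
  | single σ r => simp

lemma pairing_br (φ ψ : Cc R X) (μ : Sing.Ch R X 4) :
    pairing μ (φ ∘ₗ br R 2) (ψ ∘ₗ br R 2) = cup 2 φ ψ (br R 4 μ) := by
  rw [pairing, cup_comp_br]
  rfl

lemma even_sum {ι : Type} [Fintype ι] {G : Matrix ι ι ℤ} (h1 : ∀ s t, G s t = G t s)
    (h2 : ∀ s, Even (G s s)) (r : ι → ZMod 2) : ∑ s, ∑ t, r s * (r t * (G s t : ZMod 2)) = 0 := by
  classical
  rw [← Finset.sum_product']
  refine Finset.sum_involution (fun p _ => p.swap) (fun p _ => ?_) (fun p _ h e => h ?_)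
    (fun _ _ => by simp) fun _ _ => rfl
  · simp only [Prod.fst_swap, Prod.snd_swap]
    rw [h1 p.2 p.1, mul_left_comm (r p.2)]
    exact CharTwo.add_self_eq_zero _
  · have e' : p.2 = p.1 := congrArg Prod.fst e
    rw [e', (ZMod.intCast_zmod_eq_zero_iff_dvd _ 2).2 (h2 _).two_dvd, mul_zero, mul_zero]

/-- From the classes of the curves to the statement. -/
theorem forms {ι κ : Type} [Fintype ι] [DecidableEq ι] [Fintype κ] [DecidableEq κ]
    {σ : ι → Cc ℤ X} {μ : Sing.Ch ℤ X 4} (hμ : br ℤ 4 μ ∈ Z ℤ univ A 4)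
    (hσ : ∀ s, Cy {univ} {A} 2 (σ s))
    (hsp : ∀ φ : Cc ℤ X, Cy {univ} {A} 2 φ → ∃ r : ι → ℤ, Bo {univ} {A} 2 (φ - ∑ s, r s • σ s))
    {G : Matrix ι ι ℤ} (hG : ∀ s t, cup 2 (σ s) (σ t) (br ℤ 4 μ) = G s t)
    {P : Matrix ι κ ℤ} {Q : Matrix κ ι ℤ} (hPQ : P * Q = 1)
    (hinj : ∀ r, Matrix.vecMul r (Q * G * Q.transpose) = 0 → r = 0) :
    HasForm A μ (Q * G * Q.transpose) := by
  set α : κ → Cc ℤ X := fun i => ∑ s, Q i s • σ s with hα
  have c1 : ∀ i, Cy {univ} {A} 2 (α i) := fun i => Cy.sum _ fun s _ => (hσ s).smul _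
  have c2 : ∀ i j, cup 2 (α i) (α j) (br ℤ 4 μ) = (Q * G * Q.transpose) i j := fun i j => by
    simp only [hα, cup_sum_left, cup_sum_right, cup_smul_left, cup_smul_right,
      LinearMap.sum_apply, LinearMap.smul_apply, smul_eq_mul, hG, Matrix.mul_apply,
      Matrix.transpose_apply, Finset.sum_mul, Finset.mul_sum]
    exact Finset.sum_congr rfl fun _ _ => Finset.sum_congr rfl fun _ _ => by ring
  have c3 : ∀ r : κ → ℤ, (∑ i, r i • α i) ∘ₗ br ℤ 2 = ∑ i, r i • (α i ∘ₗ br ℤ 2) := fun r =>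
    LinearMap.ext fun c => by simp [LinearMap.sum_apply]
  refine ⟨fun i => α i ∘ₗ br ℤ 2, fun i => relCoc_of_cy (c1 i), fun φ hφ => ?_, fun r hr => ?_,
    fun i j => (pairing_br _ _ _).trans (c2 i j)⟩
  · obtain ⟨r, hr⟩ := hsp _ (cy_of_relCoc hφ)
    refine ⟨Matrix.vecMul r P, ?_⟩
    have e : ∑ i, Matrix.vecMul r P i • α i = ∑ s, r s • σ s := by
      simp only [hα, Finset.smul_sum, smul_smul]
      rw [Finset.sum_comm]
      refine Finset.sum_congr rfl fun s _ => ?_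
      rw [← Finset.sum_smul]
      congr 1
      have := congrFun (Matrix.vecMul_vecMul r P Q) s
      rwa [hPQ, Matrix.vecMul_one] at this
    have := relCob_of_bo hr
    rwa [LinearMap.sub_comp, comp_rb_comp_br, ← e, c3] at this
  · have h1 := bo_of_relCob hr
    rw [← c3] at h1
    have h2 : Bo {univ} {A} 2 (∑ i, r i • α i) := h1.congr fun c hc => by
      rw [LinearMap.comp_apply, LinearMap.comp_apply, br_rb (Ch'_single.le hc)]
    refine hinj r (funext fun j => ?_)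
    have h3 := ev_bo hμ (h2.mul_left (c1 j)) (Ref.of_subset subset_union_left)
    simpa only [cup_sum_left, cup_smul_left, LinearMap.sum_apply, LinearMap.smul_apply,
      smul_eq_mul, c2, Matrix.vecMul, dotProduct, Pi.zero_apply] using h3

theorem wu {ι : Type} [Fintype ι] {σ : ι → Cc ℤ X} {μ : Sing.Ch ℤ X 4}
    (hμ : br ℤ 4 μ ∈ Z ℤ univ A 4) (hσ : ∀ s, Cy {univ} {A} 2 (σ s))
    (hsp : ∀ φ : Cc (ZMod 2) X, Cy {univ} {A} 2 φ → ∃ r : ι → ZMod 2,
      Bo {univ} {A} 2 (φ - ∑ s, r s • bc (Int.castRingHom (ZMod 2)) (σ s)))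
    (hev : ∀ s, Even (cup 2 (σ s) (σ s) (br ℤ 4 μ))) : WuZero A μ := by
  intro a ha
  have c0 := cy_of_relCoc ha
  obtain ⟨r, hr⟩ := hsp _ c0
  have c1 : Cy {univ} {A} 2 (∑ s, r s • bc (Int.castRingHom (ZMod 2)) (σ s)) :=
    Cy.sum _ fun s _ => ((hσ s).coef _).smul _
  have h1 := ev_bo (cf_Z (Int.castRingHom (ZMod 2)) hμ) (Bo.mul c0 c1 hr hr)
    (Ref.of_subset subset_union_left)
  rw [LinearMap.sub_apply, sub_eq_zero] at h1
  rw [← comp_rb_comp_br a, pairing_br, br_cast, h1]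
  simp only [cup_sum_left, cup_sum_right, cup_smul_left, cup_smul_right, LinearMap.sum_apply,
    LinearMap.smul_apply, smul_eq_mul, ← bc_cup, bc_cf, Finset.mul_sum, eq_intCast]
  have hs : ∀ s t, cup 2 (σ s) (σ t) (br ℤ 4 μ) = cup 2 (σ t) (σ s) (br ℤ 4 μ) := fun s t => by
    simpa [sub_eq_zero] using ev_bo hμ (cup_comm (hσ s) (hσ t)) (Ref.of_subset subset_union_left)
  first
    | exact even_sum (G := fun s t => cup 2 (σ s) (σ t) (br ℤ 4 μ)) hs hev r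
    | exact even_sum (G := fun s t => cup 2 (σ t) (σ s) (br ℤ 4 μ)) (fun s t => hs t s) hev r

end bridge

namespace Data

variable (D : Data)

/-- The compact manifold with boundary. -/
abbrev X : Type := {x : D.S // D.ρ x ≤ 1}

/-- The boundary. -/
def bX : Set D.X := {x | D.ρ x.1 = 1}

lemma ρ_base : D.ρ (D.ψ ⟨0, 0⟩ 0) = 0 := by
  refine le_antisymm (not_lt.1 fun h => ?_) (ρ_nonneg _)
  exact (ψ_mem_N0 ⟨0, 0⟩ 0).1 (sub_N (Nat.zero_le _) h) rfl

noncomputable instance xNe : Nonempty D.X := ⟨⟨_, D.ρ_base.trans_le zero_le_one⟩⟩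

lemma exists_retr' : ∃ r : D.S → D.X, Continuous r ∧ (∀ x : D.X, r x.1 = x) ∧
    ∀ x, 1 ≤ D.ρ x → r x ∈ D.bX := by
  obtain ⟨r, h1, h2, h3⟩ := D.exists_retr
  exact ⟨fun x => ⟨r x, (le_total (D.ρ x) 1).elim (fun h => by rwa [h2 x h]) fun h => (h3 x h).le⟩,
    h1.subtype_mk _, fun x => Subtype.ext (h2 _ x.2), h3⟩

/-- The classes of the compact curves. -/
noncomputable def σ (s : D.Cv) : Cc ℤ D.X := pb Subtype.val (D.τ ℤ (D.cv s))

lemma pm_val {O : Set D.S} (h : {x | D.ρ x = 1} ⊆ O) :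
    PM (Subtype.val : D.X → D.S) {univ} {D.bX} {univ} {O} :=
  PM.of_cont continuous_subtype_val Mp.univ (Mp.single fun _ hx => h hx)

lemma σ_cy (s : D.Cv) : Cy {univ} {D.bX} 2 (D.σ s) :=
  (τ_cy ℤ _).pull (D.pm_val fun x hx => (ρ_pos_iff x).1 (hx.symm ▸ one_pos) s)

lemma span_X (R : Type) [CommRing R] (φ : Cc R D.X) (hφ : Cy {univ} {D.bX} 2 φ) :
    ∃ r : D.Cv → R, Bo {univ} {D.bX} 2 (φ - ∑ s, r s • bc (Int.castRingHom R) (D.σ s)) := by
  obtain ⟨r, r1, r2, r3⟩ := D.exists_retr'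
  obtain ⟨H, H1, H2, H3, H4⟩ := D.exists_def
  have hsub : {x | 1 ≤ D.ρ x} ⊆ {x | 0 < D.ρ x} := fun x (hx : 1 ≤ D.ρ x) => show 0 < D.ρ x from one_pos.trans_le hx
  have t : ∀ k, Triv R {{x | 0 < D.ρ x}} {{x | 1 ≤ D.ρ x}} k := by
    refine triv_def (H := H) ⟨?_, ?_, ?_, ?_⟩ ?_ (Mp.single H3)
    · rintro U rfl
      exact H1
    · rintro U rfl
      exact H1.mono (prod_mono_left hsub)
    · rintro U rfl -
      exact ⟨_, rfl, fun p hp => lt_of_lt_of_le hp.1 (H4 p.1 hp.1 p.2 hp.2)⟩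
    · rintro U rfl -
      exact ⟨_, rfl, fun p hp => le_trans hp.1 (H4 p.1 (hsub hp.1) p.2 hp.2)⟩
    · rintro U rfl
      exact H2
  obtain ⟨φ', p1, p2⟩ := ss_cy t (Ref.single hsub)
    (hφ.pull (PM.of_cont r1 (T := {univ}) Mp.univ (Mp.single r3))) Ref.univ
  obtain ⟨c, hc⟩ := sp_all R φ' p1
  refine ⟨c, ?_⟩
  have h := (p2.trans (hc.mono Ref.refl (Ref.single hsub))).pull (D.pm_val fun x hx => hx.ge)
  rw [pb_sub, pb_pb continuous_subtype_val, show r ∘ Subtype.val = id from funext r2, pb_id,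
    pb_sum] at h
  convert h using 3 with s
  rw [pb_smul, σ, τ_eq R, bc_pb]

lemma h1_X : Sing.cyc ℤ D.X 1 ≤ Sing.bdry ℤ D.X 1 := fun c hc => by
  obtain ⟨r, r1, r2, -⟩ := D.exists_retr'
  have h1 := br_mem_Z.2 hc
  have h2 := map_B r1.continuousOn (empty_subset _) (mapsTo_univ _ _) (mapsTo_empty _ ∅)
    (built.h1 (map_Z (g := Subtype.val) continuous_subtype_val.continuousOn (empty_subset _)
      (mapsTo_univ _ _) (mapsTo_empty _ ∅) h1))
  rw [map_map continuous_subtype_val.continuousOn h1.1, map_self (g := r ∘ Subtype.val) (fun x _ => r2 x) h1.1] at h2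
  exact br_mem_B.1 h2

lemma exists_fund : ∃ μ : Sing.Ch ℤ D.X 4, RelFund D.bX μ ∧ br ℤ 4 μ ∈ Z ℤ univ D.bX 4 ∧
    ∃ ε : ℤ, (ε = 1 ∨ ε = -1) ∧ ∀ s t, cup 2 (D.σ s) (D.σ t) (br ℤ 4 μ) = ε * D.star s t := by
  have := D.t2
  obtain ⟨r, r1, r2, r3⟩ := D.exists_retr'
  obtain ⟨c, hc, hg⟩ := built.ori D.isCompact_sub
  have hv : ContinuousOn (Subtype.val : D.X → D.S) univ := continuous_subtype_val.continuousOn
  have m1 : map r c ∈ Z ℤ univ D.bX 4 := map_Z r1.continuousOn (subset_univ _) (mapsTo_univ _ _)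
    (fun x hx => r3 x (not_le.1 hx).le) hc
  have m2 : ∀ x : D.X, x ∉ D.bX → MapsTo r {x.1}ᶜ {x}ᶜ := fun x hx y hy e => by
    rcases le_total (D.ρ y) 1 with h | h
    · exact hy (congrArg Subtype.val ((r2 ⟨y, h⟩).symm.trans e))
    · exact hx (e ▸ r3 y h)
  have e0 : br ℤ 4 (rb ℤ 4 (map r c)) = map r c := br_rb m1.1
  have m3 : map Subtype.val (map r c) ∈ Z ℤ univ {x | 0 < D.ρ x} 4 :=
    map_Z hv (subset_univ _) (mapsTo_univ _ _) (fun x (hx : D.ρ x.1 = 1) => show 0 < D.ρ x.1 from hx.symm ▸ one_pos) m1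
  refine ⟨rb ℤ 4 (map r c), ⟨br_mem_Z_rel.1 (e0.symm ▸ m1), fun x hx e he => ?_⟩, e0.symm ▸ m1,
    _, P_unit m3 ?_, fun s t => ?_⟩
  · have h1 := br_mem_Z_rel.2 he
    obtain ⟨k, hk⟩ := (hg x.1 x.2).2.2 _ (map_Z hv (subset_univ _) (mapsTo_univ _ _)
      (fun y (hy : y ≠ x) e => hy (Subtype.ext e)) h1)
    have h2 := map_B r1.continuousOn (subset_univ _) (mapsTo_univ _ _) (m2 x hx) hk
    rw [map_sub, map_smul, map_map hv h1.1, map_self (g := r ∘ Subtype.val) (fun x _ => r2 x) h1.1, ← e0, ← map_smul,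
      ← map_sub, br_mem_B_rel] at h2
    obtain ⟨w, hw⟩ := h2
    exact ⟨k, Submodule.mem_sup.2 ⟨_, ⟨w, rfl⟩, _, hw, add_sub_cancel _ _⟩⟩
  · set x : D.X := ⟨_, D.ρ_base.trans_le zero_le_one⟩ with hx
    have hx' : x ∉ D.bX := fun h => zero_ne_one (D.ρ_base.symm.trans h)
    have g := hg x.1 x.2
    have hm : MapsTo (Subtype.val ∘ r) {x.1}ᶜ {x.1}ᶜ := fun y hy e => m2 x hx' hy (Subtype.ext e)
    have hc' : ContinuousOn (Subtype.val ∘ r) univ := (continuous_subtype_val.comp r1).continuousOn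
    rw [map_map r1.continuousOn hc.1]
    refine g.unit (u := 1) (map_Z hc' (subset_univ _) (mapsTo_univ _ _) hm g.1) ?_
    obtain ⟨c', p1, p2⟩ := exc_surj (O := {y | D.ρ y < 1}) (U := {x.1}ᶜ)
      (isOpen_lt continuous_ρ continuous_const) isOpen_compl_singleton
      (eq_univ_of_forall fun y => by
        by_cases h : y = x.1
        · exact Or.inl (h ▸ D.ρ_base.trans_lt one_pos)
        · exact Or.inr h) g.1
    have p3 := map_B hc' (subset_univ _) (mapsTo_univ _ _) hm p2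
    rw [map_sub, map_self (g := Subtype.val ∘ r)
      (fun y hy => congrArg Subtype.val (r2 ⟨y, le_of_lt hy⟩)) p1.1] at p3
    simpa using sub_mem p3 p2
  · rw [e0, σ, σ, ← pb_cup continuous_subtype_val]
    exact P_star m3 s t

theorem bounding {m : ℕ} {P : Matrix D.Cv (Fin 8 × Fin m) ℤ} {Q : Matrix (Fin 8 × Fin m) D.Cv ℤ}
    (h1 : P * Q = 1) (h2 : Q * D.star * Q.transpose = -sumE8 m) (h3 : ∀ s, Even (D.star s s)) :
    HasE8Bounding (D.al 0) (D.al 1) (D.al 2) m := by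
  classical
  have := D.t2
  obtain ⟨cs, i1, i2, i3, i4⟩ := sublevel_mfd D.atl contDiff_ρ contDiff_f D.reg D.imm
  obtain ⟨r, r1, r2, -⟩ := D.exists_retr'
  obtain ⟨μ, f1, f2, ε, f3, f4⟩ := D.exists_fund
  have hb : bdy D.X = D.bX := i2
  have pc : PathConnectedSpace D.S := pathConnectedSpace_iff_univ.2 built.pathConn
  have hid : Int.castRingHom ℤ = RingHom.id ℤ := Subsingleton.elim _ _
  have hf : HasForm D.bX μ (Q * (ε • D.star) * Q.transpose) :=
    forms f2 D.σ_cy (fun φ hφ => by simpa only [hid, bc_id] using D.span_X ℤ φ hφ)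
      (G := ε • D.star) f4 h1 fun v hv => by
      rw [Matrix.mul_smul, Matrix.smul_mul, h2] at hv
      refine sumE8_inj m ?_
      rcases f3 with rfl | rfl
      · simpa [Matrix.vecMul_neg] using hv
      · simpa using hv
  rw [Matrix.mul_smul, Matrix.smul_mul, h2] at hf
  refine ⟨D.X, inferInstance, cs, fun x => D.f x.1, μ, inferInstance,
    isCompact_iff_compactSpace.1 D.isCompact_sub,
    (Function.RightInverse.surjective (g := Subtype.val) r2).connectedSpace r1, i1, i3, ?_, fun x hx => i4 x (hb.le hx), D.h1_X, hb ▸ f1,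
    hb ▸ wu f2 D.σ_cy (D.span_X _) fun s => f4 s s ▸ (h3 s).mul_left ε, ?_⟩
  · rw [hb]
    obtain ⟨b1, b2, b3⟩ := D.bijOn_link
    refine ⟨fun x hx => b1 hx, fun x hx y hy e => Subtype.ext (b2 hx hy e), fun y hy => ?_⟩
    obtain ⟨x, hx, rfl⟩ := b3 hy
    exact ⟨⟨x, le_of_eq hx⟩, hx, rfl⟩
  · rw [hb]
    rcases f3 with rfl | rfl
    · exact Or.inl (by simpa using hf)
    · exact Or.inr (by simpa using hf)

end Data

theorem main {m : ℕ} (hm : 1 ≤ m) : ∃ q r : ℕ, 2 ≤ q ∧ 2 ≤ r ∧ Nat.Coprime 3 q ∧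
    Nat.Coprime 3 r ∧ Nat.Coprime q r ∧ HasE8Bounding 3 q r m := by
  obtain ⟨D, h0, h1, h2, h3, h4, h5, P, Q, h6, h7, h8⟩ := exists_data hm
  have h := D.bounding h6 h7 h8
  rw [h0] at h
  exact ⟨_, _, h1, h2, h3, h4, h5, h⟩

end Pool.Agent.Lib.MP_d31521_gt
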