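import Mathlib

/-! A regular sublevel set is a manifold with boundary. -/

namespace Pool.Agent.Lib.MP_d31521_gt

open Set Topology
open scoped Manifold ContDiff

/-- An atlas of global parametrisations by `ℂ²`. -/
structure Atl (S A : Type) [TopologicalSpace S] where
  ψ : A → (Fin 2 → ℂ) → S
  φ : A → S → Fin 2 → ℂ
  emb : ∀ a, IsOpenEmbedding (ψ a)
  inv : ∀ a w, φ a (ψ a w) = w
  cov : ∀ x, ∃ a, x ∈ range (ψ a)
  smooth : ∀ a b w, ψ a w ∈ range (ψ b) → ContDiffAt ℝ ∞ (φ b ∘ ψ a) w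

namespace MfdAux

/-- The model vector space. -/
abbrev F4 : Type := EuclideanSpace ℝ (Fin 4)

/-- A nonzero functional is the first coordinate of a linear isomorphism. -/
lemma exists_T (L : (Fin 2 → ℂ) →L[ℝ] ℝ) (hL : L ≠ 0) :
    ∃ T : (Fin 2 → ℂ) ≃L[ℝ] F4, ∀ v, T v 0 = L v := by
  have hr : Module.finrank ℝ (Fin 2 → ℂ) = Module.finrank ℝ F4 := by
    simp [Module.finrank_pi_fintype]
  let T0 : (Fin 2 → ℂ) ≃L[ℝ] F4 := ContinuousLinearEquiv.ofFinrankEq hr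
  let l : F4 →L[ℝ] ℝ := L.comp (T0.symm : F4 →L[ℝ] (Fin 2 → ℂ))
  let n : F4 := (InnerProductSpace.toDual ℝ F4).symm l
  have hn : ∀ u, inner ℝ n u = l u := fun u => InnerProductSpace.toDual_symm_apply
  have hn0 : ‖n‖ ≠ 0 := by
    intro h
    apply hL
    ext1 v
    have h1 := hn (T0 v)
    rw [norm_eq_zero.1 h, inner_zero_left] at h1
    simpa [l] using h1.symm
  let e0 : F4 := EuclideanSpace.single 0 ‖n‖
  have he : ‖n‖ = ‖e0‖ := by simp [e0]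
  let R : F4 ≃ₗᵢ[ℝ] F4 := Submodule.reflection (ℝ ∙ (n - e0))ᗮ
  have hR : R n = e0 := Submodule.reflection_sub he
  let U : F4 ≃L[ℝ] F4 := (LinearEquiv.smulOfNeZero ℝ F4 ‖n‖ hn0).toContinuousLinearEquiv
  refine ⟨T0.trans (R.toContinuousLinearEquiv.trans U), fun v => ?_⟩
  have h1 := hn (T0 v)
  rw [← R.inner_map_map, hR] at h1
  have h2 : l (T0 v) = L v := by simp [l]
  rw [← h2, ← h1]
  simp [U, e0, EuclideanSpace.inner_single_left]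

/-- A smooth map with invertible derivative is a local diffeomorphism. -/
lemma exists_loc {G : (Fin 2 → ℂ) → F4} (hG : ContDiff ℝ ∞ G) {y0 : Fin 2 → ℂ}
    (T : (Fin 2 → ℂ) ≃L[ℝ] F4) (hT : HasFDerivAt G (T : (Fin 2 → ℂ) →L[ℝ] F4) y0)
    {W : Set (Fin 2 → ℂ)} (hW : IsOpen W) (h0 : y0 ∈ W) :
    ∃ Φ : OpenPartialHomeomorph (Fin 2 → ℂ) F4, (Φ : (Fin 2 → ℂ) → F4) = G ∧ y0 ∈ Φ.source ∧
      Φ.source ⊆ W ∧ ∀ v ∈ Φ.target, ContDiffAt ℝ ∞ Φ.symm v := by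
  let Φ0 := (hG.contDiffAt (x := y0)).toOpenPartialHomeomorph G hT (by simp)
  have hc : (Φ0 : (Fin 2 → ℂ) → F4) = G := rfl
  let O : Set (Fin 2 → ℂ) := fderiv ℝ G ⁻¹'
    range ((↑) : ((Fin 2 → ℂ) ≃L[ℝ] F4) → (Fin 2 → ℂ) →L[ℝ] F4) ∩ W
  have hO : IsOpen O :=
    (ContinuousLinearEquiv.isOpen.preimage (hG.continuous_fderiv (by simp))).inter hW
  refine ⟨Φ0.restrOpen O hO, rfl, ?_, ?_, ?_⟩
  · exact ⟨ContDiffAt.mem_toOpenPartialHomeomorph_source _ hT _, ⟨T, hT.fderiv.symm⟩, h0⟩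
  · exact fun y hy => hy.2.2
  · intro v hv
    have hs := (Φ0.restrOpen O hO).map_target hv
    obtain ⟨T', hT'⟩ := hs.2.1
    refine (Φ0.restrOpen O hO).contDiffAt_symm (f₀' := T') hv ?_ hG.contDiffAt
    rw [hT']
    exact (hG.differentiable (by simp) _).hasFDerivAt

/-- Local straightening of a sublevel set. -/
lemma exists_straight {g : (Fin 2 → ℂ) → ℝ} (hg : ContDiff ℝ ∞ g) {y0 : Fin 2 → ℂ}
    (h0 : g y0 ≤ 1) (hreg : g y0 = 1 → fderiv ℝ g y0 ≠ 0) :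
    ∃ Φ : OpenPartialHomeomorph (Fin 2 → ℂ) F4, ContDiff ℝ ∞ Φ ∧ y0 ∈ Φ.source ∧
      (∀ v ∈ Φ.target, ContDiffAt ℝ ∞ Φ.symm v) ∧ (∀ y ∈ Φ.source, g y ≤ 1 ↔ 0 ≤ Φ y 0) ∧
      (g y0 = 1 ↔ Φ y0 0 = 0) := by
  let e0 : F4 := EuclideanSpace.single 0 1
  let p0 : F4 →L[ℝ] ℝ := EuclideanSpace.proj 0
  have hp0 : ∀ u : F4, p0 u = u 0 := fun u => rfl
  rcases h0.eq_or_lt with h1 | h1
  · obtain ⟨T, hT⟩ := exists_T (-fderiv ℝ g y0) (neg_ne_zero.2 (hreg h1))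
    let G : (Fin 2 → ℂ) → F4 := fun y => T y + ((1 - g y) - p0 (T y)) • e0
    have hG0 : ∀ y, G y 0 = 1 - g y := by
      intro y
      simp [G, e0, hp0]
    have hG : ContDiff ℝ ∞ G :=
      T.contDiff.add (((contDiff_const.sub hg).sub (p0.contDiff.comp T.contDiff)).smul
        contDiff_const)
    have hd : HasFDerivAt (fun y => (1 - g y) - p0 (T y)) (0 : (Fin 2 → ℂ) →L[ℝ] ℝ) y0 := by
      have a1 := (hg.differentiable (by simp) y0).hasFDerivAt.const_sub 1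
      have a2 := (p0.comp (T : (Fin 2 → ℂ) →L[ℝ] F4)).hasFDerivAt (x := y0)
      refine (a1.sub a2).congr_fderiv ?_
      ext1 v
      have := hT v
      simp only [neg_apply] at this
      simp [hp0, this]
    have hGd : HasFDerivAt G (T : (Fin 2 → ℂ) →L[ℝ] F4) y0 := by
      refine ((T : (Fin 2 → ℂ) →L[ℝ] F4).hasFDerivAt.add (hd.smul_const e0)).congr_fderiv ?_
      ext1 v
      simp
    obtain ⟨Φ, hΦ, a1, -, a3⟩ := exists_loc hG T hGd isOpen_univ (mem_univ _)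
    refine ⟨Φ, hΦ ▸ hG, a1, a3, fun y _ => ?_, ?_⟩
    · rw [hΦ, hG0, sub_nonneg]
    · rw [hΦ, hG0, sub_eq_zero, eq_comm]
  · have hr : Module.finrank ℝ (Fin 2 → ℂ) = Module.finrank ℝ F4 := by
      simp [Module.finrank_pi_fintype]
    let T : (Fin 2 → ℂ) ≃L[ℝ] F4 := ContinuousLinearEquiv.ofFinrankEq hr
    let G : (Fin 2 → ℂ) → F4 := fun y => T y + (1 - p0 (T y0)) • e0
    have hG0 : G y0 0 = 1 := by simp [G, e0, hp0]
    have hG : ContDiff ℝ ∞ G := T.contDiff.add contDiff_const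
    have hGd : HasFDerivAt G (T : (Fin 2 → ℂ) →L[ℝ] F4) y0 :=
      (T : (Fin 2 → ℂ) →L[ℝ] F4).hasFDerivAt.add_const _
    have hW : IsOpen ({y | g y < 1} ∩ {y | 0 < p0 (G y)}) :=
      (isOpen_lt hg.continuous continuous_const).inter
        (isOpen_lt continuous_const (p0.continuous.comp hG.continuous))
    obtain ⟨Φ, hΦ, a1, a2, a3⟩ := exists_loc hG T hGd hW
      ⟨h1, by simp only [mem_ofPred_eq, hp0, hG0]; exact one_pos⟩
    refine ⟨Φ, hΦ ▸ hG, a1, a3, fun y hy => ?_, ?_⟩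
    · rw [hΦ]
      exact iff_of_true (le_of_lt (a2 hy).1) (le_of_lt (a2 hy).2)
    · rw [hΦ, hG0]
      exact iff_of_false h1.ne one_ne_zero

variable {S : Type} [TopologicalSpace S] {ρ : S → ℝ}

lemma mem_rng {v : F4} : v ∈ range (𝓡∂ 4) ↔ 0 ≤ v 0 := by
  rw [range_modelWithCornersEuclideanHalfSpace]
  rfl

open Classical in
/-- The inverse of a chart of the sublevel set. -/
noncomputable def inv (Θ : OpenPartialHomeomorph S F4) (p : {x // ρ x ≤ 1})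
    (v : EuclideanHalfSpace 4) : {x // ρ x ≤ 1} :=
  if h : ρ (Θ.symm ((𝓡∂ 4) v)) ≤ 1 then ⟨Θ.symm ((𝓡∂ 4) v), h⟩ else p

lemma inv_val {Θ : OpenPartialHomeomorph S F4} (hΘ : ∀ x ∈ Θ.source, ρ x ≤ 1 ↔ 0 ≤ Θ x 0)
    (p : {x // ρ x ≤ 1}) {v : EuclideanHalfSpace 4} (hv : (𝓡∂ 4) v ∈ Θ.target) :
    (inv Θ p v).1 = Θ.symm ((𝓡∂ 4) v) := by
  have h : ρ (Θ.symm ((𝓡∂ 4) v)) ≤ 1 := by
    rw [hΘ _ (Θ.map_target hv), Θ.right_inv hv]
    exact mem_rng.1 (mem_range_self v)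
  rw [inv, dif_pos h]

lemma to_val {Θ : OpenPartialHomeomorph S F4} (hΘ : ∀ x ∈ Θ.source, ρ x ≤ 1 ↔ 0 ≤ Θ x 0)
    {x : {x // ρ x ≤ 1}} (hx : x.1 ∈ Θ.source) : (𝓡∂ 4) ((𝓡∂ 4).symm (Θ x.1)) = Θ x.1 :=
  (𝓡∂ 4).right_inv (mem_rng.2 ((hΘ _ hx).1 x.2))

/-- The restriction of a chart to the sublevel set. -/
noncomputable def res (Θ : OpenPartialHomeomorph S F4)
    (hΘ : ∀ x ∈ Θ.source, ρ x ≤ 1 ↔ 0 ≤ Θ x 0) (p : {x // ρ x ≤ 1}) :
    OpenPartialHomeomorph {x // ρ x ≤ 1} (EuclideanHalfSpace 4) where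
  toFun x := (𝓡∂ 4).symm (Θ x.1)
  invFun := inv Θ p
  source := Subtype.val ⁻¹' Θ.source
  target := (𝓡∂ 4) ⁻¹' Θ.target
  map_source' x hx := by
    rw [mem_preimage, to_val hΘ hx]
    exact Θ.map_source hx
  map_target' v hv := by
    rw [mem_preimage, inv_val hΘ p hv]
    exact Θ.map_target hv
  left_inv' x hx := by
    apply Subtype.ext
    have h := to_val hΘ hx
    rw [inv_val hΘ p (by rw [h]; exact Θ.map_source hx), h, Θ.left_inv hx]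
  right_inv' v hv := by
    rw [inv_val hΘ p hv, Θ.right_inv hv, (𝓡∂ 4).left_inv]
  open_source := Θ.open_source.preimage continuous_subtype_val
  open_target := Θ.open_target.preimage (𝓡∂ 4).continuous
  continuousOn_toFun := (𝓡∂ 4).continuous_symm.comp_continuousOn
    (Θ.continuousOn.comp continuous_subtype_val.continuousOn fun _ hx => hx)
  continuousOn_invFun := by
    refine (IsInducing.subtypeVal (t := {x | ρ x ≤ 1})).continuousOn_iff.2 ?_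
    exact (Θ.continuousOn_symm.comp (𝓡∂ 4).continuous.continuousOn fun _ hv => hv).congr
      fun v hv => inv_val hΘ p hv

/-- The sublevel set, from a family of straightening charts. -/
theorem sub_mfd {f : S → Fin 3 → ℂ} (Θ : {x // ρ x ≤ 1} → OpenPartialHomeomorph S F4)
    (hmem : ∀ p, p.1 ∈ (Θ p).source)
    (hle : ∀ p, ∀ x ∈ (Θ p).source, ρ x ≤ 1 ↔ 0 ≤ Θ p x 0)
    (heq : ∀ p, ρ p.1 = 1 ↔ Θ p p.1 0 = 0)
    (htr : ∀ p q, ∀ v ∈ (Θ p).target, (Θ p).symm v ∈ (Θ q).source →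
      ContDiffAt ℝ ∞ (Θ q ∘ (Θ p).symm) v)
    (hf : ∀ p, ContDiffAt ℝ ∞ (f ∘ (Θ p).symm) (Θ p p.1))
    (hinj : ∀ p, ρ p.1 = 1 → Function.Injective (fderiv ℝ (f ∘ (Θ p).symm) (Θ p p.1))) :
    ∃ _ : ChartedSpace (EuclideanHalfSpace 4) {x // ρ x ≤ 1},
      IsManifold (𝓡∂ 4) ∞ {x // ρ x ≤ 1} ∧
      (𝓡∂ 4).boundary {x // ρ x ≤ 1} = {x | ρ x.1 = 1} ∧
      ContMDiff (𝓡∂ 4) 𝓘(ℝ, Fin 3 → ℂ) ∞ (fun x : {x // ρ x ≤ 1} => f x.1) ∧
      ∀ x : {x // ρ x ≤ 1}, ρ x.1 = 1 →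
        Function.Injective
          (mfderiv (𝓡∂ 4) 𝓘(ℝ, Fin 3 → ℂ) (fun x : {x // ρ x ≤ 1} => f x.1) x) := by
  let C : ChartedSpace (EuclideanHalfSpace 4) {x // ρ x ≤ 1} :=
    { atlas := range fun p => res (Θ p) (hle p) p
      chartAt := fun p => res (Θ p) (hle p) p
      mem_chart_source := hmem
      chart_mem_atlas := fun p => mem_range_self p }
  have hext : ∀ x : {x // ρ x ≤ 1}, extChartAt (𝓡∂ 4) x x = Θ x x.1 :=
    fun x => to_val (hle x) (hmem x)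
  have hcont : ∀ x : {x // ρ x ≤ 1}, ContinuousAt (fun x : {x // ρ x ≤ 1} => f x.1) x := by
    intro x
    have h1 : ContinuousAt ((f ∘ (Θ x).symm) ∘ Θ x) x.1 :=
      (hf x).continuousAt.comp ((Θ x).continuousAt (hmem x))
    have h2 : ContinuousAt f x.1 := by
      refine h1.congr ?_
      filter_upwards [(Θ x).open_source.mem_nhds (hmem x)] with y hy
      simp only [Function.comp_apply, (Θ x).left_inv hy]
    exact h2.comp continuous_subtype_val.continuousAt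
  have hev : ∀ x : {x // ρ x ≤ 1},
      writtenInExtChartAt (𝓡∂ 4) 𝓘(ℝ, Fin 3 → ℂ) x (fun x : {x // ρ x ≤ 1} => f x.1)
        =ᶠ[𝓝[range (𝓡∂ 4)] (Θ x x.1)] f ∘ (Θ x).symm := by
    intro x
    filter_upwards [self_mem_nhdsWithin, mem_nhdsWithin_of_mem_nhds
      ((Θ x).open_target.mem_nhds ((Θ x).map_source (hmem x)))] with v h1 h2
    have h3 := (𝓡∂ 4).right_inv h1
    show f (inv (Θ x) x ((𝓡∂ 4).symm v)).1 = f ((Θ x).symm v)
    rw [inv_val (hle x) x (by rw [h3]; exact h2), h3]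
  have hrng : ∀ x : {x // ρ x ≤ 1}, Θ x x.1 ∈ range (𝓡∂ 4) :=
    fun x => mem_rng.2 ((hle x _ (hmem x)).1 x.2)
  refine ⟨C, ?_, ?_, ?_, ?_⟩
  · refine isManifold_of_contDiffOn _ _ _ ?_
    rintro _ _ ⟨p, rfl⟩ ⟨q, rfl⟩
    have key : ∀ v ∈ (𝓡∂ 4).symm ⁻¹'
        ((res (Θ p) (hle p) p).symm ≫ₕ res (Θ q) (hle q) q).source ∩ range (𝓡∂ 4),
        v ∈ (Θ p).target ∧ (inv (Θ p) p ((𝓡∂ 4).symm v)).1 = (Θ p).symm v ∧
          (inv (Θ p) p ((𝓡∂ 4).symm v)).1 ∈ (Θ q).source := by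
      rintro v ⟨⟨h1, h2⟩, h3⟩
      have h4 := (𝓡∂ 4).right_inv h3
      have h5 : (𝓡∂ 4) ((𝓡∂ 4).symm v) ∈ (Θ p).target := h1
      refine ⟨h4 ▸ h5, ?_, h2⟩
      rw [inv_val (hle p) p h5, h4]
    refine ContDiffOn.congr (f := Θ q ∘ (Θ p).symm) (fun v hv => ?_) fun v hv => ?_
    · obtain ⟨h1, h2, h3⟩ := key v hv
      exact (htr p q v h1 (h2 ▸ h3)).contDiffWithinAt
    · obtain ⟨h1, h2, h3⟩ := key v hv
      show (𝓡∂ 4) ((𝓡∂ 4).symm (Θ q (inv (Θ p) p ((𝓡∂ 4).symm v)).1)) = Θ q ((Θ p).symm v)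
      rw [to_val (hle q) h3, h2]
  · ext x
    show extChartAt (𝓡∂ 4) x x ∈ frontier (range (𝓡∂ 4)) ↔ ρ x.1 = 1
    rw [frontier_range_modelWithCornersEuclideanHalfSpace, hext, heq]
    exact eq_comm
  · intro x
    rw [contMDiffAt_iff]
    refine ⟨hcont x, ?_⟩
    rw [hext]
    exact (hf x).contDiffWithinAt.congr_of_eventuallyEq_of_mem (hev x) (hrng x)
  · intro x hx
    have h1 : HasMFDerivAt (𝓡∂ 4) 𝓘(ℝ, Fin 3 → ℂ) (fun x : {x // ρ x ≤ 1} => f x.1) x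
        (fderiv ℝ (f ∘ (Θ x).symm) (Θ x x.1)) := by
      refine ⟨hcont x, ?_⟩
      rw [hext]
      exact ((hf x).differentiableAt (by simp)).hasFDerivAt.hasFDerivWithinAt.congr_of_eventuallyEq
        (hev x) ((hev x).self_of_nhdsWithin (hrng x))
    rw [h1.mfderiv]
    exact hinj x hx

/-- A parametrisation as a chart. -/
def chart {A : Type} (P : Atl S A) (a : A) : OpenPartialHomeomorph S (Fin 2 → ℂ) where
  toFun := P.φ a
  invFun := P.ψ a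
  source := range (P.ψ a)
  target := univ
  map_source' _ _ := mem_univ _
  map_target' _ _ := mem_range_self _
  left_inv' := by
    rintro _ ⟨w, rfl⟩
    rw [P.inv]
  right_inv' w _ := P.inv a w
  open_source := (P.emb a).isOpen_range
  open_target := isOpen_univ
  continuousOn_toFun := by
    rw [(P.emb a).isInducing.continuousOn_iff]
    refine continuousOn_id.congr ?_
    rintro _ ⟨w, rfl⟩
    simp only [Function.comp_apply, P.inv, id]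
  continuousOn_invFun := (P.emb a).continuous.continuousOn

lemma inj_symm {Φ : OpenPartialHomeomorph (Fin 2 → ℂ) F4} (h1 : ContDiff ℝ ∞ Φ) {v : F4}
    (hv : v ∈ Φ.target) (h2 : ContDiffAt ℝ ∞ Φ.symm v) :
    Function.Injective (fderiv ℝ Φ.symm v) := by
  have a1 := (h1.differentiable (by simp) (Φ.symm v)).hasFDerivAt.comp v
    (h2.differentiableAt (by simp)).hasFDerivAt
  have a2 : HasFDerivAt (Φ ∘ Φ.symm) (ContinuousLinearMap.id ℝ F4) v := by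
    refine (hasFDerivAt_id v).congr_of_eventuallyEq ?_
    filter_upwards [Φ.open_target.mem_nhds hv] with u hu
    exact Φ.right_inv hu
  have a3 := a1.unique a2
  refine Function.LeftInverse.injective (g := fderiv ℝ Φ (Φ.symm v)) fun u => ?_
  exact congrArg (fun L : F4 →L[ℝ] F4 => L u) a3

end MfdAux

open MfdAux in
theorem sublevel_mfd {S A : Type} [TopologicalSpace S] (P : Atl S A) {ρ : S → ℝ}
    {f : S → Fin 3 → ℂ} (hρ : ∀ a, ContDiff ℝ ∞ (ρ ∘ P.ψ a)) (hf : ∀ a, ContDiff ℝ ∞ (f ∘ P.ψ a))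
    (hreg : ∀ a w, ρ (P.ψ a w) = 1 → fderiv ℝ (ρ ∘ P.ψ a) w ≠ 0)
    (himm : ∀ a w, ρ (P.ψ a w) = 1 → Function.Injective (fderiv ℝ (f ∘ P.ψ a) w)) :
    ∃ _ : ChartedSpace (EuclideanHalfSpace 4) {x // ρ x ≤ 1},
      IsManifold (𝓡∂ 4) ∞ {x // ρ x ≤ 1} ∧
      (𝓡∂ 4).boundary {x // ρ x ≤ 1} = {x | ρ x.1 = 1} ∧
      ContMDiff (𝓡∂ 4) 𝓘(ℝ, Fin 3 → ℂ) ∞ (fun x : {x // ρ x ≤ 1} => f x.1) ∧
      ∀ x : {x // ρ x ≤ 1}, ρ x.1 = 1 →
        Function.Injective (mfderiv (𝓡∂ 4) 𝓘(ℝ, Fin 3 → ℂ) (fun x : {x // ρ x ≤ 1} => f x.1) x) := by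
  have H : ∀ p : {x // ρ x ≤ 1}, ∃ (a : A) (y0 : Fin 2 → ℂ)
      (Φ : OpenPartialHomeomorph (Fin 2 → ℂ) F4), P.ψ a y0 = p.1 ∧ ContDiff ℝ ∞ Φ ∧
      y0 ∈ Φ.source ∧ (∀ v ∈ Φ.target, ContDiffAt ℝ ∞ Φ.symm v) ∧
      (∀ y ∈ Φ.source, ρ (P.ψ a y) ≤ 1 ↔ 0 ≤ Φ y 0) ∧ (ρ (P.ψ a y0) = 1 ↔ Φ y0 0 = 0) := by
    intro p
    obtain ⟨a, y0, h0⟩ := P.cov p.1
    obtain ⟨Φ, h⟩ := exists_straight (hρ a) (y0 := y0)
      (by simp only [Function.comp_apply, h0]; exact p.2) (hreg a y0)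
    exact ⟨a, y0, Φ, h0, h⟩
  choose a y Φ h0 h1 h2 h3 h4 h5 using H
  have hφ : ∀ p, P.φ (a p) p.1 = y p := fun p => by rw [← h0 p, P.inv]
  have hval : ∀ p, ((chart P (a p)).trans (Φ p)) p.1 = Φ p (y p) := fun p =>
    congrArg (Φ p) (hφ p)
  have hsy : ∀ p, f ∘ ((chart P (a p)).trans (Φ p)).symm = (f ∘ P.ψ (a p)) ∘ (Φ p).symm :=
    fun p => rfl
  refine sub_mfd (fun p => (chart P (a p)).trans (Φ p)) ?_ ?_ ?_ ?_ ?_ ?_
  · intro p
    refine ⟨⟨y p, h0 p⟩, ?_⟩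
    show P.φ (a p) p.1 ∈ (Φ p).source
    rw [hφ]
    exact h2 p
  · rintro p _ ⟨⟨w, rfl⟩, hw⟩
    have hw' : P.φ (a p) (P.ψ (a p) w) ∈ (Φ p).source := hw
    show _ ↔ 0 ≤ Φ p (P.φ (a p) (P.ψ (a p) w)) 0
    rw [P.inv] at hw' ⊢
    exact h4 p w hw'
  · intro p
    rw [hval, ← h5, h0]
  · intro p q v hv hs
    show ContDiffAt ℝ ∞ (Φ q ∘ (P.φ (a q) ∘ P.ψ (a p)) ∘ (Φ p).symm) v
    exact (h1 q).contDiffAt.comp v ((P.smooth _ _ _ hs.1).comp v (h3 p v hv.1))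
  · intro p
    rw [hval, hsy]
    exact (hf _).contDiffAt.comp _ (h3 p _ ((Φ p).map_source (h2 p)))
  · intro p hp
    have ht := (Φ p).map_source (h2 p)
    rw [hval, hsy, fderiv_comp _ ((hf _).differentiable (by simp) _)
      ((h3 p _ ht).differentiableAt (by simp)), (Φ p).left_inv (h2 p)]
    exact (himm _ _ (by rw [h0]; exact hp)).comp (inj_symm (h1 p) ht (h3 p _ ht))

end Pool.Agent.Lib.MP_d31521_gt
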