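import Pool.Agent.Lib.MP_d31521_gt.Data
import Pool.Agent.Lib.MP_d31521_gt.Mfd
import Pool.Agent.Lib.MP_d31521_gt.Built
import Pool.Agent.Lib.MP_bf05b2_gt.H57Lift

/-! The resolution as a hypersurface in a Cox quotient, and its charts. -/

set_option linter.unusedSectionVars false

namespace Pool.Agent.Lib.MP_d31521_gt

open Set Topology Pool.Agent.Lib.MP_bf05b2_gt
open scoped ContDiff

namespace Data

variable (D : Data)

/-- All divisors: the centre, and `k i + 1` divisors on arm `i`. -/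
abbrev J : Type := Option (Σ i : Fin 3, Fin (D.k i + 1))

/-- The `j`-th divisor of arm `i`. -/
def vtx (i : Fin 3) : ℕ → D.J
  | 0 => none
  | j + 1 => if h : j < D.k i + 1 then some ⟨i, ⟨j, h⟩⟩ else none

/-- The weight vectors. -/
def ray : D.J → Fin 3 → ℤ
  | none => D.V 0 0
  | some ⟨i, j⟩ => D.V i (j + 1)

/-- The three rays of a chart. -/
def e (i : Fin 3) (j : ℕ) : Fin 3 → D.J := ![D.vtx i j, D.vtx i (j + 1), D.vtx (i + 1) 1]

/-- The system of cones. -/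
def fan : Fan D.J (Fin 3) where
  v := D.ray
  K := {σ | ∃ i j, j ≤ D.k i ∧ σ ⊆ Finset.univ.image (D.e i j)}
  zero_mem := ⟨0, 0, Nat.zero_le _, Finset.empty_subset _⟩

open Classical in
/-- The dual basis of a chart. -/
noncomputable def M (i : Fin 3) (j : ℕ) : Fin 3 → Fin 3 → ℤ :=
  if h : j ≤ D.k i then (D.dual i j h).choose else 0

/-- The monomial of arm `l`. -/
noncomputable def Mo (l : Fin 3) (z : D.J → ℂ) : ℂ :=
  ∏ j : Fin (D.k l + 1), z (some ⟨l, j⟩) ^ D.m l (j + 1)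

/-- The equation of the surface. -/
def Rel (z : D.J → ℂ) : Prop := D.Mo 0 z + D.Mo 1 z + D.Mo 2 z = 0

/-- The resolution. -/
def S : Type := {x : D.fan.X // ∀ z ∈ D.fan.U, D.fan.cl z = x → D.Rel z}

noncomputable instance sTop : TopologicalSpace D.S := instTopologicalSpaceSubtype

/-- The third coordinate in a chart. -/
noncomputable def ext (i : Fin 3) (j : ℕ) (w : Fin 2 → ℂ) : Fin 3 → ℂ :=
  ![w 0, w 1, -1 - w 0 ^ D.m i j * w 1 ^ D.m i (j + 1)]

/-- The indices of the charts. -/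
abbrev Ix : Type := Σ i : Fin 3, Fin (D.k i + 1)

/-- The compact curves among the divisors. -/
def cv : D.Cv → D.J
  | none => none
  | some ⟨i, j⟩ => some ⟨i, j.castSucc⟩

variable {D} {i l : Fin 3} {j : ℕ} {z g : D.J → ℂ}

lemma fin3_ne (i : Fin 3) : i + 1 ≠ i ∧ i + 2 ≠ i ∧ i + 2 ≠ i + 1 ∧ i + 1 + 1 = i + 2 ∧
    i + 2 + 1 = i ∧ i + 1 + 2 = i ∧ i + 2 + 2 = i + 1 := by
  revert i; decide

lemma fin3_cases (i l : Fin 3) : l = i ∨ l = i + 1 ∨ l = i + 2 := by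
  revert i l; decide

lemma vtx_zero (i : Fin 3) : D.vtx i 0 = none := rfl

lemma vtx_succ (h : j < D.k i + 1) : D.vtx i (j + 1) = some ⟨i, ⟨j, h⟩⟩ := dif_pos h

lemma vtx_fin (j : Fin (D.k i + 1)) : D.vtx i (j + 1) = some ⟨i, j⟩ := vtx_succ j.2

lemma exists_vtx (s : D.J) : ∃ i j, j ≤ D.k i + 1 ∧ s = D.vtx i j := by
  rcases s with _ | ⟨i, j⟩
  · exact ⟨0, 0, Nat.zero_le _, rfl⟩
  · exact ⟨i, j + 1, j.2, (vtx_fin j).symm⟩

lemma vtx_eq_iff {i' : Fin 3} {j' : ℕ} (hj : j ≤ D.k i + 1) (hj' : j' ≤ D.k i' + 1) :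
    D.vtx i j = D.vtx i' j' ↔ j = j' ∧ (j = 0 ∨ i = i') := by
  rcases j with _ | j <;> rcases j' with _ | j'
  · simp [vtx_zero]
  · rw [vtx_zero, vtx_succ hj']; simp
  · rw [vtx_zero, vtx_succ hj]; simp
  · rw [vtx_succ hj, vtx_succ hj']
    constructor
    · intro h
      obtain ⟨rfl, h2⟩ := Sigma.mk.inj_iff.1 (Option.some.inj h)
      exact ⟨by simpa using eq_of_heq h2, Or.inr rfl⟩
    · rintro ⟨h, h' | rfl⟩
      · omega
      · obtain rfl : j = j' := by omega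
        rfl

lemma ray_vtx (hj : j ≤ D.k i + 1) : D.ray (D.vtx i j) = D.V i j := by
  rcases j with _ | j
  · exact (D.V0 i).symm
  · rw [vtx_succ hj]; rfl

lemma e_zero : D.e i j 0 = D.vtx i j := rfl

lemma e_one : D.e i j 1 = D.vtx i (j + 1) := rfl

lemma e_two : D.e i j 2 = D.vtx (i + 1) 1 := rfl

lemma not_mem_e {s : D.J} : s ∉ Finset.univ.image (D.e i j) ↔
    s ≠ D.vtx i j ∧ s ≠ D.vtx i (j + 1) ∧ s ≠ D.vtx (i + 1) 1 := by
  simp only [Finset.mem_image, Finset.mem_univ, true_and, not_exists, Fin.forall_fin_succ,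
    IsEmpty.forall_iff, and_true]
  exact and_congr ne_comm (and_congr ne_comm ne_comm)

lemma isChart (hj : j ≤ D.k i) : D.fan.IsChart (D.e i j) (D.M i j) := by
  refine ⟨fun s t => ?_, i, j, hj, Finset.Subset.refl _⟩
  rw [M, dif_pos hj, ← (D.dual i j hj).choose_spec s t]
  refine Finset.sum_congr rfl fun l _ => ?_
  refine congrArg _ (congrFun ?_ l)
  fin_cases t
  · exact ray_vtx (D := D) (i := i) (j := j) (by omega)
  · exact ray_vtx (D := D) (i := i) (j := j + 1) (by omega)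
  · exact ray_vtx (D := D) (i := i + 1) (j := 1) (by omega)

lemma sm : D.fan.Sm := fun _ ⟨_, _, hj, h⟩ => ⟨_, _, isChart hj, h⟩

lemma V_nonneg (hj : j ≤ D.k i + 1) (l : Fin 3) : 0 ≤ D.V i j l := by
  have h := D.wt i j l hj
  have h0 : (0 : ℤ) < D.al l := by exact_mod_cast D.al_pos l
  refine nonneg_of_mul_nonneg_right ?_ h0 |>.trans' le_rfl
  rw [h]
  split_ifs <;> positivity

lemma A_pos (hj : j ≤ D.k i) : 0 < D.A i j := (Nat.zero_le _).trans_lt (D.A_lt i j hj)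

lemma V_pos (hj : j ≤ D.k i) (l : Fin 3) : 0 < D.V i j l := by
  have h := D.wt i j l (by omega)
  have h0 : (0 : ℤ) < D.al l := by exact_mod_cast D.al_pos l
  have h1 : (0 : ℤ) < D.A i j := by exact_mod_cast A_pos hj
  refine (mul_pos_iff_of_pos_left h0).1 ?_
  rw [h]
  split_ifs <;> positivity

lemma ray_nonneg (s : D.J) (l : Fin 3) : 0 ≤ D.ray s l := by
  obtain ⟨i, j, hj, rfl⟩ := exists_vtx s
  rw [ray_vtx hj]
  exact V_nonneg hj l

lemma A_end (i : Fin 3) : D.A i (D.k i + 1) = 0 := by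
  have h := D.wt i (D.k i + 1) (i + 1) le_rfl
  rw [D.Vend, if_neg (fin3_ne i).1, Pi.single_eq_of_ne (fin3_ne i).1] at h
  omega

lemma m_end (i : Fin 3) : D.m i (D.k i + 1) = D.al i := by
  have h := D.wt i (D.k i + 1) i le_rfl
  rw [D.Vend, if_pos rfl, Pi.single_eq_same, A_end] at h
  omega

lemma m_pos (hj : j ≤ D.k i) : 0 < D.m i (j + 1) := (Nat.zero_le _).trans_lt (D.m_lt i j hj)

variable (D) in
/-- The common part of the weights. -/
def AJ : D.J → ℕ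
  | none => D.A 0 0
  | some ⟨i, j⟩ => D.A i (j + 1)

variable (D) in
/-- The multiplicity in the monomial of arm `l`. -/
def mJ (l : Fin 3) : D.J → ℕ
  | none => 0
  | some ⟨i, j⟩ => if l = i then D.m i (j + 1) else 0

lemma al_ray (s : D.J) (l : Fin 3) : (D.al l : ℤ) * D.ray s l = D.AJ s + D.mJ l s := by
  rcases s with _ | ⟨i, j⟩
  · have := D.wt 0 0 l (Nat.zero_le _)
    simpa [ray, AJ, mJ, D.m0] using this
  · have := D.wt i (j + 1) l j.2
    simpa [ray, AJ, mJ] using this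

lemma mJ_vtx (hj : j ≤ D.k i + 1) : D.mJ l (D.vtx i j) = if l = i then D.m i j else 0 := by
  rcases j with _ | j
  · simp [vtx_zero, mJ, D.m0]
  · rw [vtx_succ hj]; rfl

lemma Mo_eq (l : Fin 3) (z : D.J → ℂ) : D.Mo l z = ∏ s, z s ^ D.mJ l s := by
  rw [Fintype.prod_option, Fintype.prod_sigma, Finset.prod_eq_single l]
  · simp [mJ, Mo]
  · intro i _ hi
    simp [mJ, hi.symm]
  · simp

/-- The powers of the coordinate monomials. -/
lemma pow_mon (z : D.J → ℂ) (l : Fin 3) :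
    (∏ s, z s ^ D.ray s l) ^ D.al l = (∏ s, z s ^ D.AJ s) * D.Mo l z := by
  rw [Mo_eq, ← Finset.prod_pow, ← Finset.prod_mul_distrib]
  refine Finset.prod_congr rfl fun s _ => ?_
  rw [← zpow_natCast, ← zpow_mul, mul_comm, al_ray, ← pow_add, ← zpow_natCast]
  norm_cast

/-- The three monomials are multiplied by the same unit. -/
lemma Mo_mul (hg : g ∈ D.fan.G) : ∃ c : ℂ, c ≠ 0 ∧ ∀ l z, D.Mo l (g * z) = c * D.Mo l z := by
  have h0 : (∏ s, g s ^ D.AJ s) ≠ 0 := Finset.prod_ne_zero_iff.2 fun s _ => pow_ne_zero _ (hg.1 s)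
  refine ⟨_, inv_ne_zero h0, fun l z => ?_⟩
  have h1 := pow_mon g l
  rw [show (∏ s, g s ^ D.ray s l) = 1 from hg.2 l, one_pow] at h1
  rw [← eq_inv_of_mul_eq_one_right h1.symm]
  simp only [Mo, Pi.mul_apply, mul_pow, Finset.prod_mul_distrib]

lemma Rel.mul (hg : g ∈ D.fan.G) (h : D.Rel z) : D.Rel (g * z) := by
  obtain ⟨c, -, hc⟩ := Mo_mul hg
  simp only [Rel, hc] at h ⊢
  linear_combination c * h

lemma mem_S (hz : z ∈ D.fan.U) (h : D.Rel z) : ∀ z' ∈ D.fan.U, D.fan.cl z' = D.fan.cl z → D.Rel z' :=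
  fun _ hz' e => by
    obtain ⟨g, hg, rfl⟩ := (Fan.cl_eq_iff hz' hz).1 e
    exact h.mul hg

/-- The point of the surface given by Cox coordinates. -/
noncomputable def pt (hz : z ∈ D.fan.U) (h : D.Rel z) : D.S := ⟨D.fan.cl z, mem_S hz h⟩

lemma pt_surj (x : D.S) : ∃ z, ∃ (hz : z ∈ D.fan.U) (h : D.Rel z), pt hz h = x := by
  obtain ⟨z, hz, e⟩ := Fan.cl_surj x.1
  exact ⟨z, hz, x.2 z hz e, Subtype.ext e⟩

lemma pt_val (hz : z ∈ D.fan.U) (h : D.Rel z) : (pt hz h).1 = D.fan.cl z := rfl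

lemma pt_eq_iff {z' : D.J → ℂ} (hz : z ∈ D.fan.U) (h : D.Rel z) (hz' : z' ∈ D.fan.U)
    (h' : D.Rel z') : pt hz h = pt hz' h' ↔ ∃ g ∈ D.fan.G, z = g * z' :=
  Subtype.ext_iff.trans (Fan.cl_eq_iff hz hz')

lemma Mo_sec (hj : j ≤ D.k i) (w : Fin 3 → ℂ) :
    D.Mo i (Fan.sec (D.e i j) w) = w 0 ^ D.m i j * w 1 ^ D.m i (j + 1) ∧
      D.Mo (i + 1) (Fan.sec (D.e i j) w) = w 2 ∧ D.Mo (i + 2) (Fan.sec (D.e i j) w) = 1 := by
  have hc := isChart hj
  obtain ⟨n1, n2, n3, -⟩ := fin3_ne i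
  have key : ∀ l, D.Mo l (Fan.sec (D.e i j) w) = w 0 ^ D.mJ l (D.vtx i j) *
      w 1 ^ D.mJ l (D.vtx i (j + 1)) * w 2 ^ D.mJ l (D.vtx (i + 1) 1) := fun l => by
    rw [Mo_eq, hc.prod_split, Finset.prod_eq_one (s := (Finset.univ.image (D.e i j))ᶜ), mul_one,
      Fin.prod_univ_three, hc.sec_e, hc.sec_e, hc.sec_e]
    · rfl
    · intro s hs
      rw [Fan.sec_not w (Finset.mem_compl.1 hs), one_pow]
  have h1 : j ≤ D.k i + 1 := by omega
  have h2 : j + 1 ≤ D.k i + 1 := by omega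
  have h3 : 1 ≤ D.k (i + 1) + 1 := by omega
  simp only [key, mJ_vtx h1, mJ_vtx h2, mJ_vtx h3, n1, n2, n3, n1.symm, if_true, if_false, D.m1,
    pow_zero, pow_one, mul_one, one_mul, and_self]

lemma rel_iff (i : Fin 3) : D.Rel z ↔ D.Mo i z + D.Mo (i + 1) z + D.Mo (i + 2) z = 0 := by
  rw [Rel]
  fin_cases i
  · rfl
  · change _ ↔ D.Mo 1 z + D.Mo 2 z + D.Mo 0 z = 0
    rw [add_rotate]
  · change _ ↔ D.Mo 2 z + D.Mo 0 z + D.Mo 1 z = 0
    rw [← add_rotate]

lemma rel_sec (hj : j ≤ D.k i) (w : Fin 2 → ℂ) : D.Rel (Fan.sec (D.e i j) (D.ext i j w)) := by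
  obtain ⟨h1, h2, h3⟩ := Mo_sec hj (D.ext i j w)
  rw [rel_iff i, h1, h2, h3]
  simp [ext]

variable (D) in
/-- The parametrisation of a chart. -/
noncomputable def ψ (a : D.Ix) (w : Fin 2 → ℂ) : D.S :=
  pt ((isChart (Nat.lt_succ_iff.1 a.2.2)).sec_mem (D.ext a.1 a.2 w))
    (rel_sec (Nat.lt_succ_iff.1 a.2.2) w)

variable (D) in
/-- The coordinates of a chart. -/
noncomputable def φ (a : D.Ix) (x : D.S) : Fin 2 → ℂ :=
  fun s => D.fan.φ (D.M a.1 a.2) x.1 s.castSucc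

noncomputable instance sNe : Nonempty D.S := ⟨D.ψ ⟨0, 0⟩ 0⟩

variable (D) in
/-- The complement of a divisor. -/
def N (s : D.J) : Set D.S := Subtype.val ⁻¹' D.fan.nz s

variable (D) in
/-- The map to the singularity. -/
noncomputable def f (x : D.S) : Fin 3 → ℂ := D.fan.φ (fun l => Pi.single l 1) x.1

variable (D) in
/-- The square of the distance from the singular point. -/
noncomputable def ρ (x : D.S) : ℝ := ‖D.f x 0‖ ^ 2 + ‖D.f x 1‖ ^ 2 + ‖D.f x 2‖ ^ 2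

lemma isOpen_N (s : D.J) : IsOpen (D.N s) := (Fan.isOpen_nz s).preimage continuous_subtype_val

lemma pt_mem_N (hz : z ∈ D.fan.U) (h : D.Rel z) (s : D.J) : pt hz h ∈ D.N s ↔ z s ≠ 0 :=
  Fan.cl_mem_nz hz

lemma f_pt (hz : z ∈ D.fan.U) (h : D.Rel z) (l : Fin 3) :
    D.f (pt hz h) l = ∏ s, z s ^ D.ray s l := by
  rw [f, pt_val, Fan.φ_cl _ hz, Fan.mon]
  refine Finset.prod_congr rfl fun s _ => ?_
  simp [Pi.single_apply, fan]

lemma ix_le (a : D.Ix) : (a.2 : ℕ) ≤ D.k a.1 := Nat.lt_succ_iff.1 a.2.2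

lemma ψ_val (a : D.Ix) (w : Fin 2 → ℂ) :
    (D.ψ a w).1 = D.fan.ψ (D.e a.1 a.2) (D.ext a.1 a.2 w) := rfl

lemma ext_castSucc (w : Fin 2 → ℂ) (s : Fin 2) : D.ext i j w s.castSucc = w s := by
  fin_cases s <;> rfl

lemma continuous_ext (i : Fin 3) (j : ℕ) : Continuous (D.ext i j) := by
  refine continuous_pi fun t => ?_
  fin_cases t <;> simp only [ext] <;> simp <;> fun_prop

lemma φ_ψ (a : D.Ix) (w : Fin 2 → ℂ) : D.φ a (D.ψ a w) = w := by
  funext s
  rw [φ, ψ_val, (isChart (ix_le a)).φ_ψ, ext_castSucc]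

lemma ψ_φ (a : D.Ix) {x : D.S} (hx : x.1 ∈ D.fan.W (Finset.univ.image (D.e a.1 a.2))) :
    D.ψ a (D.φ a x) = x := by
  have hc := isChart (ix_le a)
  have h1 := hc.ψ_φ hx
  have h2 := x.2 _ (hc.sec_mem _) h1
  obtain ⟨e1, e2, e3⟩ := Mo_sec (ix_le a) (D.fan.φ (D.M a.1 a.2) x.1)
  rw [rel_iff a.1, e1, e2, e3] at h2
  refine Subtype.ext ?_
  rw [ψ_val, ← h1]
  congr 1
  funext t
  fin_cases t
  · rfl
  · rfl
  · change -1 - D.fan.φ _ x.1 0 ^ _ * D.fan.φ _ x.1 1 ^ _ = D.fan.φ _ x.1 2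
    linear_combination -h2

lemma mem_range_ψ (a : D.Ix) (x : D.S) :
    x ∈ range (D.ψ a) ↔ ∀ s, s ∉ Finset.univ.image (D.e a.1 a.2) → x ∈ D.N s := by
  constructor
  · rintro ⟨w, rfl⟩
    exact (isChart (ix_le a)).ψ_mem _
  · exact fun h => ⟨_, ψ_φ a h⟩

lemma range_ψ (a : D.Ix) :
    range (D.ψ a) = Subtype.val ⁻¹' D.fan.W (Finset.univ.image (D.e a.1 a.2)) :=
  Set.ext fun x => mem_range_ψ a x

lemma isOpen_range (a : D.Ix) : IsOpen (range (D.ψ a)) := by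
  rw [range_ψ]
  exact (Fan.isOpen_W _).preimage continuous_subtype_val

lemma continuous_ψ (a : D.Ix) : Continuous (D.ψ a) :=
  ((isChart (ix_le a)).continuous_ψ.comp (continuous_ext _ _)).subtype_mk _

lemma continuousOn_φ (a : D.Ix) : ContinuousOn (D.φ a) (range (D.ψ a)) := by
  rw [range_ψ]
  refine continuousOn_pi.2 fun s => ?_
  exact (continuousOn_pi.1 (isChart (ix_le a)).continuousOn_φ s.castSucc).comp
    continuous_subtype_val.continuousOn fun _ hx => hx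

lemma ψ_emb (a : D.Ix) : IsOpenEmbedding (D.ψ a) := by
  refine .of_continuous_injective_isOpenMap (continuous_ψ a)
    (Function.LeftInverse.injective (φ_ψ a)) fun O hO => ?_
  have : D.ψ a '' O = range (D.ψ a) ∩ D.φ a ⁻¹' O := by
    ext x
    constructor
    · rintro ⟨w, hw, rfl⟩
      exact ⟨⟨w, rfl⟩, by rwa [mem_preimage, φ_ψ]⟩
    · rintro ⟨⟨w, rfl⟩, hw⟩
      exact ⟨w, by rwa [mem_preimage, φ_ψ] at hw, rfl⟩
  rw [this]
  exact (continuousOn_φ a).isOpen_inter_preimage (isOpen_range a) hO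

lemma ψ_mem_N0 (a : D.Ix) (w : Fin 2 → ℂ) : D.ψ a w ∈ D.N (D.vtx a.1 a.2) ↔ w 0 ≠ 0 :=
  (isChart (ix_le a)).ψ_mem_nz (D.ext a.1 a.2 w) 0

lemma ψ_mem_N1 (a : D.Ix) (w : Fin 2 → ℂ) : D.ψ a w ∈ D.N (D.vtx a.1 (a.2 + 1)) ↔ w 1 ≠ 0 :=
  (isChart (ix_le a)).ψ_mem_nz (D.ext a.1 a.2 w) 1

lemma mem_range_iff (a : D.Ix) (x : D.S) : x ∈ range (D.ψ a) ↔ ∀ s, s ≠ D.vtx a.1 a.2 →
    s ≠ D.vtx a.1 (a.2 + 1) → s ≠ D.vtx (a.1 + 1) 1 → x ∈ D.N s := by
  simp only [mem_range_ψ, not_mem_e, and_imp]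

lemma Mo_ne_zero : D.Mo l z ≠ 0 ↔ ∀ j, j ≤ D.k l → z (D.vtx l (j + 1)) ≠ 0 := by
  rw [Mo, Finset.prod_ne_zero_iff]
  constructor
  · intro h j hj h0
    refine h ⟨j, by omega⟩ (Finset.mem_univ _) ?_
    rw [← vtx_succ, h0, zero_pow (m_pos hj).ne']
  · intro h j _
    refine pow_ne_zero _ ?_
    rw [← vtx_fin]
    exact h j (Nat.lt_succ_iff.1 j.2)

/-- The divisors through a point lie on an edge of the graph. -/
lemma exists_edge (x : D.S) : ∃ i j, j ≤ D.k i ∧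
    ∀ s, s ≠ D.vtx i j → s ≠ D.vtx i (j + 1) → x ∈ D.N s := by
  obtain ⟨z, hz, h, rfl⟩ := pt_surj x
  obtain ⟨σ, ⟨i, j, hj, hσ⟩, h1⟩ := id hz
  have h2 : ∀ s, s ≠ D.vtx i j → s ≠ D.vtx i (j + 1) → s ≠ D.vtx (i + 1) 1 → z s ≠ 0 :=
    fun s a b c => h1 s fun hs => not_mem_e.2 ⟨a, b, c⟩ (hσ hs)
  simp only [pt_mem_N]
  by_cases h3 : z (D.vtx (i + 1) 1) = 0
  · obtain ⟨n1, n2, n3, -⟩ := fin3_ne i
    have h4 : D.Mo (i + 1) z = 0 := by
      by_contra h5
      exact Mo_ne_zero.1 h5 0 (Nat.zero_le _) h3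
    have h5 : D.Mo (i + 2) z ≠ 0 := Mo_ne_zero.2 fun t ht => h2 _
      (by rw [Ne, vtx_eq_iff (by omega) (by omega)]; simp [n2])
      (by rw [Ne, vtx_eq_iff (by omega) (by omega)]; simp [n2])
      (by rw [Ne, vtx_eq_iff (by omega) (by omega)]; simp [n3])
    have h6 : D.Mo i z ≠ 0 := fun h6 => h5 (by simpa [h4, h6] using (rel_iff i).1 h)
    refine ⟨i + 1, 0, Nat.zero_le _, fun s a b => ?_⟩
    by_cases c1 : s = D.vtx i (j + 1)
    · exact c1 ▸ Mo_ne_zero.1 h6 j hj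
    by_cases c2 : s = D.vtx i j
    · rcases j with _ | j
      · exact absurd c2 a
      · exact c2 ▸ Mo_ne_zero.1 h6 j (by omega)
    exact h2 s c2 c1 b
  · refine ⟨i, j, hj, fun s a b => ?_⟩
    by_cases c : s = D.vtx (i + 1) 1
    · exact c ▸ h3
    · exact h2 s a b c

lemma cov (x : D.S) : ∃ a, x ∈ range (D.ψ a) := by
  obtain ⟨i, j, hj, h⟩ := exists_edge x
  exact ⟨⟨i, ⟨j, by omega⟩⟩, (mem_range_iff _ _).2 fun s a b _ => h s a b⟩

lemma continuous_f : Continuous D.f := by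
  refine (Fan.continuous_lf (F := D.fan) (continuousOn_pi.2 fun l => ?_) fun z _ g hg =>
    funext fun l => Fan.mon_mul _ hg z).comp continuous_subtype_val
  refine (Fan.continuousOn_mon _).mono fun z _ s hs => absurd hs (not_lt.2 ?_)
  simpa [Pi.single_apply, fan] using ray_nonneg s l

lemma continuous_ρ : Continuous D.ρ := by
  have := continuous_f (D := D)
  unfold ρ
  fun_prop

lemma contDiff_ext (i : Fin 3) (j : ℕ) : ContDiff ℝ ∞ (D.ext i j) := by
  refine contDiff_pi.2 fun t => ?_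
  fin_cases t <;> simp only [ext] <;> simp <;> fun_prop

lemma contDiff_sec (e : Fin 3 → D.J) : ContDiff ℝ ∞ (Fan.sec e : (Fin 3 → ℂ) → D.J → ℂ) := by
  classical
  refine contDiff_pi.2 fun s => ?_
  simp only [Fan.sec, Function.extend_def]
  split_ifs
  · exact contDiff_apply _ _ _
  · exact contDiff_const

lemma contDiffAt_zpow' {n : ℤ} {x : ℂ} (h : n < 0 → x ≠ 0) :
    ContDiffAt ℝ ∞ (fun y : ℂ => y ^ n) x := by
  rcases n with n | n
  · simpa using (contDiff_id.pow n).contDiffAt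
  · simp only [zpow_negSucc]
    exact (contDiff_id.pow _).contDiffAt.inv (pow_ne_zero _ (h (Int.negSucc_lt_zero n)))

lemma contDiffAt_mon (χ : Fin 3 → ℤ) (h : ∀ s, ∑ l, χ l * D.ray s l < 0 → z s ≠ 0) :
    ContDiffAt ℝ ∞ (D.fan.mon χ) z :=
  contDiffAt_prod fun s _ => (contDiffAt_zpow' (h s)).comp z (contDiff_apply ℝ ℂ s).contDiffAt

/-- Smoothness of a monomial in a chart. -/
lemma contDiffAt_φ (a : D.Ix) (M : Fin 3 → Fin 3 → ℤ) (t : Fin 3) {w : Fin 2 → ℂ}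
    (h : ∀ s, ∑ l, M t l * D.ray s l < 0 → D.ψ a w ∈ D.N s) :
    ContDiffAt ℝ ∞ (fun w => D.fan.φ M (D.ψ a w).1 t) w := by
  have hc := isChart (ix_le a)
  have e : (fun w => D.fan.φ M (D.ψ a w).1 t) =
      D.fan.mon (M t) ∘ Fan.sec (D.e a.1 a.2) ∘ D.ext a.1 a.2 :=
    funext fun w => Fan.φ_cl M (hc.sec_mem _) t
  rw [e]
  exact (contDiffAt_mon _ fun s hs => (pt_mem_N _ _ s).1 (h s hs)).comp w
    ((contDiff_sec _).comp (contDiff_ext _ _)).contDiffAt

variable (D) in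
/-- The atlas. -/
noncomputable def atl : Atl D.S D.Ix where
  ψ := D.ψ
  φ := D.φ
  emb := ψ_emb
  inv := φ_ψ
  cov := cov
  smooth a b w hw := contDiffAt_pi.2 fun t => contDiffAt_φ a _ t.castSucc fun s hs => by
    refine (mem_range_ψ b _).1 hw s fun h => ?_
    obtain ⟨u, -, rfl⟩ := Finset.mem_image.1 h
    have := (isChart (ix_le b)).dual t.castSucc u
    rw [show ∑ l, D.M b.1 b.2 t.castSucc l * D.ray (D.e b.1 b.2 u) l = _ from this] at hs
    split_ifs at hs <;> omega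

lemma contDiff_f (a : D.Ix) : ContDiff ℝ ∞ (D.f ∘ D.ψ a) :=
  contDiff_iff_contDiffAt.2 fun _ => contDiffAt_pi.2 fun l =>
    contDiffAt_φ a (fun l => Pi.single l 1) l fun s hs => absurd hs (not_lt.2 (by simpa [Pi.single_apply] using ray_nonneg s l))

lemma contDiff_ρ (a : D.Ix) : ContDiff ℝ ∞ (D.ρ ∘ D.ψ a) := by
  have h := fun l => (contDiff_pi.1 (contDiff_f a) l).norm_sq ℝ
  exact ((h 0).add (h 1)).add (h 2)

lemma cv_eq (s : D.Cv) : ∃ i j, j ≤ D.k i ∧ D.cv s = D.vtx i j := by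
  rcases s with _ | ⟨i, j⟩
  · exact ⟨0, 0, Nat.zero_le _, rfl⟩
  · exact ⟨i, j + 1, j.2, (vtx_fin j.castSucc).symm⟩

lemma exists_cv (hj : j ≤ D.k i) : ∃ s : D.Cv, D.cv s = D.vtx i j := by
  rcases j with _ | j
  · exact ⟨none, rfl⟩
  · exact ⟨some ⟨i, ⟨j, hj⟩⟩, (vtx_succ (by omega)).symm⟩

lemma ρ_nonneg (x : D.S) : 0 ≤ D.ρ x := by
  unfold ρ
  positivity

lemma ρ_pos_iff' (x : D.S) : 0 < D.ρ x ↔ ∃ l, D.f x l ≠ 0 := by
  constructor
  · intro h
    by_contra h1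
    push Not at h1
    simp [ρ, h1] at h
  · rintro ⟨l, hl⟩
    have h1 : 0 < ‖D.f x l‖ ^ 2 := by positivity
    have h2 := fun l => sq_nonneg ‖D.f x l‖
    unfold ρ
    fin_cases l
    · exact add_pos_of_pos_of_nonneg (add_pos_of_pos_of_nonneg h1 (h2 _)) (h2 _)
    · exact add_pos_of_pos_of_nonneg (add_pos_of_nonneg_of_pos (h2 _) h1) (h2 _)
    · exact add_pos_of_nonneg_of_pos (add_nonneg (h2 _) (h2 _)) h1

/-- The exceptional set is the union of the compact curves. -/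
lemma ρ_pos_iff (x : D.S) : 0 < D.ρ x ↔ ∀ s : D.Cv, x ∈ D.N (D.cv s) := by
  obtain ⟨i, j, hj, he⟩ := exists_edge x
  obtain ⟨z, hz, h, rfl⟩ := pt_surj x
  simp only [ρ_pos_iff', f_pt, pt_mem_N] at he ⊢
  constructor
  · rintro ⟨l, hl⟩ s h0
    obtain ⟨i', j', hj', e⟩ := cv_eq s
    refine Finset.prod_ne_zero_iff.1 hl (D.cv s) (Finset.mem_univ _) ?_
    rw [h0, e, ray_vtx (by omega), zero_zpow _ (V_pos hj' l).ne']
  · intro hs
    refine ⟨i + 1, Finset.prod_ne_zero_iff.2 fun s _ => ?_⟩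
    obtain ⟨i', j', hj', rfl⟩ := exists_vtx s
    rcases hj'.lt_or_eq with h1 | rfl
    · obtain ⟨t, ht⟩ := exists_cv (Nat.lt_succ_iff.1 h1)
      exact zpow_ne_zero _ (ht ▸ hs t)
    · by_cases h2 : i' = i
      · rw [ray_vtx le_rfl, D.Vend, h2, Pi.single_eq_of_ne (fin3_ne i).1, zpow_zero]
        exact one_ne_zero
      · refine zpow_ne_zero _ (he _ ?_ ?_) <;>
        · rw [Ne, vtx_eq_iff le_rfl (by omega)]
          simp [h2]

variable (D) in
/-- The open set where only the divisors `vtx i j` with `j ≤ n i` may pass. -/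
def Up (n : Fin 3 → ℕ) : Set D.S := {x | ∀ i j, n i < j → j ≤ D.k i + 1 → x ∈ D.N (D.vtx i j)}

lemma ψ_mem_N (a : D.Ix) (w : Fin 2 → ℂ) {s : D.J} (h0 : s ≠ D.vtx a.1 a.2)
    (h1 : s ≠ D.vtx a.1 (a.2 + 1)) (h2 : s ≠ D.vtx (a.1 + 1) 1) : D.ψ a w ∈ D.N s :=
  (mem_range_iff a _).1 ⟨w, rfl⟩ s h0 h1 h2

lemma vtx_ne {i' : Fin 3} {j' : ℕ} (hj : j ≤ D.k i + 1) (hj' : j' ≤ D.k i' + 1)
    (h : j ≠ j' ∨ (j ≠ 0 ∧ i ≠ i')) : D.vtx i j ≠ D.vtx i' j' := by
  rw [Ne, vtx_eq_iff hj hj']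
  tauto

lemma range_zero : range (D.ψ ⟨0, 0⟩) = D.Up ![1, 1, 0] := by
  ext x
  rw [mem_range_iff]
  constructor
  · intro h i j h1 h2
    refine h _ (vtx_ne h2 (by simp) (.inl ?_)) (vtx_ne h2 (by simp) ?_) (vtx_ne h2 (by simp) ?_)
    · simp only [Fin.val_zero]; omega
    all_goals fin_cases i <;> simp at h1 ⊢ <;> omega
  · intro h s a b c
    obtain ⟨i, j, hj, rfl⟩ := exists_vtx s
    refine h i j ?_ hj
    rw [Ne, vtx_eq_iff hj (by simp)] at a b c
    fin_cases i <;> simp at a b c ⊢ <;> omega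

lemma built_step {n : Fin 3 → ℕ} (h : Built (D.Up n)) (hi : n i ≤ D.k i) (h1 : 1 ≤ n (i + 1))
    (h2 : 1 ≤ n i ∨ 1 ≤ n (i + 2)) (h3 : n i = 0 ∨ 1 ≤ n (i + 2)) :
    Built (D.Up (Function.update n i (n i + 1))) := by
  obtain ⟨n1, n2, n3, -⟩ := fin3_ne i
  have key := Built.step _ (D.ψ ⟨i, ⟨n i, by omega⟩⟩) h (ψ_emb _) (Set.ext fun w => ⟨fun hw =>
    (ψ_mem_N1 _ w).1 (hw i (n i + 1) (by omega) (by omega)), fun hw i' j a b => ?_⟩)
  · convert key using 1
    ext x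
    constructor
    · intro hx
      by_cases c : x ∈ D.N (D.vtx i (n i + 1))
      · refine Or.inl fun i' j a b => ?_
        by_cases e : i' = i
        · subst e
          rcases (Nat.succ_le_of_lt a).lt_or_eq with e | e
          · exact hx i' j (by simpa using e) b
          · exact e ▸ c
        · exact hx i' j (by rwa [Function.update_of_ne e]) b
      · refine Or.inr ((mem_range_iff _ _).2 fun s a b _ => ?_)
        obtain ⟨i', j', hj', he⟩ := exists_edge x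
        by_cases e1 : D.vtx i (n i + 1) = D.vtx i' j'
        · obtain ⟨rfl, e2⟩ := (vtx_eq_iff (by omega) (by omega)).1 e1
          obtain rfl : i = i' := e2.resolve_left (by omega)
          by_cases e3 : s = D.vtx i (n i + 1 + 1)
          · exact e3 ▸ hx i _ (by simp) (by omega)
          · exact he s b e3
        · by_cases e2 : D.vtx i (n i + 1) = D.vtx i' (j' + 1)
          · obtain ⟨e3, e4⟩ := (vtx_eq_iff (by omega) (by omega)).1 e2
            obtain rfl : i = i' := e4.resolve_left (by omega)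
            obtain rfl : n i = j' := by omega
            exact he s a b
          · exact absurd (he _ e1 e2) c
    · rintro (hx | ⟨w, rfl⟩) i' j a b
      · refine hx i' j (lt_of_le_of_lt ?_ a) b
        by_cases e : i' = i
        · subst e; simp
        · rw [Function.update_of_ne e]
      · by_cases e : i' = i
        · subst e
          rw [Function.update_self] at a
          exact ψ_mem_N _ w (vtx_ne b (by simp; omega) (.inl (by simp; omega)))
            (vtx_ne b (by simp; omega) (.inl (by simp; omega)))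
            (vtx_ne b (by simp) (.inr ⟨by omega, n1.symm⟩))
        · rw [Function.update_of_ne e] at a
          refine ψ_mem_N _ w (vtx_ne b (by simp; omega) (.inr ⟨by omega, e⟩))
            (vtx_ne b (by simp; omega) (.inr ⟨by omega, e⟩)) (vtx_ne b (by simp) ?_)
          by_cases e' : i' = i + 1
          · subst e'; exact .inl (by omega)
          · exact .inr ⟨by omega, e'⟩
  · by_cases e : i' = i
    · subst e
      rcases (Nat.succ_le_of_lt a).lt_or_eq with e | e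
      · exact ψ_mem_N _ w (vtx_ne b (by simp; omega) (.inl (by simp; omega)))
          (vtx_ne b (by simp; omega) (.inl (by simp; omega)))
          (vtx_ne b (by simp) (.inr ⟨by omega, n1.symm⟩))
      · exact e ▸ (ψ_mem_N1 ⟨i', ⟨n i', by omega⟩⟩ w).2 hw
    · refine ψ_mem_N _ w (vtx_ne b (by simp; omega) (.inr ⟨by omega, e⟩))
        (vtx_ne b (by simp; omega) (.inr ⟨by omega, e⟩)) (vtx_ne b (by simp) ?_)
      by_cases e' : i' = i + 1
      · subst e'; exact .inl (by omega)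
      · exact .inr ⟨by omega, e'⟩

lemma built_arm {n : Fin 3 → ℕ} (h : Built (D.Up n)) (hn : ∀ l, 1 ≤ n l) (i : Fin 3) (t : ℕ)
    (ht : n i + t ≤ D.k i + 1) : Built (D.Up (Function.update n i (n i + t))) := by
  induction t with
  | zero => simpa using h
  | succ t ih =>
    obtain ⟨n1, n2, -⟩ := fin3_ne i
    have := built_step (i := i) (ih (by omega)) (by simp; omega) (by simpa [n1] using hn _)
      (.inr (by simpa [n2] using hn _)) (.inr (by simpa [n2] using hn _))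
    simpa [add_assoc] using this

theorem built : Built (univ : Set D.S) := by
  have h0 : Built (D.Up ![1, 1, 0]) := range_zero ▸ Built.base _ (ψ_emb _)
  have h1 := built_step (i := 2) h0 (by simp) (by simp) (by simp) (by simp)
  have h2 := built_arm h1 (fun l => by fin_cases l <;> simp) 0 (D.k 0) (by simp; omega)
  have h3 := built_arm h2 (fun l => by fin_cases l <;> simp) 1 (D.k 1) (by simp; omega)
  have h4 := built_arm h3 (fun l => by fin_cases l <;> simp) 2 (D.k 2) (by simp; omega)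
  convert h4 using 1
  refine (eq_univ_of_forall fun x i j a b => ?_).symm
  fin_cases i <;> simp at a b <;> omega

end Data

end Pool.Agent.Lib.MP_d31521_gt
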